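import Pool.Agent.Lib.Pbbea99G.E9.Data
import Pool.Agent.Lib.Pbbea99G.Piece

/-!
# MP_bbea99_co: closure of the templates
-/

namespace MPbbea99G.E9

open MPbbea99S MPbbea99T MPbbea99G Finset

mutual

theorem ck_1992_p0 : allN (fun j => chkV1 P V lk 0x10001000100050001000000000000400040004000400040004000400040004000 (0 + j)) 5 = true := by decide +kernel

theorem ck_1992_p1 : allN (fun j => chkV1 P V lk 0x10001000100050001000000000000400040004000400040004000400040004000 (5 + j)) 5 = true := by decide +kernel

theorem ck_1992_p2 : allN (fun j => chkV1 P V lk 0x10001000100050001000000000000400040004000400040004000400040004000 (10 + j)) 5 = true := by decide +kernel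

theorem ck_1992_p3 : allN (fun j => chkV1 P V lk 0x10001000100050001000000000000400040004000400040004000400040004000 (15 + j)) 5 = true := by decide +kernel

theorem ck_1992_p4 : allN (fun j => chkV1 P V lk 0x10001000100050001000000000000400040004000400040004000400040004000 (20 + j)) 5 = true := by decide +kernel

theorem ck_1992_p5 : allN (fun j => chkV1 P V lk 0x10001000100050001000000000000400040004000400040004000400040004000 (25 + j)) 5 = true := by decide +kernel

theorem ck_1992_p6 : allN (fun j => chkV1 P V lk 0x10001000100050001000000000000400040004000400040004000400040004000 (30 + j)) 5 = true := by decide +kernel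

theorem ck_1992_p7 : allN (fun j => chkV1 P V lk 0x10001000100050001000000000000400040004000400040004000400040004000 (35 + j)) 5 = true := by decide +kernel

theorem ck_1992_p8 : allN (fun j => chkV1 P V lk 0x10001000100050001000000000000400040004000400040004000400040004000 (40 + j)) 5 = true := by decide +kernel

theorem ck_1992_p9 : allN (fun j => chkV1 P V lk 0x10001000100050001000000000000400040004000400040004000400040004000 (45 + j)) 5 = true := by decide +kernel

theorem ck_1992_p10 : allN (fun j => chkV1 P V lk 0x10001000100050001000000000000400040004000400040004000400040004000 (50 + j)) 5 = true := by decide +kernel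

theorem ck_1992_p11 : allN (fun j => chkV1 P V lk 0x10001000100050001000000000000400040004000400040004000400040004000 (55 + j)) 5 = true := by decide +kernel

theorem ck_1992_p12 : allN (fun j => chkV1 P V lk 0x10001000100050001000000000000400040004000400040004000400040004000 (60 + j)) 5 = true := by decide +kernel

theorem ck_1992_p13 : allN (fun j => chkV1 P V lk 0x10001000100050001000000000000400040004000400040004000400040004000 (65 + j)) 5 = true := by decide +kernel

theorem ck_1992_p14 : allN (fun j => chkV1 P V lk 0x10001000100050001000000000000400040004000400040004000400040004000 (70 + j)) 5 = true := by decide +kernel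

theorem ck_1992_p15 : allN (fun j => chkV1 P V lk 0x10001000100050001000000000000400040004000400040004000400040004000 (75 + j)) 5 = true := by decide +kernel

theorem ck_1992_p16 : allN (fun j => chkV1 P V lk 0x10001000100050001000000000000400040004000400040004000400040004000 (80 + j)) 5 = true := by decide +kernel

theorem ck_1992_p17 : allN (fun j => chkV1 P V lk 0x10001000100050001000000000000400040004000400040004000400040004000 (85 + j)) 5 = true := by decide +kernel

theorem ck_1992_p18 : allN (fun j => chkV1 P V lk 0x10001000100050001000000000000400040004000400040004000400040004000 (90 + j)) 5 = true := by decide +kernel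

theorem ck_1992_p19 : allN (fun j => chkV1 P V lk 0x10001000100050001000000000000400040004000400040004000400040004000 (95 + j)) 2 = true := by decide +kernel

end

theorem ck_1992 : (chkV P V lk) 0x10001000100050001000000000000400040004000400040004000400040004000 = true :=
  chkV_of (by decide +kernel) (rng_cons ck_1992_p0 rfl (rng_cons ck_1992_p1 rfl (rng_cons ck_1992_p2 rfl (rng_cons ck_1992_p3 rfl (rng_cons ck_1992_p4 rfl (rng_cons ck_1992_p5 rfl (rng_cons ck_1992_p6 rfl (rng_cons ck_1992_p7 rfl (rng_cons ck_1992_p8 rfl (rng_cons ck_1992_p9 rfl (rng_cons ck_1992_p10 rfl (rng_cons ck_1992_p11 rfl (rng_cons ck_1992_p12 rfl (rng_cons ck_1992_p13 rfl (rng_cons ck_1992_p14 rfl (rng_cons ck_1992_p15 rfl (rng_cons ck_1992_p16 rfl (rng_cons ck_1992_p17 rfl (rng_cons ck_1992_p18 rfl (rng_cons ck_1992_p19 rfl (rng_end (Nat.le_of_eq rfl))))))))))))))))))))))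

end MPbbea99G.E9
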