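import Pool.Agent.Lib.Pbbea99G.E9.Data
import Pool.Agent.Lib.Pbbea99G.Piece

/-!
# MP_bbea99_co: closure of the templates
-/

namespace MPbbea99G.E9

open MPbbea99S MPbbea99T MPbbea99G Finset

mutual

theorem ck_1962_p0 : allN (fun j => chkV1 P V lk 0x10000000100060001000200020000400040004000400040004000400040004000 (0 + j)) 12 = true := by decide +kernel

theorem ck_1962_p1 : allN (fun j => chkV1 P V lk 0x10000000100060001000200020000400040004000400040004000400040004000 (12 + j)) 12 = true := by decide +kernel

theorem ck_1962_p2 : allN (fun j => chkV1 P V lk 0x10000000100060001000200020000400040004000400040004000400040004000 (24 + j)) 12 = true := by decide +kernel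

theorem ck_1962_p3 : allN (fun j => chkV1 P V lk 0x10000000100060001000200020000400040004000400040004000400040004000 (36 + j)) 12 = true := by decide +kernel

theorem ck_1962_p4 : allN (fun j => chkV1 P V lk 0x10000000100060001000200020000400040004000400040004000400040004000 (48 + j)) 12 = true := by decide +kernel

theorem ck_1962_p5 : allN (fun j => chkV1 P V lk 0x10000000100060001000200020000400040004000400040004000400040004000 (60 + j)) 12 = true := by decide +kernel

theorem ck_1962_p6 : allN (fun j => chkV1 P V lk 0x10000000100060001000200020000400040004000400040004000400040004000 (72 + j)) 12 = true := by decide +kernel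

theorem ck_1962_p7 : allN (fun j => chkV1 P V lk 0x10000000100060001000200020000400040004000400040004000400040004000 (84 + j)) 12 = true := by decide +kernel

theorem ck_1962_p8 : allN (fun j => chkV1 P V lk 0x10000000100060001000200020000400040004000400040004000400040004000 (96 + j)) 1 = true := by decide +kernel

end

theorem ck_1962 : (chkV P V lk) 0x10000000100060001000200020000400040004000400040004000400040004000 = true :=
  chkV_of (by decide +kernel) (rng_cons ck_1962_p0 rfl (rng_cons ck_1962_p1 rfl (rng_cons ck_1962_p2 rfl (rng_cons ck_1962_p3 rfl (rng_cons ck_1962_p4 rfl (rng_cons ck_1962_p5 rfl (rng_cons ck_1962_p6 rfl (rng_cons ck_1962_p7 rfl (rng_cons ck_1962_p8 rfl (rng_end (Nat.le_of_eq rfl)))))))))))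

mutual

theorem ck_1947 : (chkV P V lk) 0x10000000000090002002d002d000240003fff40003fff40004000400140014000 = true := by decide +kernel

theorem ck_1758 : (chkV P V lk) 0x1000000000005000200200020000140003fff40003fff40004000400140014000 = true := by decide +kernel

theorem c_1524_1525 : allTr (chkV P V lk) tr_1524_1525 = true := by decide +kernel

theorem ck_1786 : (chkV P V lk) 0x1000000000006000200180018000140003fff40003fff40004000400140014000 = true := by decide +kernel

theorem ck_1807 : (chkV P V lk) 0x10000000000060002003d003d000140003fff40003fff40004000400140014000 = true := by decide +kernel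

theorem c_1606_1620 : allTr (chkV P V lk) tr_1606_1620 = true := by decide +kernel

theorem c_1851_1852 : allTr (chkV P V lk) tr_1851_1852 = true := by decide +kernel

theorem ck_1750 : (chkV P V lk) 0x1000000000005000200090009000140003fff40003fff40004000400140014000 = true := by decide +kernel

theorem c_904_934 : allTr (chkV P V lk) tr_904_934 = true := by decide +kernel

theorem ck_1020 : (chkV P V lk) 0x70001000f000700023fff400040003fff40004000400240004000 = true := by decide +kernel

theorem ck_1087 : (chkV P V lk) 0x70001003d0033000340013fff40003ffe3fff4000400140024000 = true := by decide +kernel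

theorem c_1299_1300 : allTr (chkV P V lk) tr_1299_1300 = true := by decide +kernel

theorem ck_518 : (chkV P V lk) 0x40001002d001f00043ffe3fff4001400140004000400040004001 = true := by decide +kernel

theorem ck_1036 : (chkV P V lk) 0x70001001500340005400140003ffe400040014001400040003fff = true := by decide +kernel

theorem ck_1624 : (chkV P V lk) 0x900020030003d000440003ffe3fff3fff40004001400240004001 = true := by decide +kernel

end

end MPbbea99G.E9
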