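import Pool.Agent.Lib.Pbbea99G.E9.Data
import Pool.Agent.Lib.Pbbea99G.Piece

/-!
# MP_bbea99_co: closure of the templates
-/

namespace MPbbea99G.E9

open MPbbea99S MPbbea99T MPbbea99G Finset

mutual

theorem ck_1961_p0 : allN (fun j => chkV1 P V lk 0x10000000100060001000100010000400040004000400040004000400040004000 (0 + j)) 12 = true := by decide +kernel

theorem ck_1961_p1 : allN (fun j => chkV1 P V lk 0x10000000100060001000100010000400040004000400040004000400040004000 (12 + j)) 12 = true := by decide +kernel

theorem ck_1961_p2 : allN (fun j => chkV1 P V lk 0x10000000100060001000100010000400040004000400040004000400040004000 (24 + j)) 12 = true := by decide +kernel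

theorem ck_1961_p3 : allN (fun j => chkV1 P V lk 0x10000000100060001000100010000400040004000400040004000400040004000 (36 + j)) 12 = true := by decide +kernel

theorem ck_1961_p4 : allN (fun j => chkV1 P V lk 0x10000000100060001000100010000400040004000400040004000400040004000 (48 + j)) 12 = true := by decide +kernel

theorem ck_1961_p5 : allN (fun j => chkV1 P V lk 0x10000000100060001000100010000400040004000400040004000400040004000 (60 + j)) 12 = true := by decide +kernel

theorem ck_1961_p6 : allN (fun j => chkV1 P V lk 0x10000000100060001000100010000400040004000400040004000400040004000 (72 + j)) 12 = true := by decide +kernel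

theorem ck_1961_p7 : allN (fun j => chkV1 P V lk 0x10000000100060001000100010000400040004000400040004000400040004000 (84 + j)) 12 = true := by decide +kernel

theorem ck_1961_p8 : allN (fun j => chkV1 P V lk 0x10000000100060001000100010000400040004000400040004000400040004000 (96 + j)) 1 = true := by decide +kernel

end

theorem ck_1961 : (chkV P V lk) 0x10000000100060001000100010000400040004000400040004000400040004000 = true :=
  chkV_of (by decide +kernel) (rng_cons ck_1961_p0 rfl (rng_cons ck_1961_p1 rfl (rng_cons ck_1961_p2 rfl (rng_cons ck_1961_p3 rfl (rng_cons ck_1961_p4 rfl (rng_cons ck_1961_p5 rfl (rng_cons ck_1961_p6 rfl (rng_cons ck_1961_p7 rfl (rng_cons ck_1961_p8 rfl (rng_end (Nat.le_of_eq rfl)))))))))))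

mutual

theorem ck_1873 : (chkV P V lk) 0x1000000000008000200140014000240003fff40003fff40004000400140014000 = true := by decide +kernel

theorem c_1839_1840 : allTr (chkV P V lk) tr_1839_1840 = true := by decide +kernel

theorem ck_1931 : (chkV P V lk) 0x1000000000009000200230023000240003fff40003fff40004000400140014000 = true := by decide +kernel

theorem c_1865_1866 : allTr (chkV P V lk) tr_1865_1866 = true := by decide +kernel

theorem c_644_647 : allTr (chkV P V lk) tr_644_647 = true := by decide +kernel

theorem ck_1681 : (chkV P V lk) 0x1000900000028001600003fff4000400140003fff4001400040004000 = true := by decide +kernel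

theorem ck_1838 : (chkV P V lk) 0x10000000000070002002a002a000140003fff40003fff40004000400140014000 = true := by decide +kernel

theorem c_640_643 : allTr (chkV P V lk) tr_640_643 = true := by decide +kernel

theorem ck_371 : (chkV P V lk) 0x300010006003e000540003ffe40013fff40004000400040014001 = true := by decide +kernel

theorem ck_826 : (chkV P V lk) 0x60001001d001b00023fff3fff40013fff3fff4001400140014000 = true := by decide +kernel

theorem c_1554_1555 : allTr (chkV P V lk) tr_1554_1555 = true := by decide +kernel

theorem ck_530 : (chkV P V lk) 0x400020000002300043fff3ffe3fff400040014001400140014000 = true := by decide +kernel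

theorem ck_592 : (chkV P V lk) 0x40002003e0027000440003ffe40013fff3fff4001400140004001 = true := by decide +kernel

theorem ck_1106 : (chkV P V lk) 0x70002000c003d000340003ffe3fff3fff40004001400240004001 = true := by decide +kernel

theorem ck_1698 : (chkV P V lk) 0x1000000000001001a00060006400040003fff3fff3fff4001400340003fff = true := by decide +kernel

end

end MPbbea99G.E9
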