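import Pool.Agent.Lib.Pbbea99G.E9.Data
import Pool.Agent.Lib.Pbbea99G.Piece

/-!
# MP_bbea99_co: closure of the templates
-/

namespace MPbbea99G.E9

open MPbbea99S MPbbea99T MPbbea99G Finset

mutual

theorem c_1991_1992_p0 : allN (fun j => chkV1 P V lk 0x1000100000001000200020002000240003fff40003fff40004000400140014000 (0 + j)) 9 = true := by decide +kernel

theorem c_1991_1992_p1 : allN (fun j => chkV1 P V lk 0x1000100000001000200020002000240003fff40003fff40004000400140014000 (9 + j)) 9 = true := by decide +kernel

theorem c_1991_1992_p2 : allN (fun j => chkV1 P V lk 0x1000100000001000200020002000240003fff40003fff40004000400140014000 (18 + j)) 9 = true := by decide +kernel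

theorem c_1991_1992_p3 : allN (fun j => chkV1 P V lk 0x1000100000001000200020002000240003fff40003fff40004000400140014000 (27 + j)) 9 = true := by decide +kernel

theorem c_1991_1992_p4 : allN (fun j => chkV1 P V lk 0x1000100000001000200020002000240003fff40003fff40004000400140014000 (36 + j)) 9 = true := by decide +kernel

theorem c_1991_1992_p5 : allN (fun j => chkV1 P V lk 0x1000100000001000200020002000240003fff40003fff40004000400140014000 (45 + j)) 9 = true := by decide +kernel

theorem c_1991_1992_p6 : allN (fun j => chkV1 P V lk 0x1000100000001000200020002000240003fff40003fff40004000400140014000 (54 + j)) 9 = true := by decide +kernel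

theorem c_1991_1992_p7 : allN (fun j => chkV1 P V lk 0x1000100000001000200020002000240003fff40003fff40004000400140014000 (63 + j)) 9 = true := by decide +kernel

theorem c_1991_1992_p8 : allN (fun j => chkV1 P V lk 0x1000100000001000200020002000240003fff40003fff40004000400140014000 (72 + j)) 9 = true := by decide +kernel

theorem c_1991_1992_p9 : allN (fun j => chkV1 P V lk 0x1000100000001000200020002000240003fff40003fff40004000400140014000 (81 + j)) 9 = true := by decide +kernel

theorem c_1991_1992_p10 : allN (fun j => chkV1 P V lk 0x1000100000001000200020002000240003fff40003fff40004000400140014000 (90 + j)) 7 = true := by decide +kernel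

end

theorem c_1991_1992 : allTr (chkV P V lk) tr_1991_1992 = true :=
  allTr_mk (chkV_of (by decide +kernel) (rng_cons c_1991_1992_p0 rfl (rng_cons c_1991_1992_p1 rfl (rng_cons c_1991_1992_p2 rfl (rng_cons c_1991_1992_p3 rfl (rng_cons c_1991_1992_p4 rfl (rng_cons c_1991_1992_p5 rfl (rng_cons c_1991_1992_p6 rfl (rng_cons c_1991_1992_p7 rfl (rng_cons c_1991_1992_p8 rfl (rng_cons c_1991_1992_p9 rfl (rng_cons c_1991_1992_p10 rfl (rng_end (Nat.le_of_eq rfl)))))))))))))) rfl rfl

mutual

theorem c_1567_1574 : allTr (chkV P V lk) tr_1567_1574 = true := by decide +kernel

theorem ck_1802 : (chkV P V lk) 0x1000000000006000200390039000140003fff40003fff40004000400140014000 = true := by decide +kernel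

theorem ck_1945 : (chkV P V lk) 0x10000000000090002002c002c000240003fff40003fff40004000400140014000 = true := by decide +kernel

theorem c_1761_1762 : allTr (chkV P V lk) tr_1761_1762 = true := by decide +kernel

theorem ck_1756 : (chkV P V lk) 0x10000000000050002001d001d000240003fff40003fff40004000400140014000 = true := by decide +kernel

theorem ck_1636 : (chkV P V lk) 0x100060000000400010000400140014000400040003fff400040003fff = true := by decide +kernel

theorem ck_1893 : (chkV P V lk) 0x1000000000008000200380038000140003fff40003fff40004000400140014000 = true := by decide +kernel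

theorem c_1787_1788 : allTr (chkV P V lk) tr_1787_1788 = true := by decide +kernel

theorem c_383_386 : allTr (chkV P V lk) tr_383_386 = true := by decide +kernel

theorem ck_382 : (chkV P V lk) 0x300010016000b00024000400040013ffe40004000400040014000 = true := by decide +kernel

theorem c_717_747 : allTr (chkV P V lk) tr_717_747 = true := by decide +kernel

theorem ck_853 : (chkV P V lk) 0x60001002a0035000140003ffe40013fff40004000400040014001 = true := by decide +kernel

theorem ck_1065 : (chkV P V lk) 0x700010035001f00013fff3fff4001400040003fff400140014000 = true := by decide +kernel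

theorem ck_1083 : (chkV P V lk) 0x70001003c0024000140003fff40003ffe40004001400240013fff = true := by decide +kernel

theorem ck_498 : (chkV P V lk) 0x40001001f001d00033fff3fff40023ffe40014001400040004000 = true := by decide +kernel

theorem ck_1589 : (chkV P V lk) 0x90002001f003200033fff3ffe40013fff40014001400140004000 = true := by decide +kernel

end

end MPbbea99G.E9
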