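import Pool.Agent.Lib.Pbbea99G.E9.Data
import Pool.Agent.Lib.Pbbea99G.Piece

/-!
# MP_bbea99_co: closure of the templates
-/

namespace MPbbea99G.E9

open MPbbea99S MPbbea99T MPbbea99G Finset

mutual

theorem c_1718_1719_p0 : allN (fun j => chkV1 P V lk 0x10000000100010005000200023fff3fff4001400040003fff400140014000 (0 + j)) 10 = true := by decide +kernel

theorem c_1718_1719_p1 : allN (fun j => chkV1 P V lk 0x10000000100010005000200023fff3fff4001400040003fff400140014000 (10 + j)) 10 = true := by decide +kernel

theorem c_1718_1719_p2 : allN (fun j => chkV1 P V lk 0x10000000100010005000200023fff3fff4001400040003fff400140014000 (20 + j)) 10 = true := by decide +kernel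

theorem c_1718_1719_p3 : allN (fun j => chkV1 P V lk 0x10000000100010005000200023fff3fff4001400040003fff400140014000 (30 + j)) 10 = true := by decide +kernel

theorem c_1718_1719_p4 : allN (fun j => chkV1 P V lk 0x10000000100010005000200023fff3fff4001400040003fff400140014000 (40 + j)) 10 = true := by decide +kernel

theorem c_1718_1719_p5 : allN (fun j => chkV1 P V lk 0x10000000100010005000200023fff3fff4001400040003fff400140014000 (50 + j)) 10 = true := by decide +kernel

theorem c_1718_1719_p6 : allN (fun j => chkV1 P V lk 0x10000000100010005000200023fff3fff4001400040003fff400140014000 (60 + j)) 10 = true := by decide +kernel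

theorem c_1718_1719_p7 : allN (fun j => chkV1 P V lk 0x10000000100010005000200023fff3fff4001400040003fff400140014000 (70 + j)) 10 = true := by decide +kernel

theorem c_1718_1719_p8 : allN (fun j => chkV1 P V lk 0x10000000100010005000200023fff3fff4001400040003fff400140014000 (80 + j)) 10 = true := by decide +kernel

theorem c_1718_1719_p9 : allN (fun j => chkV1 P V lk 0x10000000100010005000200023fff3fff4001400040003fff400140014000 (90 + j)) 7 = true := by decide +kernel

end

theorem c_1718_1719 : allTr (chkV P V lk) tr_1718_1719 = true :=
  allTr_mk (chkV_of (by decide +kernel) (rng_cons c_1718_1719_p0 rfl (rng_cons c_1718_1719_p1 rfl (rng_cons c_1718_1719_p2 rfl (rng_cons c_1718_1719_p3 rfl (rng_cons c_1718_1719_p4 rfl (rng_cons c_1718_1719_p5 rfl (rng_cons c_1718_1719_p6 rfl (rng_cons c_1718_1719_p7 rfl (rng_cons c_1718_1719_p8 rfl (rng_cons c_1718_1719_p9 rfl (rng_end (Nat.le_of_eq rfl))))))))))))) rfl rfl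

mutual

theorem c_1504_1507 : allTr (chkV P V lk) tr_1504_1507 = true := by decide +kernel

theorem ck_1891 : (chkV P V lk) 0x1000000000008000200350035000240003fff40003fff40004000400140014000 = true := by decide +kernel

theorem c_1318_1325 : allTr (chkV P V lk) tr_1318_1325 = true := by decide +kernel

theorem c_499_506 : allTr (chkV P V lk) tr_499_506 = true := by decide +kernel

theorem c_188_249 : allTr (chkV P V lk) tr_188_249 = true := by decide +kernel

theorem c_1652_1653 : allTr (chkV P V lk) tr_1652_1653 = true := by decide +kernel

theorem c_897_903 : allTr (chkV P V lk) tr_897_903 = true := by decide +kernel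

theorem ck_1858 : (chkV P V lk) 0x1000000000008000200040004000140003fff40003fff40004000400140014000 = true := by decide +kernel

theorem c_1563_1566 : allTr (chkV P V lk) tr_1563_1566 = true := by decide +kernel

theorem ck_1558 : (chkV P V lk) 0x90001003e0027000240013fff40013fff3fff4000400140004000 = true := by decide +kernel

theorem ck_1519 : (chkV P V lk) 0x900010031001d00014000400040013ffe40004000400040014000 = true := by decide +kernel

theorem ck_1056 : (chkV P V lk) 0x700010031001d00024000400040013ffe40004000400040014000 = true := by decide +kernel

theorem c_1479_1480 : allTr (chkV P V lk) tr_1479_1480 = true := by decide +kernel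

theorem ck_651 : (chkV P V lk) 0x500010019000d00013fff400040003fff40004000400240004000 = true := by decide +kernel

end

end MPbbea99G.E9
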