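import Pool.Agent.Lib.Pbbea99G.E9.Data
import Pool.Agent.Lib.Pbbea99G.Piece

/-!
# MP_bbea99_co: closure of the templates
-/

namespace MPbbea99G.E9

open MPbbea99S MPbbea99T MPbbea99G Finset

mutual

theorem ck_1964_p0 : allN (fun j => chkV1 P V lk 0x10000000100070001000400040000400040004000400040004000400040004000 (0 + j)) 49 = true := by decide +kernel

theorem ck_1964_p1 : allN (fun j => chkV1 P V lk 0x10000000100070001000400040000400040004000400040004000400040004000 (49 + j)) 48 = true := by decide +kernel

end

theorem ck_1964 : (chkV P V lk) 0x10000000100070001000400040000400040004000400040004000400040004000 = true :=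
  chkV_of (by decide +kernel) (rng_cons ck_1964_p0 rfl (rng_cons ck_1964_p1 rfl (rng_end (Nat.le_of_eq rfl))))

mutual

theorem ck_1854 : (chkV P V lk) 0x1000000000007000200460046000240003fff40003fff40004000400140014000 = true := by decide +kernel

theorem ck_1723 : (chkV P V lk) 0x1000000000002000200040004000140003fff40003fff40004000400140014000 = true := by decide +kernel

theorem ck_1796 : (chkV P V lk) 0x1000000000006000200350035000240003fff40003fff40004000400140014000 = true := by decide +kernel

theorem ck_1846 : (chkV P V lk) 0x1000000000007000200300030000140003fff40003fff40004000400140014000 = true := by decide +kernel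

theorem c_1742_1743 : allTr (chkV P V lk) tr_1742_1743 = true := by decide +kernel

theorem ck_1063 : (chkV P V lk) 0x700010034001f00013fff3fff4001400040003fff400140014000 = true := by decide +kernel

theorem ck_1877 : (chkV P V lk) 0x1000000000008000200180018000140003fff40003fff40004000400140014000 = true := by decide +kernel

theorem c_1678_1679 : allTr (chkV P V lk) tr_1678_1679 = true := by decide +kernel

theorem c_391_405 : allTr (chkV P V lk) tr_391_405 = true := by decide +kernel

theorem c_827_834 : allTr (chkV P V lk) tr_827_834 = true := by decide +kernel

theorem c_1861_1862 : allTr (chkV P V lk) tr_1861_1862 = true := by decide +kernel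

theorem ck_834 : (chkV P V lk) 0x600010022001200013fff400040003fff40004000400140023fff = true := by decide +kernel

theorem ck_865 : (chkV P V lk) 0x60001002e001a0002400040003fff3ffe40014000400140014000 = true := by decide +kernel

theorem ck_685 : (chkV P V lk) 0x50001003d0033000340013fff40003ffe3fff4000400140024000 = true := by decide +kernel

theorem c_1526_1527 : allTr (chkV P V lk) tr_1526_1527 = true := by decide +kernel

theorem ck_561 : (chkV P V lk) 0x400020019002a000640023fff40003ffe3fff4001400140004000 = true := by decide +kernel

theorem ck_1215 : (chkV P V lk) 0x80000004000170002400140003fff3fff3fff4002400040013fff = true := by decide +kernel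

theorem ck_62 : (chkV P V lk) 0x1001d001300473fff40003fff40003fff3fff400340004001 = true := by decide +kernel

end

end MPbbea99G.E9
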