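import Pool.Agent.Lib.Pbbea99G.E9.Data

/-!
# MP_bbea99_co: closure of the templates
-/

namespace MPbbea99G.E9

open MPbbea99S MPbbea99T MPbbea99G Finset

mutual

theorem c_1724_1725 : allTr (chkV P V lk) tr_1724_1725 = true := by decide +kernel

theorem ck_1748 : (chkV P V lk) 0x10000000000040002001b001b000240003fff40003fff40004000400140014000 = true := by decide +kernel

theorem ck_1883 : (chkV P V lk) 0x10000000000080002001b001b000240003fff40003fff40004000400140014000 = true := by decide +kernel

theorem c_1874_1875 : allTr (chkV P V lk) tr_1874_1875 = true := by decide +kernel

theorem c_1747_1748 : allTr (chkV P V lk) tr_1747_1748 = true := by decide +kernel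

theorem ck_1679 : (chkV P V lk) 0x10009000000260015000040013fff4000400140003fff400040004000 = true := by decide +kernel

theorem c_1765_1766 : allTr (chkV P V lk) tr_1765_1766 = true := by decide +kernel

theorem ck_1871 : (chkV P V lk) 0x1000000000008000200130013000240003fff40003fff40004000400140014000 = true := by decide +kernel

theorem c_1805_1806 : allTr (chkV P V lk) tr_1805_1806 = true := by decide +kernel

theorem c_1763_1764 : allTr (chkV P V lk) tr_1763_1764 = true := by decide +kernel

theorem ck_1675 : (chkV P V lk) 0x1000900000023001300003fff3fff4000400040014000400140004000 = true := by decide +kernel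

theorem ck_1651 : (chkV P V lk) 0x100080000001200090000400040003fff400040003fff400140014000 = true := by decide +kernel

theorem c_688_689 : allTr (chkV P V lk) tr_688_689 = true := by decide +kernel

theorem c_1699_1713 : allTr (chkV P V lk) tr_1699_1713 = true := by decide +kernel

theorem ck_1495 : (chkV P V lk) 0x900010014000a000140013fff3fff3fff40004000400040014001 = true := by decide +kernel

theorem c_1587_1588 : allTr (chkV P V lk) tr_1587_1588 = true := by decide +kernel

theorem ck_716 : (chkV P V lk) 0x50002001e000f00033fff3fff40003fff3fff4000400140014002 = true := by decide +kernel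

theorem ck_1402 : (chkV P V lk) 0x9000000070030000240003ffe40013ffe3fff3fff400340014001 = true := by decide +kernel

theorem ck_297 : (chkV P V lk) 0x20001002d0032000d4000400040013fff400240003fff3fff4000 = true := by decide +kernel

end

end MPbbea99G.E9
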