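import Pool.Agent.Lib.Pbbea99G.E9.Data
import Pool.Agent.Lib.Pbbea99G.Piece

/-!
# MP_bbea99_co: closure of the templates
-/

namespace MPbbea99G.E9

open MPbbea99S MPbbea99T MPbbea99G Finset

mutual

theorem ck_1721_p0 : allN (fun j => chkV1 P V lk 0x10001000500000002000000004000400140004001400040003fff3fff4000 (0 + j)) 33 = true := by decide +kernel

theorem ck_1721_p1 : allN (fun j => chkV1 P V lk 0x10001000500000002000000004000400140004001400040003fff3fff4000 (33 + j)) 33 = true := by decide +kernel

theorem ck_1721_p2 : allN (fun j => chkV1 P V lk 0x10001000500000002000000004000400140004001400040003fff3fff4000 (66 + j)) 31 = true := by decide +kernel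

end

theorem ck_1721 : (chkV P V lk) 0x10001000500000002000000004000400140004001400040003fff3fff4000 = true :=
  chkV_of (by decide +kernel) (rng_cons ck_1721_p0 rfl (rng_cons ck_1721_p1 rfl (rng_cons ck_1721_p2 rfl (rng_end (Nat.le_of_eq rfl)))))

mutual

theorem ck_1661 : (chkV P V lk) 0x100080000001b000e000040003fff400040014000400140003fff4000 = true := by decide +kernel

theorem c_1884_1885 : allTr (chkV P V lk) tr_1884_1885 = true := by decide +kernel

theorem c_659_662 : allTr (chkV P V lk) tr_659_662 = true := by decide +kernel

theorem c_1773_1774 : allTr (chkV P V lk) tr_1773_1774 = true := by decide +kernel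

theorem c_1826_1827 : allTr (chkV P V lk) tr_1826_1827 = true := by decide +kernel

theorem c_1934_1935 : allTr (chkV P V lk) tr_1934_1935 = true := by decide +kernel

theorem c_1403_1433 : allTr (chkV P V lk) tr_1403_1433 = true := by decide +kernel

theorem c_889_896 : allTr (chkV P V lk) tr_889_896 = true := by decide +kernel

theorem ck_1829 : (chkV P V lk) 0x1000000000007000200240024000140003fff40003fff40004000400140014000 = true := by decide +kernel

theorem ck_1912 : (chkV P V lk) 0x10000000000090002000a000a000140003fff40003fff40004000400140014000 = true := by decide +kernel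

theorem c_372_374 : allTr (chkV P V lk) tr_372_374 = true := by decide +kernel

theorem c_250_281 : allTr (chkV P V lk) tr_250_281 = true := by decide +kernel

theorem c_811_818 : allTr (chkV P V lk) tr_811_818 = true := by decide +kernel

theorem c_1170_1184 : allTr (chkV P V lk) tr_1170_1184 = true := by decide +kernel

theorem ck_1547 : (chkV P V lk) 0x90001003c0024000140003fff40003ffe40004001400240013fff = true := by decide +kernel

theorem ck_1223 : (chkV P V lk) 0x8000100020027000640023ffe40013ffe3fff4001400040004001 = true := by decide +kernel

theorem ck_1713 : (chkV P V lk) 0x1000000010000000c000200023fff3fff4002400040013fff400140003fff = true := by decide +kernel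

end

end MPbbea99G.E9
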