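import Pool.Agent.Lib.Pbbea99G.E9.Data
import Pool.Agent.Lib.Pbbea99G.Piece

/-!
# MP_bbea99_co: closure of the templates
-/

namespace MPbbea99G.E9

open MPbbea99S MPbbea99T MPbbea99G Finset

mutual

theorem ck_1990_p0 : allN (fun j => chkV1 P V lk 0x1000100000001000200010001000140003fff40003fff40004000400140014000 (0 + j)) 33 = true := by decide +kernel

theorem ck_1990_p1 : allN (fun j => chkV1 P V lk 0x1000100000001000200010001000140003fff40003fff40004000400140014000 (33 + j)) 33 = true := by decide +kernel

theorem ck_1990_p2 : allN (fun j => chkV1 P V lk 0x1000100000001000200010001000140003fff40003fff40004000400140014000 (66 + j)) 31 = true := by decide +kernel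

end

theorem ck_1990 : (chkV P V lk) 0x1000100000001000200010001000140003fff40003fff40004000400140014000 = true :=
  chkV_of (by decide +kernel) (rng_cons ck_1990_p0 rfl (rng_cons ck_1990_p1 rfl (rng_cons ck_1990_p2 rfl (rng_end (Nat.le_of_eq rfl)))))

mutual

theorem ck_1727 : (chkV P V lk) 0x1000000000003000200080008000140003fff40003fff40004000400140014000 = true := by decide +kernel

theorem c_1950_1951 : allTr (chkV P V lk) tr_1950_1951 = true := by decide +kernel

theorem ck_1906 : (chkV P V lk) 0x1000000000008000200410041000240003fff40003fff40004000400140014000 = true := by decide +kernel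

theorem c_0_62 : allTr (chkV P V lk) tr_0_62 = true := by decide +kernel

theorem ck_1474 : (chkV P V lk) 0x90001000600000005400040004000400040004000400040004000 = true := by decide +kernel

theorem ck_1831 : (chkV P V lk) 0x1000000000007000200250025000140003fff40003fff40004000400140014000 = true := by decide +kernel

theorem ck_1655 : (chkV P V lk) 0x1000800000015000a0000400140003fff4000400040003fff40004001 = true := by decide +kernel

theorem c_379_382 : allTr (chkV P V lk) tr_379_382 = true := by decide +kernel

theorem ck_1798 : (chkV P V lk) 0x1000000000006000200370037000140003fff40003fff40004000400140014000 = true := by decide +kernel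

theorem ck_1941 : (chkV P V lk) 0x10000000000090002002a002a000140003fff40003fff40004000400140014000 = true := by decide +kernel

theorem ck_818 : (chkV P V lk) 0x60001000b001200013fff400040003fff40004000400140023fff = true := by decide +kernel

theorem ck_1492 : (chkV P V lk) 0x9000100130009000240003fff3fff3fff40003fff400240024000 = true := by decide +kernel

theorem ck_1114 : (chkV P V lk) 0x70002001f0007000e400040003fff3ffe40004001400240004000 = true := by decide +kernel

theorem c_1224_1225 : allTr (chkV P V lk) tr_1224_1225 = true := by decide +kernel

theorem c_1060_1061 : allTr (chkV P V lk) tr_1060_1061 = true := by decide +kernel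

theorem ck_491 : (chkV P V lk) 0x40001000e0002000540003fff400040003fff4000400240013fff = true := by decide +kernel

theorem ck_934 : (chkV P V lk) 0x600020033004200033fff3ffe3fff3fff40004000400240024001 = true := by decide +kernel

theorem ck_1574 : (chkV P V lk) 0x900020007003f000540013fff40003ffd40004000400240014000 = true := by decide +kernel

end

end MPbbea99G.E9
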