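import Pool.Agent.Lib.Pbbea99G.E9.Data
import Pool.Agent.Lib.Pbbea99G.Piece

/-!
# MP_bbea99_co: closure of the templates
-/

namespace MPbbea99G.E9

open MPbbea99S MPbbea99T MPbbea99G Finset

mutual

theorem c_1965_1966_p0 : allN (fun j => chkV1 P V lk 0x10000000100070001000500050000400040004000400040004000400040004000 (0 + j)) 49 = true := by decide +kernel

theorem c_1965_1966_p1 : allN (fun j => chkV1 P V lk 0x10000000100070001000500050000400040004000400040004000400040004000 (49 + j)) 48 = true := by decide +kernel

end

theorem c_1965_1966 : allTr (chkV P V lk) tr_1965_1966 = true :=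
  allTr_mk (chkV_of (by decide +kernel) (rng_cons c_1965_1966_p0 rfl (rng_cons c_1965_1966_p1 rfl (rng_end (Nat.le_of_eq rfl))))) rfl rfl

mutual

theorem c_1647_1648 : allTr (chkV P V lk) tr_1647_1648 = true := by decide +kernel

theorem c_866_872 : allTr (chkV P V lk) tr_866_872 = true := by decide +kernel

theorem c_1812_1813 : allTr (chkV P V lk) tr_1812_1813 = true := by decide +kernel

theorem c_648_651 : allTr (chkV P V lk) tr_648_651 = true := by decide +kernel

theorem c_1942_1943 : allTr (chkV P V lk) tr_1942_1943 = true := by decide +kernel

theorem ck_1669 : (chkV P V lk) 0x100090000001d001b00003fff4000400140003fff4001400040004000 = true := by decide +kernel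

theorem c_1781_1782 : allTr (chkV P V lk) tr_1781_1782 = true := by decide +kernel

theorem ck_1899 : (chkV P V lk) 0x10000000000080002003c003c000140003fff40003fff40004000400140014000 = true := by decide +kernel

theorem c_1932_1933 : allTr (chkV P V lk) tr_1932_1933 = true := by decide +kernel

theorem c_1088_1090 : allTr (chkV P V lk) tr_1088_1090 = true := by decide +kernel

theorem c_1291_1294 : allTr (chkV P V lk) tr_1291_1294 = true := by decide +kernel

theorem c_966_996 : allTr (chkV P V lk) tr_966_996 = true := by decide +kernel

theorem ck_495 : (chkV P V lk) 0x40001001d001b00023fff3fff40013fff3fff4001400140014000 = true := by decide +kernel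

theorem c_780_795 : allTr (chkV P V lk) tr_780_795 = true := by decide +kernel

theorem ck_1325 : (chkV P V lk) 0x800020000002300043fff3ffe3fff400040014001400140014000 = true := by decide +kernel

theorem ck_658 : (chkV P V lk) 0x50001001c0036000640023ffe3fff3fff40004003400040003fff = true := by decide +kernel

theorem ck_1306 : (chkV P V lk) 0x80001002f001e000340013ffe3fff3ffe3fff4001400040024002 = true := by decide +kernel

theorem ck_124 : (chkV P V lk) 0x2000d00140005400140003fff3ffe3fff4000400140014001 = true := by decide +kernel

end

end MPbbea99G.E9
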