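import Pool.Agent.Lib.Pbbea99G.E9.Data
import Pool.Agent.Lib.Pbbea99G.Piece

/-!
# MP_bbea99_co: closure of the templates
-/

namespace MPbbea99G.E9

open MPbbea99S MPbbea99T MPbbea99G Finset

mutual

theorem ck_1966_p0 : allN (fun j => chkV1 P V lk 0x10000000100070001000600060000400040004000400040004000400040004000 (0 + j)) 17 = true := by decide +kernel

theorem ck_1966_p1 : allN (fun j => chkV1 P V lk 0x10000000100070001000600060000400040004000400040004000400040004000 (17 + j)) 17 = true := by decide +kernel

theorem ck_1966_p2 : allN (fun j => chkV1 P V lk 0x10000000100070001000600060000400040004000400040004000400040004000 (34 + j)) 17 = true := by decide +kernel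

theorem ck_1966_p3 : allN (fun j => chkV1 P V lk 0x10000000100070001000600060000400040004000400040004000400040004000 (51 + j)) 17 = true := by decide +kernel

theorem ck_1966_p4 : allN (fun j => chkV1 P V lk 0x10000000100070001000600060000400040004000400040004000400040004000 (68 + j)) 17 = true := by decide +kernel

theorem ck_1966_p5 : allN (fun j => chkV1 P V lk 0x10000000100070001000600060000400040004000400040004000400040004000 (85 + j)) 12 = true := by decide +kernel

end

theorem ck_1966 : (chkV P V lk) 0x10000000100070001000600060000400040004000400040004000400040004000 = true :=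
  chkV_of (by decide +kernel) (rng_cons ck_1966_p0 rfl (rng_cons ck_1966_p1 rfl (rng_cons ck_1966_p2 rfl (rng_cons ck_1966_p3 rfl (rng_cons ck_1966_p4 rfl (rng_cons ck_1966_p5 rfl (rng_end (Nat.le_of_eq rfl))))))))

mutual

theorem ck_1811 : (chkV P V lk) 0x1000000000006000200400040000240003fff40003fff40004000400140014000 = true := by decide +kernel

theorem c_1791_1792 : allTr (chkV P V lk) tr_1791_1792 = true := by decide +kernel

theorem c_1687_1688 : allTr (chkV P V lk) tr_1687_1688 = true := by decide +kernel

theorem c_1057_1059 : allTr (chkV P V lk) tr_1057_1059 = true := by decide +kernel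

theorem c_1771_1772 : allTr (chkV P V lk) tr_1771_1772 = true := by decide +kernel

theorem c_1185_1215 : allTr (chkV P V lk) tr_1185_1215 = true := by decide +kernel

theorem c_1736_1737 : allTr (chkV P V lk) tr_1736_1737 = true := by decide +kernel

theorem c_1676_1677 : allTr (chkV P V lk) tr_1676_1677 = true := by decide +kernel

theorem ck_1673 : (chkV P V lk) 0x1000900000021001900004000400040013fff40003fff400140004000 = true := by decide +kernel

theorem c_1013_1016 : allTr (chkV P V lk) tr_1013_1016 = true := by decide +kernel

theorem c_1295_1298 : allTr (chkV P V lk) tr_1295_1298 = true := by decide +kernel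

theorem c_663_670 : allTr (chkV P V lk) tr_663_670 = true := by decide +kernel

theorem c_523_530 : allTr (chkV P V lk) tr_523_530 = true := by decide +kernel

theorem c_298_312 : allTr (chkV P V lk) tr_298_312 = true := by decide +kernel

theorem c_1467_1468 : allTr (chkV P V lk) tr_1467_1468 = true := by decide +kernel

theorem ck_674 : (chkV P V lk) 0x50001003a00120006400040003fff3fff3fff4001400040033fff = true := by decide +kernel

theorem ck_1356 : (chkV P V lk) 0x80002001a0032000c40003fff3fff3ffe40014002400040014000 = true := by decide +kernel

theorem c_290_291 : allTr (chkV P V lk) tr_290_291 = true := by decide +kernel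

end

end MPbbea99G.E9
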