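import Pool.Agent.Lib.Pbbea99G.E9.Data
import Pool.Agent.Lib.Pbbea99G.Piece

/-!
# MP_bbea99_co: closure of the templates
-/

namespace MPbbea99G.E9

open MPbbea99S MPbbea99T MPbbea99G Finset

mutual

theorem c_1963_1964_p0 : allN (fun j => chkV1 P V lk 0x10000000100070001000300030000400040004000400040004000400040004000 (0 + j)) 49 = true := by decide +kernel

theorem c_1963_1964_p1 : allN (fun j => chkV1 P V lk 0x10000000100070001000300030000400040004000400040004000400040004000 (49 + j)) 48 = true := by decide +kernel

end

theorem c_1963_1964 : allTr (chkV P V lk) tr_1963_1964 = true :=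
  allTr_mk (chkV_of (by decide +kernel) (rng_cons c_1963_1964_p0 rfl (rng_cons c_1963_1964_p1 rfl (rng_end (Nat.le_of_eq rfl))))) rfl rfl

mutual

theorem ck_1650 : (chkV P V lk) 0x1000800000011000800003fff400040004000400140013fff40004000 = true := by decide +kernel

theorem c_1263_1270 : allTr (chkV P V lk) tr_1263_1270 = true := by decide +kernel

theorem c_1915_1916 : allTr (chkV P V lk) tr_1915_1916 = true := by decide +kernel

theorem c_1629_1636 : allTr (chkV P V lk) tr_1629_1636 = true := by decide +kernel

theorem c_1740_1741 : allTr (chkV P V lk) tr_1740_1741 = true := by decide +kernel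

theorem c_1658_1659 : allTr (chkV P V lk) tr_1658_1659 = true := by decide +kernel

theorem c_1481_1488 : allTr (chkV P V lk) tr_1481_1488 = true := by decide +kernel

theorem ck_1653 : (chkV P V lk) 0x1000800000014000a0000400140003fff4000400040003fff40004001 = true := by decide +kernel

theorem c_1958_1959 : allTr (chkV P V lk) tr_1958_1959 = true := by decide +kernel

theorem ck_1953 : (chkV P V lk) 0x1000000000009000200420042000140003fff40003fff40004000400140014000 = true := by decide +kernel

theorem c_1469_1472 : allTr (chkV P V lk) tr_1469_1472 = true := by decide +kernel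

theorem c_1084_1087 : allTr (chkV P V lk) tr_1084_1087 = true := by decide +kernel

theorem c_1475_1476 : allTr (chkV P V lk) tr_1475_1476 = true := by decide +kernel

theorem ck_378 : (chkV P V lk) 0x300010014000a000140013fff3fff3fff40004000400040014001 = true := by decide +kernel

theorem ck_810 : (chkV P V lk) 0x600010008003c000240003ffe3fff3fff40004001400140024000 = true := by decide +kernel

theorem ck_1225 : (chkV P V lk) 0x800010002003e000140003ffe40013fff40004000400040014001 = true := by decide +kernel

theorem ck_996 : (chkV P V lk) 0x70000002c004700013fff3fff40003ffe40013fff400040034001 = true := by decide +kernel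

end

end MPbbea99G.E9
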