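import Pool.Agent.Lib.Pbbea99G.E9.Data
import Pool.Agent.Lib.Pbbea99G.Piece

/-!
# MP_bbea99_co: closure of the templates
-/

namespace MPbbea99G.E9

open MPbbea99S MPbbea99T MPbbea99G Finset

mutual

theorem c_1973_1974_p0 : allN (fun j => chkV1 P V lk 0x10000000100080001000d000d0000400040004000400040004000400040004000 (0 + j)) 49 = true := by decide +kernel

theorem c_1973_1974_p1 : allN (fun j => chkV1 P V lk 0x10000000100080001000d000d0000400040004000400040004000400040004000 (49 + j)) 48 = true := by decide +kernel

end

theorem c_1973_1974 : allTr (chkV P V lk) tr_1973_1974 = true :=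
  allTr_mk (chkV_of (by decide +kernel) (rng_cons c_1973_1974_p0 rfl (rng_cons c_1973_1974_p1 rfl (rng_end (Nat.le_of_eq rfl))))) rfl rfl

mutual

theorem ck_1588 : (chkV P V lk) 0x90002001f0029000e40013ffe3fff3fff40004002400140004000 = true := by decide +kernel

theorem c_1921_1922 : allTr (chkV P V lk) tr_1921_1922 = true := by decide +kernel

theorem ck_1926 : (chkV P V lk) 0x1000000000009000200200020000240003fff40003fff40004000400140014000 = true := by decide +kernel

theorem c_1496_1499 : allTr (chkV P V lk) tr_1496_1499 = true := by decide +kernel

theorem c_1045_1052 : allTr (chkV P V lk) tr_1045_1052 = true := by decide +kernel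

theorem c_492_495 : allTr (chkV P V lk) tr_492_495 = true := by decide +kernel

theorem ck_1951 : (chkV P V lk) 0x10000000000090002002f002f000240003fff40003fff40004000400140014000 = true := by decide +kernel

theorem ck_1657 : (chkV P V lk) 0x1000800000017000c000040013fff40003fff40014000400040004000 = true := by decide +kernel

theorem c_1853_1854 : allTr (chkV P V lk) tr_1853_1854 = true := by decide +kernel

theorem ck_1848 : (chkV P V lk) 0x1000000000007000200420042000140003fff40003fff40004000400140014000 = true := by decide +kernel

theorem ck_1825 : (chkV P V lk) 0x10000000000070002001f001f000140003fff40003fff40004000400140014000 = true := by decide +kernel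

theorem c_375_378 : allTr (chkV P V lk) tr_375_378 = true := by decide +kernel

theorem c_1314_1315 : allTr (chkV P V lk) tr_1314_1315 = true := by decide +kernel

theorem c_344_359 : allTr (chkV P V lk) tr_344_359 = true := by decide +kernel

theorem ck_506 : (chkV P V lk) 0x400010024001300013fff3ffe40003fff40014000400240014000 = true := by decide +kernel

theorem ck_1562 : (chkV P V lk) 0x9000100400030000240003ffe40003fff3fff4000400240014001 = true := by decide +kernel

theorem ck_249 : (chkV P V lk) 0x100020025003b000540013fff3fff3ffe40014000400040024000 = true := by decide +kernel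

end

end MPbbea99G.E9
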