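import Pool.Agent.Lib.Pbbea99G.E9.Data
import Pool.Agent.Lib.Pbbea99G.Piece

/-!
# MP_bbea99_co: closure of the templates
-/

namespace MPbbea99G.E9

open MPbbea99S MPbbea99T MPbbea99G Finset

mutual

theorem ck_1719_p0 : allN (fun j => chkV1 P V lk 0x10000000100010006000200023fff3fff4001400040003fff400140014000 (0 + j)) 33 = true := by decide +kernel

theorem ck_1719_p1 : allN (fun j => chkV1 P V lk 0x10000000100010006000200023fff3fff4001400040003fff400140014000 (33 + j)) 33 = true := by decide +kernel

theorem ck_1719_p2 : allN (fun j => chkV1 P V lk 0x10000000100010006000200023fff3fff4001400040003fff400140014000 (66 + j)) 31 = true := by decide +kernel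

end

theorem ck_1719 : (chkV P V lk) 0x10000000100010006000200023fff3fff4001400040003fff400140014000 = true :=
  chkV_of (by decide +kernel) (rng_cons ck_1719_p0 rfl (rng_cons ck_1719_p1 rfl (rng_cons ck_1719_p2 rfl (rng_end (Nat.le_of_eq rfl)))))

mutual

theorem ck_1638 : (chkV P V lk) 0x1000600000006000200003fff40004001400140003fff400040004000 = true := by decide +kernel

theorem c_1080_1083 : allTr (chkV P V lk) tr_1080_1083 = true := by decide +kernel

theorem c_1799_1800 : allTr (chkV P V lk) tr_1799_1800 = true := by decide +kernel

theorem c_292_293 : allTr (chkV P V lk) tr_292_293 = true := by decide +kernel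

theorem c_1689_1690 : allTr (chkV P V lk) tr_1689_1690 = true := by decide +kernel

theorem ck_1744 : (chkV P V lk) 0x1000000000004000200170017000240003fff40003fff40004000400140014000 = true := by decide +kernel

theorem c_1845_1846 : allTr (chkV P V lk) tr_1845_1846 = true := by decide +kernel

theorem c_1685_1686 : allTr (chkV P V lk) tr_1685_1686 = true := by decide +kernel

theorem c_531_561 : allTr (chkV P V lk) tr_531_561 = true := by decide +kernel

theorem ck_1885 : (chkV P V lk) 0x1000000000008000200310031000140003fff40003fff40004000400140014000 = true := by decide +kernel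

theorem c_1925_1926 : allTr (chkV P V lk) tr_1925_1926 = true := by decide +kernel

theorem ck_1235 : (chkV P V lk) 0x80001000a0004000140013fff40003ffe3fff4000400140024000 = true := by decide +kernel

theorem c_507_510 : allTr (chkV P V lk) tr_507_510 = true := by decide +kernel

theorem ck_386 : (chkV P V lk) 0x300010019000d00023fff400040003fff40004000400240004000 = true := by decide +kernel

theorem ck_1557 : (chkV P V lk) 0x90001003e0027000140013fff40013fff3fff4000400140004000 = true := by decide +kernel

theorem c_294_297 : allTr (chkV P V lk) tr_294_297 = true := by decide +kernel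

theorem ck_1153 : (chkV P V lk) 0x7000200440041000640003ffe3fff3ffe40014001400240014000 = true := by decide +kernel

theorem ck_1715 : (chkV P V lk) 0x1000000010000000e000200023fff3fff400140013fff3fff400240013fff = true := by decide +kernel

end

end MPbbea99G.E9
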