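import Pool.Agent.Lib.Pbbea99G.E9.Data
import Pool.Agent.Lib.Pbbea99G.Piece

/-!
# MP_bbea99_co: closure of the templates
-/

namespace MPbbea99G.E9

open MPbbea99S MPbbea99T MPbbea99G Finset

mutual

theorem ck_1725_p0 : allN (fun j => chkV1 P V lk 0x1000000000002000200060006000240003fff40003fff40004000400140014000 (0 + j)) 49 = true := by decide +kernel

theorem ck_1725_p1 : allN (fun j => chkV1 P V lk 0x1000000000002000200060006000240003fff40003fff40004000400140014000 (49 + j)) 48 = true := by decide +kernel

end

theorem ck_1725 : (chkV P V lk) 0x1000000000002000200060006000240003fff40003fff40004000400140014000 = true :=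
  chkV_of (by decide +kernel) (rng_cons ck_1725_p0 rfl (rng_cons ck_1725_p1 rfl (rng_end (Nat.le_of_eq rfl))))

mutual

theorem c_1301_1302 : allTr (chkV P V lk) tr_1301_1302 = true := by decide +kernel

theorem c_1536_1543 : allTr (chkV P V lk) tr_1536_1543 = true := by decide +kernel

theorem c_488_491 : allTr (chkV P V lk) tr_488_491 = true := by decide +kernel

theorem c_1516_1519 : allTr (chkV P V lk) tr_1516_1519 = true := by decide +kernel

theorem ck_1949 : (chkV P V lk) 0x10000000000090002002e002e000240003fff40003fff40004000400140014000 = true := by decide +kernel

theorem ck_1918 : (chkV P V lk) 0x10000000000090002000d000d000140003fff40003fff40004000400140014000 = true := by decide +kernel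

theorem c_1775_1776 : allTr (chkV P V lk) tr_1775_1776 = true := by decide +kernel

theorem c_1656_1657 : allTr (chkV P V lk) tr_1656_1657 = true := by decide +kernel

theorem c_1903_1904 : allTr (chkV P V lk) tr_1903_1904 = true := by decide +kernel

theorem ck_1792 : (chkV P V lk) 0x1000000000006000200310031000140003fff40003fff40004000400140014000 = true := by decide +kernel

theorem c_1228_1231 : allTr (chkV P V lk) tr_1228_1231 = true := by decide +kernel

theorem c_1508_1511 : allTr (chkV P V lk) tr_1508_1511 = true := by decide +kernel

theorem c_1053_1056 : allTr (chkV P V lk) tr_1053_1056 = true := by decide +kernel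

theorem c_1341_1356 : allTr (chkV P V lk) tr_1341_1356 = true := by decide +kernel

theorem ck_374 : (chkV P V lk) 0x300010011000800013fff3fff40003fff40014001400040014000 = true := by decide +kernel

theorem ck_1067 : (chkV P V lk) 0x700010035002500023fff3fff40003ffe40004000400140024001 = true := by decide +kernel

end

end MPbbea99G.E9
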