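import Pool.Agent.Lib.Pbbea99G.E9.Data
import Pool.Agent.Lib.Pbbea99G.Piece

/-!
# MP_bbea99_co: closure of the templates
-/

namespace MPbbea99G.E9

open MPbbea99S MPbbea99T MPbbea99G Finset

mutual

theorem c_1971_1972_p0 : allN (fun j => chkV1 P V lk 0x10000000100080001000b000b0000400040004000400040004000400040004000 (0 + j)) 49 = true := by decide +kernel

theorem c_1971_1972_p1 : allN (fun j => chkV1 P V lk 0x10000000100080001000b000b0000400040004000400040004000400040004000 (49 + j)) 48 = true := by decide +kernel

end

theorem c_1971_1972 : allTr (chkV P V lk) tr_1971_1972 = true :=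
  allTr_mk (chkV_of (by decide +kernel) (rng_cons c_1971_1972_p0 rfl (rng_cons c_1971_1972_p1 rfl (rng_end (Nat.le_of_eq rfl))))) rfl rfl

mutual

theorem c_1660_1661 : allTr (chkV P V lk) tr_1660_1661 = true := by decide +kernel

theorem ck_1821 : (chkV P V lk) 0x10000000000070002000c000c000240003fff40003fff40004000400140014000 = true := by decide +kernel

theorem ck_1741 : (chkV P V lk) 0x1000000000004000200140014000240003fff40003fff40004000400140014000 = true := by decide +kernel

theorem c_881_888 : allTr (chkV P V lk) tr_881_888 = true := by decide +kernel

theorem ck_1844 : (chkV P V lk) 0x10000000000070002002e002e000240003fff40003fff40004000400140014000 = true := by decide +kernel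

theorem c_1822_1823 : allTr (chkV P V lk) tr_1822_1823 = true := by decide +kernel

theorem c_1878_1879 : allTr (chkV P V lk) tr_1878_1879 = true := by decide +kernel

theorem c_1946_1947 : allTr (chkV P V lk) tr_1946_1947 = true := by decide +kernel

theorem c_1546_1547 : allTr (chkV P V lk) tr_1546_1547 = true := by decide +kernel

theorem c_1767_1768 : allTr (chkV P V lk) tr_1767_1768 = true := by decide +kernel

theorem c_1303_1306 : allTr (chkV P V lk) tr_1303_1306 = true := by decide +kernel

theorem c_1544_1545 : allTr (chkV P V lk) tr_1544_1545 = true := by decide +kernel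

theorem ck_1032 : (chkV P V lk) 0x700010013002e000240003fff40003fff40013fff400140004001 = true := by decide +kernel

theorem c_1240_1243 : allTr (chkV P V lk) tr_1240_1243 = true := by decide +kernel

theorem ck_1515 : (chkV P V lk) 0x90001001b000e000240003ffe4000400040004001400140004000 = true := by decide +kernel

theorem ck_1620 : (chkV P V lk) 0x90002002f0033000340003ffe40003ffe3fff4001400140024001 = true := by decide +kernel

end

end MPbbea99G.E9
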