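import Pool.Agent.Lib.Pbbea99G.E9.Data
import Pool.Agent.Lib.Pbbea99G.Piece

/-!
# MP_bbea99_co: closure of the templates
-/

namespace MPbbea99G.E9

open MPbbea99S MPbbea99T MPbbea99G Finset

mutual

theorem ck_1968_p0 : allN (fun j => chkV1 P V lk 0x10000000100080001000800080000400040004000400040004000400040004000 (0 + j)) 49 = true := by decide +kernel

theorem ck_1968_p1 : allN (fun j => chkV1 P V lk 0x10000000100080001000800080000400040004000400040004000400040004000 (49 + j)) 48 = true := by decide +kernel

end

theorem ck_1968 : (chkV P V lk) 0x10000000100080001000800080000400040004000400040004000400040004000 = true :=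
  chkV_of (by decide +kernel) (rng_cons ck_1968_p0 rfl (rng_cons ck_1968_p1 rfl (rng_end (Nat.le_of_eq rfl))))

mutual

theorem ck_1746 : (chkV P V lk) 0x1000000000004000200190019000240003fff40003fff40004000400140014000 = true := by decide +kernel

theorem c_1528_1535 : allTr (chkV P V lk) tr_1528_1535 = true := by decide +kernel

theorem c_1929_1930 : allTr (chkV P V lk) tr_1929_1930 = true := by decide +kernel

theorem ck_1766 : (chkV P V lk) 0x1000000000005000200250025000240003fff40003fff40004000400140014000 = true := by decide +kernel

theorem c_511_514 : allTr (chkV P V lk) tr_511_514 = true := by decide +kernel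

theorem c_1956_1957 : allTr (chkV P V lk) tr_1956_1957 = true := by decide +kernel

theorem ck_1852 : (chkV P V lk) 0x1000000000007000200440044000240003fff40003fff40004000400140014000 = true := by decide +kernel

theorem c_1905_1906 : allTr (chkV P V lk) tr_1905_1906 = true := by decide +kernel

theorem ck_1784 : (chkV P V lk) 0x1000000000006000200170017000140003fff40003fff40004000400140014000 = true := by decide +kernel

theorem ck_1833 : (chkV P V lk) 0x1000000000007000200260026000140003fff40003fff40004000400140014000 = true := by decide +kernel

theorem c_1316_1317 : allTr (chkV P V lk) tr_1316_1317 = true := by decide +kernel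

theorem c_1489_1492 : allTr (chkV P V lk) tr_1489_1492 = true := by decide +kernel

theorem ck_1545 : (chkV P V lk) 0x90001003b0023000240003fff3fff400040014000400140013fff = true := by decide +kernel

theorem ck_1250 : (chkV P V lk) 0x80001001e000f00024000400040003fff3fff3fff400140014001 = true := by decide +kernel

theorem ck_872 : (chkV P V lk) 0x600010030003d000240013fff3fff3fff40004000400240004000 = true := by decide +kernel

theorem ck_1231 : (chkV P V lk) 0x8000100090004000240013fff40003ffe3fff4000400140024000 = true := by decide +kernel

end

end MPbbea99G.E9
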