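import Pool.Agent.Lib.Pbbea99G.E9.Data

/-!
# MP_bbea99_co: closure of the templates
-/

namespace MPbbea99G.E9

open MPbbea99S MPbbea99T MPbbea99G Finset

mutual

theorem c_1226_1227 : allTr (chkV P V lk) tr_1226_1227 = true := by decide +kernel

theorem c_1749_1750 : allTr (chkV P V lk) tr_1749_1750 = true := by decide +kernel

theorem c_1834_1835 : allTr (chkV P V lk) tr_1834_1835 = true := by decide +kernel

theorem c_1029_1032 : allTr (chkV P V lk) tr_1029_1032 = true := by decide +kernel

theorem c_1832_1833 : allTr (chkV P V lk) tr_1832_1833 = true := by decide +kernel

theorem ck_1817 : (chkV P V lk) 0x1000000000007000200080008000240003fff40003fff40004000400140014000 = true := by decide +kernel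

theorem ck_1553 : (chkV P V lk) 0x90001003d002f00014001400040003fff40003fff400140013fff = true := by decide +kernel

theorem c_1836_1837 : allTr (chkV P V lk) tr_1836_1837 = true := by decide +kernel

theorem c_1814_1815 : allTr (chkV P V lk) tr_1814_1815 = true := by decide +kernel

theorem c_679_685 : allTr (chkV P V lk) tr_679_685 = true := by decide +kernel

theorem c_1857_1858 : allTr (chkV P V lk) tr_1857_1858 = true := by decide +kernel

theorem ck_1677 : (chkV P V lk) 0x1000900000024001b00003fff4000400140003fff4001400040004000 = true := by decide +kernel

theorem ck_1511 : (chkV P V lk) 0x90001001a000d00013fff400040003fff40004000400240004000 = true := by decide +kernel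

theorem c_437_467 : allTr (chkV P V lk) tr_437_467 = true := by decide +kernel

theorem ck_289 : (chkV P V lk) 0x20001000c0005000240003fff40013fff40014000400140003fff = true := by decide +kernel

theorem ck_487 : (chkV P V lk) 0x40001000c0005000140003fff40013fff40014000400140003fff = true := by decide +kernel

theorem ck_1121 : (chkV P V lk) 0x700020022001c000640003fff3ffe3fff40004001400140014001 = true := by decide +kernel

theorem ck_701 : (chkV P V lk) 0x50002000a002c000a3fff3ffd40013fff40004001400140024000 = true := by decide +kernel

theorem ck_1340 : (chkV P V lk) 0x8000200120009000640013fff3ffe3ffe40004000400240024000 = true := by decide +kernel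

theorem ck_293 : (chkV P V lk) 0x2000100200007001b3fff400240003fff40003fff400140004000 = true := by decide +kernel

end

end MPbbea99G.E9
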