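import Pool.Agent.Lib.Pbbea99G.E9.Data

/-!
# MP_bbea99_co: closure of the templates
-/

namespace MPbbea99G.E9

open MPbbea99S MPbbea99T MPbbea99G Finset

mutual

theorem ck_1974 : (chkV P V lk) 0x10000000100080001000e000e0000400040004000400040004000400040004000 = true := by decide +kernel

theorem ck_1682 : (chkV P V lk) 0x1000900000029001600003fff4000400140003fff4001400040004000 = true := by decide +kernel

theorem c_1216_1223 : allTr (chkV P V lk) tr_1216_1223 = true := by decide +kernel

theorem c_1664_1665 : allTr (chkV P V lk) tr_1664_1665 = true := by decide +kernel

theorem ck_1935 : (chkV P V lk) 0x1000000000009000200250025000240003fff40003fff40004000400140014000 = true := by decide +kernel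

theorem ck_1943 : (chkV P V lk) 0x10000000000090002002b002b000240003fff40003fff40004000400140014000 = true := by decide +kernel

theorem c_1753_1754 : allTr (chkV P V lk) tr_1753_1754 = true := by decide +kernel

theorem ck_1939 : (chkV P V lk) 0x1000000000009000200280028000140003fff40003fff40004000400140014000 = true := by decide +kernel

theorem c_1907_1908 : allTr (chkV P V lk) tr_1907_1908 = true := by decide +kernel

theorem c_1789_1790 : allTr (chkV P V lk) tr_1789_1790 = true := by decide +kernel

theorem ck_1768 : (chkV P V lk) 0x1000000000005000200270027000140003fff40003fff40004000400140014000 = true := by decide +kernel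

theorem ck_291 : (chkV P V lk) 0x20001000d0006000240003fff400040003fff4000400240013fff = true := by decide +kernel

theorem ck_654 : (chkV P V lk) 0x50001001a000d00013fff400040003fff40004000400240004000 = true := by decide +kernel

theorem c_313_343 : allTr (chkV P V lk) tr_313_343 = true := by decide +kernel

theorem ck_1315 : (chkV P V lk) 0x800010042004100023fff3ffe40003fff40014000400240014000 = true := by decide +kernel

theorem ck_436 : (chkV P V lk) 0x30002002f0042000a3fff3ffe3fff3fff40004000400240024001 = true := by decide +kernel

theorem c_1583_1586 : allTr (chkV P V lk) tr_1583_1586 = true := by decide +kernel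

theorem ck_1028 : (chkV P V lk) 0x700010012001100033fff3fff3fff3ffe3fff4003400140004002 = true := by decide +kernel

theorem ck_1628 : (chkV P V lk) 0x9000200430032000640013fff40003ffe40014001400140003fff = true := by decide +kernel

end

end MPbbea99G.E9
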