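import Pool.Agent.Lib.Pbbea99G.E9.Data

/-!
# MP_bbea99_co: closure of the templates
-/

namespace MPbbea99G.E9

open MPbbea99S MPbbea99T MPbbea99G Finset

mutual

theorem ck_1908 : (chkV P V lk) 0x1000000000009000200020002000240003fff40003fff40004000400140014000 = true := by decide +kernel

theorem c_1465_1466 : allTr (chkV P V lk) tr_1465_1466 = true := by decide +kernel

theorem c_1917_1918 : allTr (chkV P V lk) tr_1917_1918 = true := by decide +kernel

theorem c_1670_1671 : allTr (chkV P V lk) tr_1670_1671 = true := by decide +kernel

theorem ck_1770 : (chkV P V lk) 0x1000000000005000200290029000240003fff40003fff40004000400140014000 = true := by decide +kernel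

theorem ck_1774 : (chkV P V lk) 0x10000000000050002002e002e000240003fff40003fff40004000400140014000 = true := by decide +kernel

theorem ck_1850 : (chkV P V lk) 0x1000000000007000200430043000240003fff40003fff40004000400140014000 = true := by decide +kernel

theorem ck_1957 : (chkV P V lk) 0x1000000000009000200440044000240003fff40003fff40004000400140014000 = true := by decide +kernel

theorem ck_1671 : (chkV P V lk) 0x1000900000020001100004000400040003fff4000400140003fff4001 = true := by decide +kernel

theorem c_484_487 : allTr (chkV P V lk) tr_484_487 = true := by decide +kernel

theorem ck_1937 : (chkV P V lk) 0x1000000000009000200270027000140003fff40003fff40004000400140014000 = true := by decide +kernel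

theorem c_1674_1675 : allTr (chkV P V lk) tr_1674_1675 = true := by decide +kernel

theorem ck_639 : (chkV P V lk) 0x50001001200200001400040003fff3fff3fff4001400140014000 = true := by decide +kernel

theorem c_157_187 : allTr (chkV P V lk) tr_157_187 = true := by decide +kernel

theorem ck_1317 : (chkV P V lk) 0x8000100430040000140003fff40003ffe40004001400140004001 = true := by decide +kernel

theorem ck_1016 : (chkV P V lk) 0x700010004002c000240003ffe40013fff40004000400140023fff = true := by decide +kernel

theorem ck_643 : (chkV P V lk) 0x5000100130038000540003fff3ffe3fff40014000400140004002 = true := by decide +kernel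

theorem ck_1286 : (chkV P V lk) 0x80001002a000c000440013ffd40003ffe40014002400040014000 = true := by decide +kernel

theorem ck_187 : (chkV P V lk) 0x2002b0036003c4001400140013fff400040013fff40013ffd = true := by decide +kernel

end

end MPbbea99G.E9
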