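import Pool.Agent.Lib.Pbbea99G.E9.Data
import Pool.Agent.Lib.Pbbea99G.Piece

/-!
# MP_bbea99_co: closure of the templates
-/

namespace MPbbea99G.E9

open MPbbea99S MPbbea99T MPbbea99G Finset

mutual

theorem c_1720_1721_p0 : allN (fun j => chkV1 P V lk 0x10001000500000001000000004000400140004001400040003fff3fff4000 (0 + j)) 49 = true := by decide +kernel

theorem c_1720_1721_p1 : allN (fun j => chkV1 P V lk 0x10001000500000001000000004000400140004001400040003fff3fff4000 (49 + j)) 48 = true := by decide +kernel

end

theorem c_1720_1721 : allTr (chkV P V lk) tr_1720_1721 = true :=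
  allTr_mk (chkV_of (by decide +kernel) (rng_cons c_1720_1721_p0 rfl (rng_cons c_1720_1721_p1 rfl (rng_end (Nat.le_of_eq rfl))))) rfl rfl

mutual

theorem ck_1527 : (chkV P V lk) 0x9000100350029000e40003ffe4000400040004001400140004000 = true := by decide +kernel

theorem c_632_639 : allTr (chkV P V lk) tr_632_639 = true := by decide +kernel

theorem ck_1642 : (chkV P V lk) 0x100070000000a000400004001400040003fff3fff4000400040014000 = true := by decide +kernel

theorem c_1645_1646 : allTr (chkV P V lk) tr_1645_1646 = true := by decide +kernel

theorem c_1952_1953 : allTr (chkV P V lk) tr_1952_1953 = true := by decide +kernel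

theorem c_1795_1796 : allTr (chkV P V lk) tr_1795_1796 = true := by decide +kernel

theorem ck_1371 : (chkV P V lk) 0x800020034001f000640003fff40003fff40004000400140014000 = true := by decide +kernel

theorem c_1668_1669 : allTr (chkV P V lk) tr_1668_1669 = true := by decide +kernel

theorem c_1960_1961 : allTr (chkV P V lk) tr_1960_1961 = true := by decide +kernel

theorem c_1757_1758 : allTr (chkV P V lk) tr_1757_1758 = true := by decide +kernel

theorem c_1793_1794 : allTr (chkV P V lk) tr_1793_1794 = true := by decide +kernel

theorem ck_285 : (chkV P V lk) 0x20001000a0004000140013fff40003ffe3fff4000400140024000 = true := by decide +kernel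

theorem c_1326_1340 : allTr (chkV P V lk) tr_1326_1340 = true := by decide +kernel

theorem ck_1300 : (chkV P V lk) 0x80001002d001f0006400040004000400040004000400040004000 = true := by decide +kernel

theorem c_694_701 : allTr (chkV P V lk) tr_694_701 = true := by decide +kernel

theorem ck_1262 : (chkV P V lk) 0x8000100210019000140003fff40013ffe40003fff400240014000 = true := by decide +kernel

end

end MPbbea99G.E9
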