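import Pool.Agent.Lib.Pbbea99G.E9.Data

/-!
# MP_bbea99_co: closure of the templates
-/

namespace MPbbea99G.E9

open MPbbea99S MPbbea99T MPbbea99G Finset

mutual

theorem c_1969_1970 : allTr (chkV P V lk) tr_1969_1970 = true := by decide +kernel

theorem ck_1933 : (chkV P V lk) 0x1000000000009000200240024000240003fff40003fff40004000400140014000 = true := by decide +kernel

theorem c_1033_1036 : allTr (chkV P V lk) tr_1033_1036 = true := by decide +kernel

theorem ck_1686 : (chkV P V lk) 0x100090000002d00180000400040004000400040013fff3fff40014000 = true := by decide +kernel

theorem ck_1900 : (chkV P V lk) 0x10000000000080002003d003d000240003fff40003fff40004000400140014000 = true := by decide +kernel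

theorem ck_1813 : (chkV P V lk) 0x1000000000007000200010001000240003fff40003fff40004000400140014000 = true := by decide +kernel

theorem c_1779_1780 : allTr (chkV P V lk) tr_1779_1780 = true := by decide +kernel

theorem ck_1864 : (chkV P V lk) 0x10000000000080002000f000f000240003fff40003fff40004000400140014000 = true := by decide +kernel

theorem c_1863_1864 : allTr (chkV P V lk) tr_1863_1864 = true := by decide +kernel

theorem c_1307_1309 : allTr (chkV P V lk) tr_1307_1309 = true := by decide +kernel

theorem ck_1254 : (chkV P V lk) 0x80001001f0016000e40003ffe40003fff3fff4003400140004000 = true := by decide +kernel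

theorem c_1882_1883 : allTr (chkV P V lk) tr_1882_1883 = true := by decide +kernel

theorem ck_283 : (chkV P V lk) 0x20001000800030001400040003fff3ffe40014000400140014000 = true := by decide +kernel

theorem c_368_371 : allTr (chkV P V lk) tr_368_371 = true := by decide +kernel

theorem c_1154_1169 : allTr (chkV P V lk) tr_1154_1169 = true := by decide +kernel

theorem ck_845 : (chkV P V lk) 0x600010026003c000140003ffe3fff3fff40004001400140024000 = true := by decide +kernel

theorem ck_1566 : (chkV P V lk) 0x90002000100000006400140003fff3fff40004001400040004000 = true := by decide +kernel

theorem ck_467 : (chkV P V lk) 0x40000003600110001400040003fff3ffe3fff4002400140004001 = true := by decide +kernel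

theorem ck_1012 : (chkV P V lk) 0x70001000000310006400040013ffe3ffe3fff4002400140023fff = true := by decide +kernel

theorem ck_1622 : (chkV P V lk) 0x90002002f0033000540023fff3fff3ffd3fff4001400140024000 = true := by decide +kernel

end

end MPbbea99G.E9
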