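import Pool.Agent.Lib.Pbbea99G.E9.Data

/-!
# MP_bbea99_co: closure of the templates
-/

namespace MPbbea99G.E9

open MPbbea99S MPbbea99T MPbbea99G Finset

mutual

theorem ck_1970 : (chkV P V lk) 0x10000000100080001000a000a0000400040004000400040004000400040004000 = true := by decide +kernel

theorem ck_1764 : (chkV P V lk) 0x1000000000005000200240024000240003fff40003fff40004000400140014000 = true := by decide +kernel

theorem ck_1169 : (chkV P V lk) 0x800000006003e00023fff3ffe4002400040003fff400040014001 = true := by decide +kernel

theorem ck_1889 : (chkV P V lk) 0x1000000000008000200340034000140003fff40003fff40004000400140014000 = true := by decide +kernel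

theorem c_1372_1402 : allTr (chkV P V lk) tr_1372_1402 = true := by decide +kernel

theorem ck_1790 : (chkV P V lk) 0x10000000000060002001a001a000240003fff40003fff40004000400140014000 = true := by decide +kernel

theorem ck_1902 : (chkV P V lk) 0x10000000000080002003e003e000240003fff40003fff40004000400140014000 = true := by decide +kernel

theorem c_1816_1817 : allTr (chkV P V lk) tr_1816_1817 = true := by decide +kernel

theorem ck_1782 : (chkV P V lk) 0x1000000000006000200140014000140003fff40003fff40004000400140014000 = true := by decide +kernel

theorem c_1512_1515 : allTr (chkV P V lk) tr_1512_1515 = true := by decide +kernel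

theorem ck_1840 : (chkV P V lk) 0x10000000000070002002b002b000140003fff40003fff40004000400140014000 = true := by decide +kernel

theorem ck_1684 : (chkV P V lk) 0x100090000002c00180000400040004000400040013fff3fff40014000 = true := by decide +kernel

theorem c_1520_1523 : allTr (chkV P V lk) tr_1520_1523 = true := by decide +kernel

theorem ck_1472 : (chkV P V lk) 0x900010005000800013fff3fff40003fff40014001400040014000 = true := by decide +kernel

theorem ck_880 : (chkV P V lk) 0x6000100440035000140003ffe40013fff40004000400040014001 = true := by decide +kernel

theorem ck_1555 : (chkV P V lk) 0x90001003d0033000340013fff40003ffe3fff4000400140024000 = true := by decide +kernel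

theorem ck_623 : (chkV P V lk) 0x50000002e000d00023fff40013fff3ffe40014000400240004000 = true := by decide +kernel

theorem ck_1468 : (chkV P V lk) 0x90001000000310006400040013ffe3ffe3fff4002400140023fff = true := by decide +kernel

end

end MPbbea99G.E9
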