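import Pool.Agent.Lib.Pbbea99G.E9.Data

/-!
# MP_bbea99_co: closure of the templates
-/

namespace MPbbea99G.E9

open MPbbea99S MPbbea99T MPbbea99G Finset

mutual

theorem c_1967_1968 : allTr (chkV P V lk) tr_1967_1968 = true := by decide +kernel

theorem c_1830_1831 : allTr (chkV P V lk) tr_1830_1831 = true := by decide +kernel

theorem ck_1959 : (chkV P V lk) 0x1000000000009000200460046000240003fff40003fff40004000400140014000 = true := by decide +kernel

theorem c_1062_1063 : allTr (chkV P V lk) tr_1062_1063 = true := by decide +kernel

theorem c_1938_1939 : allTr (chkV P V lk) tr_1938_1939 = true := by decide +kernel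

theorem ck_1819 : (chkV P V lk) 0x10000000000070002000a000a000240003fff40003fff40004000400140014000 = true := by decide +kernel

theorem c_63_124 : allTr (chkV P V lk) tr_63_124 = true := by decide +kernel

theorem ck_1904 : (chkV P V lk) 0x10000000000080002003f003f000240003fff40003fff40004000400140014000 = true := by decide +kernel

theorem c_1801_1802 : allTr (chkV P V lk) tr_1801_1802 = true := by decide +kernel

theorem ck_1922 : (chkV P V lk) 0x10000000000090002001d001d000140003fff40003fff40004000400140014000 = true := by decide +kernel

theorem c_1025_1028 : allTr (chkV P V lk) tr_1025_1028 = true := by decide +kernel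

theorem c_1896_1897 : allTr (chkV P V lk) tr_1896_1897 = true := by decide +kernel

theorem c_1068_1075 : allTr (chkV P V lk) tr_1068_1075 = true := by decide +kernel

theorem ck_1052 : (chkV P V lk) 0x70001001b002c000240003ffe40013fff40004000400140023fff = true := by decide +kernel

theorem ck_1290 : (chkV P V lk) 0x80001002b0017000240013fff40003fff40004001400040013fff = true := by decide +kernel

theorem ck_1551 : (chkV P V lk) 0x90001003d0024000140003fff40003ffe40004001400240013fff = true := by decide +kernel

theorem c_1066_1067 : allTr (chkV P V lk) tr_1066_1067 = true := by decide +kernel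

theorem ck_483 : (chkV P V lk) 0x40001000a002c000440003ffd40013ffe3fff4001400140034000 = true := by decide +kernel

theorem ck_747 : (chkV P V lk) 0x50002002e0038000540003fff3ffe3fff40004001400140014001 = true := by decide +kernel

theorem ck_1605 : (chkV P V lk) 0x9000200290038000640003fff3ffe3fff40004001400140014001 = true := by decide +kernel

end

end MPbbea99G.E9
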