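import Pool.Agent.Lib.Pbbea99G.E9.Data

/-!
# MP_bbea99_co: closure of the templates
-/

namespace MPbbea99G.E9

open MPbbea99S MPbbea99T MPbbea99G Finset

mutual

theorem ck_1972 : (chkV P V lk) 0x10000000100080001000c000c0000400040004000400040004000400040004000 = true := by decide +kernel

theorem c_1556_1557 : allTr (chkV P V lk) tr_1556_1557 = true := by decide +kernel

theorem c_1880_1881 : allTr (chkV P V lk) tr_1880_1881 = true := by decide +kernel

theorem c_1867_1868 : allTr (chkV P V lk) tr_1867_1868 = true := by decide +kernel

theorem c_1672_1673 : allTr (chkV P V lk) tr_1672_1673 = true := by decide +kernel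

theorem ck_1806 : (chkV P V lk) 0x10000000000060002003c003c000240003fff40003fff40004000400140014000 = true := by decide +kernel

theorem ck_1760 : (chkV P V lk) 0x1000000000005000200210021000240003fff40003fff40004000400140014000 = true := by decide +kernel

theorem ck_1794 : (chkV P V lk) 0x1000000000006000200320032000240003fff40003fff40004000400140014000 = true := by decide +kernel

theorem c_1872_1873 : allTr (chkV P V lk) tr_1872_1873 = true := by decide +kernel

theorem c_1021_1024 : allTr (chkV P V lk) tr_1021_1024 = true := by decide +kernel

theorem c_1936_1937 : allTr (chkV P V lk) tr_1936_1937 = true := by decide +kernel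

theorem c_842_845 : allTr (chkV P V lk) tr_842_845 = true := by decide +kernel

theorem c_1122_1153 : allTr (chkV P V lk) tr_1122_1153 = true := by decide +kernel

theorem c_1310_1313 : allTr (chkV P V lk) tr_1310_1313 = true := by decide +kernel

theorem ck_1302 : (chkV P V lk) 0x80001002e001a0002400040003fff3ffe40014000400140014000 = true := by decide +kernel

theorem c_624_631 : allTr (chkV P V lk) tr_624_631 = true := by decide +kernel

theorem c_1714_1715 : allTr (chkV P V lk) tr_1714_1715 = true := by decide +kernel

theorem ck_779 : (chkV P V lk) 0x600000019001400013fff400140003fff3fff3fff400240004001 = true := by decide +kernel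

theorem ck_1464 : (chkV P V lk) 0x9000000470027000240013ffe40023fff3fff4000400040004001 = true := by decide +kernel

end

end MPbbea99G.E9
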