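import Pool.Agent.Lib.Pbbea99G.E9.Data

/-!
# MP_bbea99_co: closure of the templates
-/

namespace MPbbea99G.E9

open MPbbea99S MPbbea99T MPbbea99G Finset

mutual

theorem c_1975_1976 : allTr (chkV P V lk) tr_1975_1976 = true := by decide +kernel

theorem ck_1733 : (chkV P V lk) 0x10000000000030002000e000e000240003fff40003fff40004000400140014000 = true := by decide +kernel

theorem ck_1646 : (chkV P V lk) 0x100070000000e0006000040004000400040013fff4000400140003fff = true := by decide +kernel

theorem c_1091_1106 : allTr (chkV P V lk) tr_1091_1106 = true := by decide +kernel

theorem ck_1856 : (chkV P V lk) 0x1000000000008000200000000000140003fff40003fff40004000400140014000 = true := by decide +kernel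

theorem ck_1881 : (chkV P V lk) 0x10000000000080002001a001a000240003fff40003fff40004000400140014000 = true := by decide +kernel

theorem ck_1928 : (chkV P V lk) 0x1000000000009000200210021000240003fff40003fff40004000400140014000 = true := by decide +kernel

theorem ck_1887 : (chkV P V lk) 0x1000000000008000200320032000240003fff40003fff40004000400140014000 = true := by decide +kernel

theorem c_655_658 : allTr (chkV P V lk) tr_655_658 = true := by decide +kernel

theorem c_1247_1250 : allTr (chkV P V lk) tr_1247_1250 = true := by decide +kernel

theorem ck_1729 : (chkV P V lk) 0x10000000000030002000a000a000140003fff40003fff40004000400140014000 = true := by decide +kernel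

theorem c_671_674 : allTr (chkV P V lk) tr_671_674 = true := by decide +kernel

theorem ck_516 : (chkV P V lk) 0x40001002c0019000240003fff40013ffe40003fff400240014000 = true := by decide +kernel

theorem c_519_522 : allTr (chkV P V lk) tr_519_522 = true := by decide +kernel

theorem c_515_516 : allTr (chkV P V lk) tr_515_516 = true := by decide +kernel

theorem c_1107_1114 : allTr (chkV P V lk) tr_1107_1114 = true := by decide +kernel

theorem ck_367 : (chkV P V lk) 0x30000002f000d00023fff40013fff3ffe40014000400240004000 = true := by decide +kernel

theorem ck_861 : (chkV P V lk) 0x60001002d001f00043ffe3fff4001400140004000400040004001 = true := by decide +kernel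

theorem ck_1433 : (chkV P V lk) 0x9000000250028000140003ffe40013fff40013fff400040033fff = true := by decide +kernel

end

end MPbbea99G.E9
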