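import Pool.Agent.Lib.Pbbea99G.E9.Data

/-!
# MP_bbea99_co: closure of the templates
-/

namespace MPbbea99G.E9

open MPbbea99S MPbbea99T MPbbea99G Finset

mutual

theorem ck_1984 : (chkV P V lk) 0x10000000100090001001700170000400040004000400040004000400040004000 = true := by decide +kernel

theorem ck_1644 : (chkV P V lk) 0x100070000000c0005000040004000400140004001400040003fff3fff = true := by decide +kernel

theorem c_1666_1667 : allTr (chkV P V lk) tr_1666_1667 = true := by decide +kernel

theorem c_1927_1928 : allTr (chkV P V lk) tr_1927_1928 = true := by decide +kernel

theorem c_1769_1770 : allTr (chkV P V lk) tr_1769_1770 = true := by decide +kernel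

theorem c_562_592 : allTr (chkV P V lk) tr_562_592 = true := by decide +kernel

theorem ck_1665 : (chkV P V lk) 0x100090000000b001200003fff40014000400040004000400040013fff = true := by decide +kernel

theorem ck_1910 : (chkV P V lk) 0x1000000000009000200080008000140003fff40003fff40004000400140014000 = true := by decide +kernel

theorem ck_1914 : (chkV P V lk) 0x10000000000090002000b000b000140003fff40003fff40004000400140014000 = true := by decide +kernel

theorem c_1898_1899 : allTr (chkV P V lk) tr_1898_1899 = true := by decide +kernel

theorem ck_390 : (chkV P V lk) 0x30001001c000e000240003ffe4000400040004001400140004000 = true := by decide +kernel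

theorem ck_1243 : (chkV P V lk) 0x80001000d001400024000400040003fff3fff3fff400140014001 = true := by decide +kernel

theorem c_1641_1642 : allTr (chkV P V lk) tr_1641_1642 = true := by decide +kernel

theorem ck_1239 : (chkV P V lk) 0x80001000b001200023fff400040003fff40004000400140023fff = true := by decide +kernel

theorem c_1076_1079 : allTr (chkV P V lk) tr_1076_1079 = true := by decide +kernel

theorem ck_849 : (chkV P V lk) 0x600010029003800013fff3fff3fff400040004000400140014001 = true := by decide +kernel

theorem ck_343 : (chkV P V lk) 0x20002003f0030000640013ffe3fff3ffe3fff4001400240014001 = true := by decide +kernel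

theorem ck_896 : (chkV P V lk) 0x600020005000800033ffe3ffe40003fff40014002400040014001 = true := by decide +kernel

theorem ck_1543 : (chkV P V lk) 0x90001003a0035000440003ffd40023fff3fff4001400040004002 = true := by decide +kernel

end

end MPbbea99G.E9
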