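import Pool.Agent.Lib.Pbbea99G.E9.Data

/-!
# MP_bbea99_co: closure of the templates
-/

namespace MPbbea99G.E9

open MPbbea99S MPbbea99T MPbbea99G Finset

mutual

theorem ck_1986 : (chkV P V lk) 0x10000000100090001001900190000400040004000400040004000400040004000 = true := by decide +kernel

theorem ck_1640 : (chkV P V lk) 0x100070000000800030000400040013fff3fff40014000400040004000 = true := by decide +kernel

theorem c_1637_1638 : allTr (chkV P V lk) tr_1637_1638 = true := by decide +kernel

theorem c_1759_1760 : allTr (chkV P V lk) tr_1759_1760 = true := by decide +kernel

theorem ck_1688 : (chkV P V lk) 0x100090000002f001a0000400040013fff3fff40014000400040004000 = true := by decide +kernel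

theorem c_1287_1290 : allTr (chkV P V lk) tr_1287_1290 = true := by decide +kernel

theorem c_1236_1239 : allTr (chkV P V lk) tr_1236_1239 = true := by decide +kernel

theorem ck_1920 : (chkV P V lk) 0x10000000000090002000e000e000140003fff40003fff40004000400140014000 = true := by decide +kernel

theorem c_1820_1821 : allTr (chkV P V lk) tr_1820_1821 = true := by decide +kernel

theorem c_1803_1804 : allTr (chkV P V lk) tr_1803_1804 = true := by decide +kernel

theorem c_686_687 : allTr (chkV P V lk) tr_686_687 = true := by decide +kernel

theorem c_1728_1729 : allTr (chkV P V lk) tr_1728_1729 = true := by decide +kernel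

theorem c_387_390 : allTr (chkV P V lk) tr_387_390 = true := by decide +kernel

theorem ck_1059 : (chkV P V lk) 0x700010032001d00024000400040013ffe40004000400040014000 = true := by decide +kernel

theorem c_1255_1262 : allTr (chkV P V lk) tr_1255_1262 = true := by decide +kernel

theorem c_1357_1364 : allTr (chkV P V lk) tr_1357_1364 = true := by decide +kernel

theorem ck_888 : (chkV P V lk) 0x6000200030000000a3fff4000400040014001400040003fff4000 = true := by decide +kernel

theorem ck_841 : (chkV P V lk) 0x6000100250023000540013fff3ffe3fff40024000400040023fff = true := by decide +kernel

theorem ck_1499 : (chkV P V lk) 0x9000100150010001c400040013fff400040013fff400040013fff = true := by decide +kernel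

end

end MPbbea99G.E9
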