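import Pool.Agent.Lib.Pbbea99G.E9.Data

/-!
# MP_bbea99_co: closure of the templates
-/

namespace MPbbea99G.E9

open MPbbea99S MPbbea99T MPbbea99G Finset

mutual

theorem c_1987_1988 : allTr (chkV P V lk) tr_1987_1988 = true := by decide +kernel

theorem c_1639_1640 : allTr (chkV P V lk) tr_1639_1640 = true := by decide +kernel

theorem ck_1788 : (chkV P V lk) 0x1000000000006000200190019000240003fff40003fff40004000400140014000 = true := by decide +kernel

theorem ck_1827 : (chkV P V lk) 0x1000000000007000200210021000140003fff40003fff40004000400140014000 = true := by decide +kernel

theorem c_1037_1044 : allTr (chkV P V lk) tr_1037_1044 = true := by decide +kernel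

theorem c_1913_1914 : allTr (chkV P V lk) tr_1913_1914 = true := by decide +kernel

theorem c_1849_1850 : allTr (chkV P V lk) tr_1849_1850 = true := by decide +kernel

theorem c_1810_1811 : allTr (chkV P V lk) tr_1810_1811 = true := by decide +kernel

theorem c_1683_1684 : allTr (chkV P V lk) tr_1683_1684 = true := by decide +kernel

theorem c_1755_1756 : allTr (chkV P V lk) tr_1755_1756 = true := by decide +kernel

theorem ck_1762 : (chkV P V lk) 0x1000000000005000200230023000140003fff40003fff40004000400140014000 = true := by decide +kernel

theorem ck_1778 : (chkV P V lk) 0x1000000000006000200110011000140003fff40003fff40004000400140014000 = true := by decide +kernel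

theorem c_1500_1503 : allTr (chkV P V lk) tr_1500_1503 = true := by decide +kernel

theorem c_850_853 : allTr (chkV P V lk) tr_850_853 = true := by decide +kernel

theorem ck_1488 : (chkV P V lk) 0x900010011001e000240013fff3fff3fff40004000400040014001 = true := by decide +kernel

theorem ck_1270 : (chkV P V lk) 0x800010024001300013fff3ffe40003fff40014000400240014000 = true := by decide +kernel

theorem ck_1227 : (chkV P V lk) 0x8000100070037000840013fff3fff3fff40004000400240004000 = true := by decide +kernel

end

end MPbbea99G.E9
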