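import Pool.Agent.Lib.Pbbea99G.E9.Data

/-!
# MP_bbea99_co: closure of the templates
-/

namespace MPbbea99G.E9

open MPbbea99S MPbbea99T MPbbea99G Finset

mutual

theorem c_1977_1978 : allTr (chkV P V lk) tr_1977_1978 = true := by decide +kernel

theorem ck_1667 : (chkV P V lk) 0x100090000000d0014000040004001400040003fff3fff400040004001 = true := by decide +kernel

theorem ck_1897 : (chkV P V lk) 0x10000000000080002003a003a000240003fff40003fff40004000400140014000 = true := by decide +kernel

theorem c_1654_1655 : allTr (chkV P V lk) tr_1654_1655 = true := by decide +kernel

theorem ck_1835 : (chkV P V lk) 0x1000000000007000200270027000240003fff40003fff40004000400140014000 = true := by decide +kernel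

theorem c_1271_1278 : allTr (chkV P V lk) tr_1271_1278 = true := by decide +kernel

theorem c_1954_1955 : allTr (chkV P V lk) tr_1954_1955 = true := by decide +kernel

theorem ck_1823 : (chkV P V lk) 0x10000000000070002000e000e000140003fff40003fff40004000400140014000 = true := by decide +kernel

theorem c_1751_1752 : allTr (chkV P V lk) tr_1751_1752 = true := by decide +kernel

theorem ck_1246 : (chkV P V lk) 0x80001001d000f00014000400040003fff3fff3fff400140014001 = true := by decide +kernel

theorem c_1841_1842 : allTr (chkV P V lk) tr_1841_1842 = true := by decide +kernel

theorem c_1279_1286 : allTr (chkV P V lk) tr_1279_1286 = true := by decide +kernel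

theorem ck_1298 : (chkV P V lk) 0x80001002d0018000240003fff40003fff40013fff400040024000 = true := by decide +kernel

theorem c_862_865 : allTr (chkV P V lk) tr_862_865 = true := by decide +kernel

theorem ck_1294 : (chkV P V lk) 0x80001002c0018000240003fff40003fff40013fff400040024000 = true := by decide +kernel

theorem c_360_367 : allTr (chkV P V lk) tr_360_367 = true := by decide +kernel

theorem c_1623_1624 : allTr (chkV P V lk) tr_1623_1624 = true := by decide +kernel

theorem ck_795 : (chkV P V lk) 0x600000035003b00023fff3fff40003ffe40013fff400040034001 = true := by decide +kernel

theorem ck_1480 : (chkV P V lk) 0x90001000f000100083fff400040003fff40004000400240004000 = true := by decide +kernel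

end

end MPbbea99G.E9
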