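import Pool.Agent.Lib.Pbbea99G.E9.Data

/-!
# MP_bbea99_co: closure of the templates
-/

namespace MPbbea99G.E9

open MPbbea99S MPbbea99T MPbbea99G Finset

mutual

theorem c_1979_1980 : allTr (chkV P V lk) tr_1979_1980 = true := by decide +kernel

theorem ck_1982 : (chkV P V lk) 0x10000000100090001001500150000400040004000400040004000400040004000 = true := by decide +kernel

theorem c_1777_1778 : allTr (chkV P V lk) tr_1777_1778 = true := by decide +kernel

theorem c_1064_1065 : allTr (chkV P V lk) tr_1064_1065 = true := by decide +kernel

theorem ck_1866 : (chkV P V lk) 0x1000000000008000200100010000240003fff40003fff40004000400140014000 = true := by decide +kernel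

theorem ck_1776 : (chkV P V lk) 0x1000000000005000200300030000240003fff40003fff40004000400140014000 = true := by decide +kernel

theorem c_1890_1891 : allTr (chkV P V lk) tr_1890_1891 = true := by decide +kernel

theorem ck_1809 : (chkV P V lk) 0x10000000000060002003e003e000140003fff40003fff40004000400140014000 = true := by decide +kernel

theorem c_1948_1949 : allTr (chkV P V lk) tr_1948_1949 = true := by decide +kernel

theorem ck_1717 : (chkV P V lk) 0x10000000100010004000100014001400040003fff40003fff400140013fff = true := by decide +kernel

theorem c_1940_1941 : allTr (chkV P V lk) tr_1940_1941 = true := by decide +kernel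

theorem c_1892_1893 : allTr (chkV P V lk) tr_1892_1893 = true := by decide +kernel

theorem ck_1466 : (chkV P V lk) 0x900010000002b0002400040003fff3fff3fff4001400140014000 = true := by decide +kernel

theorem ck_522 : (chkV P V lk) 0x40001002f001a0002400040003fff3ffe40014000400140014000 = true := by decide +kernel

theorem ck_1507 : (chkV P V lk) 0x900010018004700013fff3fff40003ffe40004000400140024001 = true := by decide +kernel

theorem ck_693 : (chkV P V lk) 0x5000200010037000340003ffe3fff3fff40004001400240004001 = true := by decide +kernel

theorem ck_631 : (chkV P V lk) 0x500000044002500023fff3ffe40013ffe40004000400040024002 = true := by decide +kernel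

theorem ck_1184 : (chkV P V lk) 0x80000001a000600013fff4000400040003fff4000400340003fff = true := by decide +kernel

theorem ck_156 : (chkV P V lk) 0x200190015004640003ffe40004001400140023ffe40004000 = true := by decide +kernel

end

end MPbbea99G.E9
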