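import Pool.Agent.Lib.Pbbea99G.E9.Data

/-!
# MP_bbea99_co: closure of the templates
-/

namespace MPbbea99G.E9

open MPbbea99S MPbbea99T MPbbea99G Finset

mutual

theorem ck_1976 : (chkV P V lk) 0x10000000100090001000f000f0000400040004000400040004000400040004000 = true := by decide +kernel

theorem c_1732_1733 : allTr (chkV P V lk) tr_1732_1733 = true := by decide +kernel

theorem c_1643_1644 : allTr (chkV P V lk) tr_1643_1644 = true := by decide +kernel

theorem c_1115_1121 : allTr (chkV P V lk) tr_1115_1121 = true := by decide +kernel

theorem c_877_880 : allTr (chkV P V lk) tr_877_880 = true := by decide +kernel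

theorem c_1886_1887 : allTr (chkV P V lk) tr_1886_1887 = true := by decide +kernel

theorem c_1738_1739 : allTr (chkV P V lk) tr_1738_1739 = true := by decide +kernel

theorem c_125_156 : allTr (chkV P V lk) tr_125_156 = true := by decide +kernel

theorem ck_1735 : (chkV P V lk) 0x10000000000040002000f000f000140003fff40003fff40004000400140014000 = true := by decide +kernel

theorem c_1855_1856 : allTr (chkV P V lk) tr_1855_1856 = true := by decide +kernel

theorem ck_1837 : (chkV P V lk) 0x1000000000007000200290029000140003fff40003fff40004000400140014000 = true := by decide +kernel

theorem c_690_693 : allTr (chkV P V lk) tr_690_693 = true := by decide +kernel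

theorem c_854_857 : allTr (chkV P V lk) tr_854_857 = true := by decide +kernel

theorem ck_1278 : (chkV P V lk) 0x8000100270015000240013ffe4000400040003fff400140014000 = true := by decide +kernel

theorem c_1232_1235 : allTr (chkV P V lk) tr_1232_1235 = true := by decide +kernel

theorem ck_689 : (chkV P V lk) 0x50001003f0030000240003ffe40003fff3fff4000400240014001 = true := by decide +kernel

theorem ck_359 : (chkV P V lk) 0x300000027000a000140023ffe3fff400040003fff400040014001 = true := by decide +kernel

theorem ck_876 : (chkV P V lk) 0x600010043001b000c4000400040013ffd3fff4002400040014000 = true := by decide +kernel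

theorem ck_1523 : (chkV P V lk) 0x900010034001a0005400240013ffe3ffd40014000400140013fff = true := by decide +kernel

end

end MPbbea99G.E9
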