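import Pool.Agent.Lib.Pbbea99G.E9.Data

/-!
# MP_bbea99_co: closure of the templates
-/

namespace MPbbea99G.E9

open MPbbea99S MPbbea99T MPbbea99G Finset

mutual

theorem ck_1978 : (chkV P V lk) 0x10000000100090001001100110000400040004000400040004000400040004000 = true := by decide +kernel

theorem ck_1476 : (chkV P V lk) 0x900010006000200023fff3fff4001400040003fff400140014000 = true := by decide +kernel

theorem ck_1895 : (chkV P V lk) 0x1000000000008000200390039000240003fff40003fff40004000400140014000 = true := by decide +kernel

theorem c_1649_1650 : allTr (chkV P V lk) tr_1649_1650 = true := by decide +kernel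

theorem ck_1804 : (chkV P V lk) 0x10000000000060002003b003b000240003fff40003fff40004000400140014000 = true := by decide +kernel

theorem c_1847_1848 : allTr (chkV P V lk) tr_1847_1848 = true := by decide +kernel

theorem c_819_826 : allTr (chkV P V lk) tr_819_826 = true := by decide +kernel

theorem c_1785_1786 : allTr (chkV P V lk) tr_1785_1786 = true := by decide +kernel

theorem c_1783_1784 : allTr (chkV P V lk) tr_1783_1784 = true := by decide +kernel

theorem ck_1752 : (chkV P V lk) 0x10000000000050002000c000c000140003fff40003fff40004000400140014000 = true := by decide +kernel

theorem c_873_876 : allTr (chkV P V lk) tr_873_876 = true := by decide +kernel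

theorem c_1734_1735 : allTr (chkV P V lk) tr_1734_1735 = true := by decide +kernel

theorem ck_510 : (chkV P V lk) 0x4000100260015000140013ffe4000400040003fff400140014000 = true := by decide +kernel

theorem c_593_623 : allTr (chkV P V lk) tr_593_623 = true := by decide +kernel

theorem ck_1061 : (chkV P V lk) 0x7000100330042000140003fff3fff3fff40003fff400240024000 = true := by decide +kernel

theorem ck_670 : (chkV P V lk) 0x5000100380021000140003ffe40003fff3fff4000400240014001 = true := by decide +kernel

theorem c_1575_1582 : allTr (chkV P V lk) tr_1575_1582 = true := by decide +kernel

end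

end MPbbea99G.E9
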