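import Pool.Agent.Lib.Pbbea99G.E9.Data

/-!
# MP_bbea99_co: closure of the templates
-/

namespace MPbbea99G.E9

open MPbbea99S MPbbea99T MPbbea99G Finset

mutual

theorem ck_1980 : (chkV P V lk) 0x10000000100090001001300130000400040004000400040004000400040004000 = true := by decide +kernel

theorem c_1716_1717 : allTr (chkV P V lk) tr_1716_1717 = true := by decide +kernel

theorem ck_1862 : (chkV P V lk) 0x1000000000008000200060006000240003fff40003fff40004000400140014000 = true := by decide +kernel

theorem c_935_965 : allTr (chkV P V lk) tr_935_965 = true := by decide +kernel

theorem c_1870_1871 : allTr (chkV P V lk) tr_1870_1871 = true := by decide +kernel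

theorem ck_1754 : (chkV P V lk) 0x10000000000050002000d000d000240003fff40003fff40004000400140014000 = true := by decide +kernel

theorem ck_1743 : (chkV P V lk) 0x1000000000004000200160016000240003fff40003fff40004000400140014000 = true := by decide +kernel

theorem c_1876_1877 : allTr (chkV P V lk) tr_1876_1877 = true := by decide +kernel

theorem ck_1875 : (chkV P V lk) 0x1000000000008000200160016000140003fff40003fff40004000400140014000 = true := by decide +kernel

theorem ck_1916 : (chkV P V lk) 0x10000000000090002000c000c000140003fff40003fff40004000400140014000 = true := by decide +kernel

theorem ck_1879 : (chkV P V lk) 0x1000000000008000200190019000140003fff40003fff40004000400140014000 = true := by decide +kernel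

theorem ck_1860 : (chkV P V lk) 0x1000000000008000200050005000140003fff40003fff40004000400140014000 = true := by decide +kernel

theorem c_1548_1551 : allTr (chkV P V lk) tr_1548_1551 = true := by decide +kernel

theorem c_468_483 : allTr (chkV P V lk) tr_468_483 = true := by decide +kernel

theorem c_1473_1474 : allTr (chkV P V lk) tr_1473_1474 = true := by decide +kernel

theorem ck_1503 : (chkV P V lk) 0x9000100160046000140003fff40003ffe40004001400240013fff = true := by decide +kernel

theorem c_1691_1698 : allTr (chkV P V lk) tr_1691_1698 = true := by decide +kernel

end

end MPbbea99G.E9
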