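import Pool.Agent.Lib.Pbbea99G.E9.Data

/-!
# MP_bbea99_co: closure of the templates
-/

namespace MPbbea99G.E9

open MPbbea99S MPbbea99T MPbbea99G Finset

mutual

theorem c_1989_1990 : allTr (chkV P V lk) tr_1989_1990 = true := by decide +kernel

theorem c_1983_1984 : allTr (chkV P V lk) tr_1983_1984 = true := by decide +kernel

theorem c_997_1012 : allTr (chkV P V lk) tr_997_1012 = true := by decide +kernel

theorem c_675_678 : allTr (chkV P V lk) tr_675_678 = true := by decide +kernel

theorem c_1894_1895 : allTr (chkV P V lk) tr_1894_1895 = true := by decide +kernel

theorem ck_1842 : (chkV P V lk) 0x10000000000070002002c002c000240003fff40003fff40004000400140014000 = true := by decide +kernel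

theorem ck_1525 : (chkV P V lk) 0x9000100340033000340013fff40003ffe3fff4000400140024000 = true := by decide +kernel

theorem c_1824_1825 : allTr (chkV P V lk) tr_1824_1825 = true := by decide +kernel

theorem c_286_289 : allTr (chkV P V lk) tr_286_289 = true := by decide +kernel

theorem c_1888_1889 : allTr (chkV P V lk) tr_1888_1889 = true := by decide +kernel

theorem c_1944_1945 : allTr (chkV P V lk) tr_1944_1945 = true := by decide +kernel

theorem c_1251_1254 : allTr (chkV P V lk) tr_1251_1254 = true := by decide +kernel

theorem c_517_518 : allTr (chkV P V lk) tr_517_518 = true := by decide +kernel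

theorem c_835_841 : allTr (chkV P V lk) tr_835_841 = true := by decide +kernel

theorem ck_647 : (chkV P V lk) 0x500010016000b00014000400040013ffe40004000400040014000 = true := by decide +kernel

theorem c_1552_1553 : allTr (chkV P V lk) tr_1552_1553 = true := by decide +kernel

theorem ck_312 : (chkV P V lk) 0x2000200130009000640013fff3ffe3ffe40004000400240024000 = true := by decide +kernel

theorem ck_903 : (chkV P V lk) 0x6000200100016000d40003ffe40003ffe40004003400040004001 = true := by decide +kernel

theorem ck_1586 : (chkV P V lk) 0x90002001f001000033fff3ffe400040003fff4001400240014000 = true := by decide +kernel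

end

end MPbbea99G.E9
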