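import Pool.Agent.Lib.Pbbea99G.E9.Data

/-!
# MP_bbea99_co: closure of the templates
-/

namespace MPbbea99G.E9

open MPbbea99S MPbbea99T MPbbea99G Finset

mutual

theorem c_1477_1478 : allTr (chkV P V lk) tr_1477_1478 = true := by decide +kernel

theorem c_1985_1986 : allTr (chkV P V lk) tr_1985_1986 = true := by decide +kernel

theorem ck_1648 : (chkV P V lk) 0x100080000000f000700003fff4001400040004000400040013fff4000 = true := by decide +kernel

theorem c_1434_1464 : allTr (chkV P V lk) tr_1434_1464 = true := by decide +kernel

theorem ck_1780 : (chkV P V lk) 0x1000000000006000200130013000140003fff40003fff40004000400140014000 = true := by decide +kernel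

theorem ck_1772 : (chkV P V lk) 0x10000000000050002002c002c000240003fff40003fff40004000400140014000 = true := by decide +kernel

theorem ck_1659 : (chkV P V lk) 0x1000800000019000d00003fff4001400040004000400040013fff4000 = true := by decide +kernel

theorem ck_1815 : (chkV P V lk) 0x1000000000007000200070007000240003fff40003fff40004000400140014000 = true := by decide +kernel

theorem c_1559_1562 : allTr (chkV P V lk) tr_1559_1562 = true := by decide +kernel

theorem ck_1800 : (chkV P V lk) 0x1000000000006000200380038000140003fff40003fff40004000400140014000 = true := by decide +kernel

theorem c_1244_1246 : allTr (chkV P V lk) tr_1244_1246 = true := by decide +kernel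

theorem c_748_779 : allTr (chkV P V lk) tr_748_779 = true := by decide +kernel

theorem c_652_654 : allTr (chkV P V lk) tr_652_654 = true := by decide +kernel

theorem ck_857 : (chkV P V lk) 0x60001002b003100013fff400040003fff40004000400140023fff = true := by decide +kernel

theorem ck_1535 : (chkV P V lk) 0x9000100380021000240003ffe40003fff3fff4000400240014001 = true := by decide +kernel

theorem ck_1478 : (chkV P V lk) 0x9000100060042000140003fff3fff3fff40003fff400240024000 = true := by decide +kernel

theorem ck_1079 : (chkV P V lk) 0x70001003a001c000640003fff3ffe40003fff4001400040024001 = true := by decide +kernel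

theorem ck_405 : (chkV P V lk) 0x30002000d00140005400140003fff3ffe3fff4000400140014001 = true := by decide +kernel

theorem ck_965 : (chkV P V lk) 0x70000000b000900023fff40003fff3fff40003fff400240033fff = true := by decide +kernel

theorem ck_1582 : (chkV P V lk) 0x90002000e0036000540023fff3fff3ffe40004002400040013fff = true := by decide +kernel

end

end MPbbea99G.E9
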