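import Pool.Agent.Lib.Pbbea99G.E9.Data

/-!
# MP_bbea99_co: closure of the templates
-/

namespace MPbbea99G.E9

open MPbbea99S MPbbea99T MPbbea99G Finset

mutual

theorem ck_1988 : (chkV P V lk) 0x10000000100090001001b001b0000400040004000400040004000400040004000 = true := by decide +kernel

theorem c_1730_1731 : allTr (chkV P V lk) tr_1730_1731 = true := by decide +kernel

theorem c_1365_1371 : allTr (chkV P V lk) tr_1365_1371 = true := by decide +kernel

theorem c_1745_1746 : allTr (chkV P V lk) tr_1745_1746 = true := by decide +kernel

theorem ck_1739 : (chkV P V lk) 0x1000000000004000200130013000140003fff40003fff40004000400140014000 = true := by decide +kernel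

theorem c_1919_1920 : allTr (chkV P V lk) tr_1919_1920 = true := by decide +kernel

theorem c_1828_1829 : allTr (chkV P V lk) tr_1828_1829 = true := by decide +kernel

theorem c_1017_1020 : allTr (chkV P V lk) tr_1017_1020 = true := by decide +kernel

theorem c_858_861 : allTr (chkV P V lk) tr_858_861 = true := by decide +kernel

theorem c_1909_1910 : allTr (chkV P V lk) tr_1909_1910 = true := by decide +kernel

theorem ck_1930 : (chkV P V lk) 0x1000000000009000200230023000140003fff40003fff40004000400140014000 = true := by decide +kernel

theorem ck_1737 : (chkV P V lk) 0x1000000000004000200110011000140003fff40003fff40004000400140014000 = true := by decide +kernel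

theorem ck_1309 : (chkV P V lk) 0x80001002f0042000440003ffe3fff3ffe3fff4000400240034001 = true := by decide +kernel

theorem c_702_716 : allTr (chkV P V lk) tr_702_716 = true := by decide +kernel

theorem ck_1090 : (chkV P V lk) 0x70001003f0028000140003ffe40013fff40004000400140023fff = true := by decide +kernel

theorem ck_687 : (chkV P V lk) 0x50001003e0027000140013fff40013fff3fff4000400140004000 = true := by decide +kernel

theorem c_1625_1628 : allTr (chkV P V lk) tr_1625_1628 = true := by decide +kernel

theorem ck_1075 : (chkV P V lk) 0x700010039001c000540003fff3ffe40003fff4001400040024001 = true := by decide +kernel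

theorem ck_1690 : (chkV P V lk) 0x10000000000010005000300033ffe3fff3fff3ffe40024002400040014001 = true := by decide +kernel

end

end MPbbea99G.E9
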