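import Pool.Agent.Lib.Pbbea99G.E9.Data

/-!
# MP_bbea99_co: closure of the templates
-/

namespace MPbbea99G.E9

open MPbbea99S MPbbea99T MPbbea99G Finset

mutual

theorem c_1621_1622 : allTr (chkV P V lk) tr_1621_1622 = true := by decide +kernel

theorem ck_1731 : (chkV P V lk) 0x10000000000030002000c000c000240003fff40003fff40004000400140014000 = true := by decide +kernel

theorem c_1680_1681 : allTr (chkV P V lk) tr_1680_1681 = true := by decide +kernel

theorem ck_1924 : (chkV P V lk) 0x10000000000090002001e001e000240003fff40003fff40004000400140014000 = true := by decide +kernel

theorem c_1808_1809 : allTr (chkV P V lk) tr_1808_1809 = true := by decide +kernel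

theorem c_1911_1912 : allTr (chkV P V lk) tr_1911_1912 = true := by decide +kernel

theorem ck_1868 : (chkV P V lk) 0x1000000000008000200120012000140003fff40003fff40004000400140014000 = true := by decide +kernel

theorem c_1726_1727 : allTr (chkV P V lk) tr_1726_1727 = true := by decide +kernel

theorem c_1843_1844 : allTr (chkV P V lk) tr_1843_1844 = true := by decide +kernel

theorem c_1590_1605 : allTr (chkV P V lk) tr_1590_1605 = true := by decide +kernel

theorem c_282_283 : allTr (chkV P V lk) tr_282_283 = true := by decide +kernel

theorem c_1797_1798 : allTr (chkV P V lk) tr_1797_1798 = true := by decide +kernel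

theorem c_1493_1495 : allTr (chkV P V lk) tr_1493_1495 = true := by decide +kernel

theorem ck_1313 : (chkV P V lk) 0x800010042003100013fff400040003fff40004000400140023fff = true := by decide +kernel

theorem ck_1044 : (chkV P V lk) 0x700010018004700013fff3fff40003ffe40004000400140024001 = true := by decide +kernel

theorem ck_514 : (chkV P V lk) 0x40001002a0017000240013fff40003fff40004001400040013fff = true := by decide +kernel

theorem ck_662 : (chkV P V lk) 0x5000100320047000b400040013fff3ffc3ffe4000400040034003 = true := by decide +kernel

theorem ck_1364 : (chkV P V lk) 0x800020033001e000340003ffe3fff3fff40004001400040014002 = true := by decide +kernel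

theorem ck_281 : (chkV P V lk) 0x200010002002b00033fff40003fff40003fff4002400040004001 = true := by decide +kernel

end

end MPbbea99G.E9
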