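import Pool.Agent.Lib.Pbbea99G.E9.Data

/-!
# MP_bbea99_co: closure of the templates
-/

namespace MPbbea99G.E9

open MPbbea99S MPbbea99T MPbbea99G Finset

mutual

theorem c_1981_1982 : allTr (chkV P V lk) tr_1981_1982 = true := by decide +kernel

theorem c_1662_1663 : allTr (chkV P V lk) tr_1662_1663 = true := by decide +kernel

theorem c_1859_1860 : allTr (chkV P V lk) tr_1859_1860 = true := by decide +kernel

theorem c_1722_1723 : allTr (chkV P V lk) tr_1722_1723 = true := by decide +kernel

theorem c_796_810 : allTr (chkV P V lk) tr_796_810 = true := by decide +kernel

theorem c_1818_1819 : allTr (chkV P V lk) tr_1818_1819 = true := by decide +kernel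

theorem ck_1869 : (chkV P V lk) 0x1000000000008000200120012000240003fff40003fff40004000400140014000 = true := by decide +kernel

theorem c_1901_1902 : allTr (chkV P V lk) tr_1901_1902 = true := by decide +kernel

theorem c_406_436 : allTr (chkV P V lk) tr_406_436 = true := by decide +kernel

theorem ck_1663 : (chkV P V lk) 0x10009000000090010000040004000400040013fff4000400140003fff = true := by decide +kernel

theorem c_1923_1924 : allTr (chkV P V lk) tr_1923_1924 = true := by decide +kernel

theorem ck_1955 : (chkV P V lk) 0x1000000000009000200430043000140003fff40003fff40004000400140014000 = true := by decide +kernel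

theorem c_846_849 : allTr (chkV P V lk) tr_846_849 = true := by decide +kernel

theorem c_496_498 : allTr (chkV P V lk) tr_496_498 = true := by decide +kernel

theorem c_284_285 : allTr (chkV P V lk) tr_284_285 = true := by decide +kernel

theorem ck_1024 : (chkV P V lk) 0x7000100100029000140003ffe4000400040004001400140004000 = true := by decide +kernel

theorem ck_678 : (chkV P V lk) 0x50001003c0024000240003fff40003ffe40004001400240013fff = true := by decide +kernel

end

end MPbbea99G.E9
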