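import Pool.Agent.Lib.Pbbea99G.E9.Data

/-!
# MP_bbea99_co: windows over the templates
-/

namespace MPbbea99G.E9

open MPbbea99S MPbbea99T MPbbea99G Finset

theorem o_1091_1121 : allTr oF tr_1091_1121 = true := by decide +kernel

theorem o_1232_1239 : allTr oF tr_1232_1239 = true := by decide +kernel

theorem o_1247_1254 : allTr oF tr_1247_1254 = true := by decide +kernel

theorem o_1757_1760 : allTr oF tr_1757_1760 = true := by decide +kernel

theorem o_1621_1636 : allTr oF tr_1621_1636 = true := by decide +kernel

theorem o_1859_1862 : allTr oF tr_1859_1862 = true := by decide +kernel

theorem o_484_491 : allTr oF tr_484_491 = true := by decide +kernel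

theorem o_1240_1246 : allTr oF tr_1240_1246 = true := by decide +kernel

theorem o_1867_1869 : allTr oF tr_1867_1869 = true := by decide +kernel

theorem ok_1780 : oF 0x1000000000006000200130013000140003fff40003fff40004000400140014000 = true := by decide +kernel

theorem o_1965_1966 : allTr oF tr_1965_1966 = true := by decide +kernel

theorem o_702_716 : allTr oF tr_702_716 = true := by decide +kernel

theorem ok_1807 : oF 0x10000000000060002003d003d000140003fff40003fff40004000400140014000 = true := by decide +kernel

theorem ok_1733 : oF 0x10000000000030002000e000e000240003fff40003fff40004000400140014000 = true := by decide +kernel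

theorem ok_1741 : oF 0x1000000000004000200140014000240003fff40003fff40004000400140014000 = true := by decide +kernel

theorem o_1714_1717 : allTr oF tr_1714_1717 = true := by decide +kernel

theorem ok_1254 : oF 0x80001001f0016000e40003ffe40003fff3fff4003400140004000 = true := by decide +kernel

theorem ok_1121 : oF 0x700020022001c000640003fff3ffe3fff40004001400140014001 = true := by decide +kernel

theorem o_1691_1698 : allTr oF tr_1691_1698 = true := by decide +kernel

theorem ok_1574 : oF 0x900020007003f000540013fff40003ffd40004000400240014000 = true := by decide +kernel

theorem ok_561 : oF 0x400020019002a000640023fff40003ffe3fff4001400140004000 = true := by decide +kernel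

end MPbbea99G.E9
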