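import Pool.Agent.Lib.Pbbea99G.E9.Data

/-!
# MP_bbea99_co: windows over the templates
-/

namespace MPbbea99G.E9

open MPbbea99S MPbbea99T MPbbea99G Finset

theorem o_1224_1231 : allTr oF tr_1224_1231 = true := by decide +kernel

theorem o_1718_1721 : allTr oF tr_1718_1721 = true := by decide +kernel

theorem o_492_498 : allTr oF tr_492_498 = true := by decide +kernel

theorem o_671_678 : allTr oF tr_671_678 = true := by decide +kernel

theorem o_1913_1916 : allTr oF tr_1913_1916 = true := by decide +kernel

theorem o_1894_1897 : allTr oF tr_1894_1897 = true := by decide +kernel

theorem o_624_639 : allTr oF tr_624_639 = true := by decide +kernel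

theorem o_1567_1574 : allTr oF tr_1567_1574 = true := by decide +kernel

theorem o_1434_1464 : allTr oF tr_1434_1464 = true := by decide +kernel

theorem o_1836_1838 : allTr oF tr_1836_1838 = true := by decide +kernel

theorem o_1516_1519 : allTr oF tr_1516_1519 = true := by decide +kernel

theorem ok_1640 : oF 0x100070000000800030000400040013fff3fff40014000400040004000 = true := by decide +kernel

theorem o_1255_1262 : allTr oF tr_1255_1262 = true := by decide +kernel

theorem ok_1916 : oF 0x10000000000090002000c000c000140003fff40003fff40004000400140014000 = true := by decide +kernel

theorem ok_1792 : oF 0x1000000000006000200310031000140003fff40003fff40004000400140014000 = true := by decide +kernel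

theorem ok_1862 : oF 0x1000000000008000200060006000240003fff40003fff40004000400140014000 = true := by decide +kernel

theorem ok_1547 : oF 0x90001003c0024000140003fff40003ffe40004001400240013fff = true := by decide +kernel

theorem ok_1059 : oF 0x700010032001d00024000400040013ffe40004000400040014000 = true := by decide +kernel

theorem ok_1566 : oF 0x90002000100000006400140003fff3fff40004001400040004000 = true := by decide +kernel

theorem ok_623 : oF 0x50000002e000d00023fff40013fff3ffe40014000400240004000 = true := by decide +kernel

theorem ok_1523 : oF 0x900010034001a0005400240013ffe3ffd40014000400140013fff = true := by decide +kernel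

end MPbbea99G.E9
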