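import Pool.Agent.Lib.Pbbea99G.E9.Data

/-!
# MP_bbea99_co: windows over the templates
-/

namespace MPbbea99G.E9

open MPbbea99S MPbbea99T MPbbea99G Finset

theorem o_1295_1309 : allTr oF tr_1295_1309 = true := by decide +kernel

theorem o_1645_1648 : allTr oF tr_1645_1648 = true := 
  allTr_mk (by decide +kernel) (by decide +kernel) (by decide +kernel)

theorem o_1890_1893 : allTr oF tr_1890_1893 = true := by decide +kernel

theorem o_1936_1939 : allTr oF tr_1936_1939 = true := by decide +kernel

theorem o_1925_1928 : allTr oF tr_1925_1928 = true := by decide +kernel

theorem o_1734_1737 : allTr oF tr_1734_1737 = true := by decide +kernel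

theorem o_499_506 : allTr oF tr_499_506 = true := by decide +kernel

theorem o_679_685 : allTr oF tr_679_685 = true := by decide +kernel

theorem o_904_934 : allTr oF tr_904_934 = true := by decide +kernel

theorem o_1185_1215 : allTr oF tr_1185_1215 = true := by decide +kernel

theorem ok_1959 : oF 0x1000000000009000200460046000240003fff40003fff40004000400140014000 = true := by decide +kernel

theorem ok_1246 : oF 0x80001001d000f00014000400040003fff3fff3fff400140014001 = true := by decide +kernel

theorem ok_1924 : oF 0x10000000000090002001e001e000240003fff40003fff40004000400140014000 = true := by decide +kernel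

theorem ok_1900 : oF 0x10000000000080002003d003d000240003fff40003fff40004000400140014000 = true := by decide +kernel

theorem ok_1671 : oF 0x1000900000020001100004000400040003fff4000400140003fff4001 = true := by decide +kernel

theorem ok_1866 : oF 0x1000000000008000200100010000240003fff40003fff40004000400140014000 = true := by decide +kernel

theorem ok_1239 : oF 0x80001000b001200023fff400040003fff40004000400140023fff = true := by decide +kernel

theorem ok_1067 : oF 0x700010035002500023fff3fff40003ffe40004000400140024001 = true := by decide +kernel

theorem ok_249 : oF 0x100020025003b000540013fff3fff3ffe40014000400040024000 = true := by decide +kernel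

theorem ok_716 : oF 0x50002001e000f00033fff3fff40003fff3fff4000400140014002 = true := by decide +kernel

theorem ok_1028 : oF 0x700010012001100033fff3fff3fff3ffe3fff4003400140004002 = true := by decide +kernel

end MPbbea99G.E9
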