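import Pool.Agent.Lib.Pbbea99G.E9.Data

/-!
# MP_bbea99_co: windows over the templates
-/

namespace MPbbea99G.E9

open MPbbea99S MPbbea99T MPbbea99G Finset

theorem o_1122_1184 : allTr oF tr_1122_1184 = true := by decide +kernel

theorem o_1991_1993 : allTr oF tr_1991_1993 = true := by decide +kernel

theorem o_1909_1912 : allTr oF tr_1909_1912 = true := by decide +kernel

theorem o_1921_1924 : allTr oF tr_1921_1924 = true := by decide +kernel

theorem o_1076_1083 : allTr oF tr_1076_1083 = true := by decide +kernel

theorem o_1956_1959 : allTr oF tr_1956_1959 = true := by decide +kernel

theorem o_1649_1651 : allTr oF tr_1649_1651 = true := by decide +kernel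

theorem o_531_561 : allTr oF tr_531_561 = true := by decide +kernel

theorem o_1929_1931 : allTr oF tr_1929_1931 = true := by decide +kernel

theorem o_1037_1044 : allTr oF tr_1037_1044 = true := by decide +kernel

theorem ok_1968 : oF 0x10000000100080001000800080000400040004000400040004000400040004000 = true := by decide +kernel

theorem ok_1679 : oF 0x10009000000260015000040013fff4000400140003fff400040004000 = true := by decide +kernel

theorem ok_1912 : oF 0x10000000000090002000a000a000140003fff40003fff40004000400140014000 = true := by decide +kernel

theorem ok_1752 : oF 0x10000000000050002000c000c000140003fff40003fff40004000400140014000 = true := by decide +kernel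

theorem ok_1920 : oF 0x10000000000090002000e000e000140003fff40003fff40004000400140014000 = true := by decide +kernel

theorem ok_1472 : oF 0x900010005000800013fff3fff40003fff40014001400040014000 = true := by decide +kernel

theorem ok_1893 : oF 0x1000000000008000200380038000140003fff40003fff40004000400140014000 = true := by decide +kernel

theorem ok_1270 : oF 0x800010024001300013fff3ffe40003fff40014000400240014000 = true := by decide +kernel

theorem ok_1278 : oF 0x8000100270015000240013ffe4000400040003fff400140014000 = true := by decide +kernel

theorem ok_1698 : oF 0x1000000000001001a00060006400040003fff3fff3fff4001400340003fff = true := by decide +kernel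

theorem ok_1215 : oF 0x80000004000170002400140003fff3fff3fff4002400040013fff = true := by decide +kernel

end MPbbea99G.E9
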