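import Pool.Agent.Lib.Pbbea99G.E9.Data

/-!
# MP_bbea99_co: windows over the templates
-/

namespace MPbbea99G.E9

open MPbbea99S MPbbea99T MPbbea99G Finset

theorem o_686_701 : allTr oF tr_686_701 = true := by decide +kernel

theorem o_1310_1317 : allTr oF tr_1310_1317 = true := by decide +kernel

theorem o_1524_1527 : allTr oF tr_1524_1527 = true := by decide +kernel

theorem o_1816_1819 : allTr oF tr_1816_1819 = true := by decide +kernel

theorem o_1789_1792 : allTr oF tr_1789_1792 = true := by decide +kernel

theorem o_1952_1955 : allTr oF tr_1952_1955 = true := by decide +kernel

theorem o_1898_1900 : allTr oF tr_1898_1900 = true := by decide +kernel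

theorem o_1520_1523 : allTr oF tr_1520_1523 = true := by decide +kernel

theorem o_1489_1495 : allTr oF tr_1489_1495 = true := by decide +kernel

theorem ok_1974 : oF 0x10000000100080001000e000e0000400040004000400040004000400040004000 = true := by decide +kernel

theorem ok_1988 : oF 0x10000000100090001001b001b0000400040004000400040004000400040004000 = true := by decide +kernel

theorem ok_1990 : oF 0x1000100000001000200010001000140003fff40003fff40004000400140014000 = true := by decide +kernel

theorem ok_1636 : oF 0x100060000000400010000400140014000400040003fff400040003fff = true := by decide +kernel

theorem o_1326_1340 : allTr oF tr_1326_1340 = true := by decide +kernel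

theorem ok_1873 : oF 0x1000000000008000200140014000240003fff40003fff40004000400140014000 = true := by decide +kernel

theorem ok_1831 : oF 0x1000000000007000200250025000140003fff40003fff40004000400140014000 = true := by decide +kernel

theorem ok_1044 : oF 0x700010018004700013fff3fff40003ffe40004000400140024001 = true := by decide +kernel

theorem ok_1620 : oF 0x90002002f0033000340003ffe40003ffe3fff4001400140024001 = true := by decide +kernel

theorem ok_1589 : oF 0x90002001f003200033fff3ffe40013fff40014001400140004000 = true := by decide +kernel

theorem ok_405 : oF 0x30002000d00140005400140003fff3ffe3fff4000400140014001 = true := by decide +kernel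

theorem ok_1036 : oF 0x70001001500340005400140003ffe400040014001400040003fff = true := by decide +kernel

end MPbbea99G.E9
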