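import Pool.Agent.Lib.Pbbea99G.E9.Data

/-!
# MP_bbea99_co: windows over the templates
-/

namespace MPbbea99G.E9

open MPbbea99S MPbbea99T MPbbea99G Finset

theorem o_935_996 : allTr oF tr_935_996 = true := by decide +kernel

theorem o_125_187 : allTr oF tr_125_187 = true := by decide +kernel

theorem o_1882_1885 : allTr oF tr_1882_1885 = true := by decide +kernel

theorem o_1855_1858 : allTr oF tr_1855_1858 = true := by decide +kernel

theorem o_375_382 : allTr oF tr_375_382 = true := by decide +kernel

theorem o_1886_1889 : allTr oF tr_1886_1889 = true := by decide +kernel

theorem o_1960_1962 : allTr oF tr_1960_1962 = true := by decide +kernel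

theorem ok_1721 : oF 0x10001000500000002000000004000400140004001400040003fff3fff4000 = true := by decide +kernel

theorem o_889_903 : allTr oF tr_889_903 = true := by decide +kernel

theorem o_663_670 : allTr oF tr_663_670 = true := by decide +kernel

theorem ok_1889 : oF 0x1000000000008000200340034000140003fff40003fff40004000400140014000 = true := by decide +kernel

theorem o_1699_1713 : allTr oF tr_1699_1713 = true := by decide +kernel

theorem ok_1951 : oF 0x10000000000090002002f002f000240003fff40003fff40004000400140014000 = true := by decide +kernel

theorem ok_1784 : oF 0x1000000000006000200170017000140003fff40003fff40004000400140014000 = true := by decide +kernel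

theorem ok_1885 : oF 0x1000000000008000200310031000140003fff40003fff40004000400140014000 = true := by decide +kernel

theorem ok_390 : oF 0x30001001c000e000240003ffe4000400040004001400140004000 = true := by decide +kernel

theorem ok_1083 : oF 0x70001003c0024000140003fff40003ffe40004001400240013fff = true := by decide +kernel

theorem ok_1309 : oF 0x80001002f0042000440003ffe3fff3ffe3fff4000400240034001 = true := by decide +kernel

theorem ok_530 : oF 0x400020000002300043fff3ffe3fff400040014001400140014000 = true := by decide +kernel

theorem ok_1690 : oF 0x10000000000010005000300033ffe3fff3fff3ffe40024002400040014001 = true := by decide +kernel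

theorem ok_467 : oF 0x40000003600110001400040003fff3ffe3fff4002400140004001 = true := by decide +kernel

end MPbbea99G.E9
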