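import Pool.Agent.Lib.Pbbea99G.E9.Data

/-!
# MP_bbea99_co: windows over the templates
-/

namespace MPbbea99G.E9

open MPbbea99S MPbbea99T MPbbea99G Finset

theorem o_1287_1294 : allTr oF tr_1287_1294 = true := by decide +kernel

theorem o_188_249 : allTr oF tr_188_249 = true := by decide +kernel

theorem o_1801_1804 : allTr oF tr_1801_1804 = true := by decide +kernel

theorem o_1749_1752 : allTr oF tr_1749_1752 = true := by decide +kernel

theorem o_1672_1675 : allTr oF tr_1672_1675 = true := by decide +kernel

theorem o_1687_1690 : allTr oF tr_1687_1690 = true := by decide +kernel

theorem o_1318_1325 : allTr oF tr_1318_1325 = true := by decide +kernel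

theorem o_1512_1515 : allTr oF tr_1512_1515 = true := by decide +kernel

theorem o_997_1012 : allTr oF tr_997_1012 = true := by decide +kernel

theorem o_1981_1982 : allTr oF tr_1981_1982 = true := by decide +kernel

theorem ok_1976 : oF 0x10000000100090001000f000f0000400040004000400040004000400040004000 = true := by decide +kernel

theorem ok_1527 : oF 0x9000100350029000e40003ffe4000400040004001400140004000 = true := by decide +kernel

theorem ok_1651 : oF 0x100080000001200090000400040003fff400040003fff400140014000 = true := by decide +kernel

theorem ok_1644 : oF 0x100070000000c0005000040004000400140004001400040003fff3fff = true := by decide +kernel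

theorem o_298_312 : allTr oF tr_298_312 = true := by decide +kernel

theorem ok_1881 : oF 0x10000000000080002001a001a000240003fff40003fff40004000400140014000 = true := by decide +kernel

theorem ok_1488 : oF 0x900010011001e000240013fff3fff3fff40004000400040014001 = true := by decide +kernel

theorem ok_1294 : oF 0x80001002c0018000240003fff40003fff40013fff400040024000 = true := by decide +kernel

theorem ok_1433 : oF 0x9000000250028000140003ffe40013fff40013fff400040033fff = true := by decide +kernel

theorem ok_1713 : oF 0x1000000010000000c000200023fff3fff4002400040013fff400140003fff = true := by decide +kernel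

theorem ok_662 : oF 0x5000100320047000b400040013fff3ffc3ffe4000400040034003 = true := by decide +kernel

end MPbbea99G.E9
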