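import Pool.Agent.Lib.Pbbea99G.E9.Data

/-!
# MP_bbea99_co: windows over the templates
-/

namespace MPbbea99G.E9

open MPbbea99S MPbbea99T MPbbea99G Finset

theorem o_313_374 : allTr oF tr_313_374 = true := by decide +kernel

theorem o_1832_1835 : allTr oF tr_1832_1835 = true := by decide +kernel

theorem o_1504_1511 : allTr oF tr_1504_1511 = true := by decide +kernel

theorem o_1785_1788 : allTr oF tr_1785_1788 = true := by decide +kernel

theorem o_1874_1877 : allTr oF tr_1874_1877 = true := by decide +kernel

theorem o_1021_1028 : allTr oF tr_1021_1028 = true := by decide +kernel

theorem o_1851_1854 : allTr oF tr_1851_1854 = true := by decide +kernel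

theorem o_1944_1947 : allTr oF tr_1944_1947 = true := by decide +kernel

theorem o_1967_1968 : allTr oF tr_1967_1968 = true := by decide +kernel

theorem o_1977_1978 : allTr oF tr_1977_1978 = true := by decide +kernel

theorem o_1279_1286 : allTr oF tr_1279_1286 = true := by decide +kernel

theorem ok_1663 : oF 0x10009000000090010000040004000400040013fff4000400140003fff = true := by decide +kernel

theorem ok_1877 : oF 0x1000000000008000200180018000140003fff40003fff40004000400140014000 = true := by decide +kernel

theorem ok_1835 : oF 0x1000000000007000200270027000240003fff40003fff40004000400140014000 = true := by decide +kernel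

theorem ok_1737 : oF 0x1000000000004000200110011000140003fff40003fff40004000400140014000 = true := by decide +kernel

theorem ok_647 : oF 0x500010016000b00014000400040013ffe40004000400040014000 = true := by decide +kernel

theorem ok_1842 : oF 0x10000000000070002002c002c000240003fff40003fff40004000400140014000 = true := by decide +kernel

theorem ok_670 : oF 0x5000100380021000140003ffe40003fff3fff4000400240014001 = true := by decide +kernel

theorem ok_514 : oF 0x40001002a0017000240013fff40003fff40004001400040013fff = true := by decide +kernel

theorem ok_1286 : oF 0x80001002a000c000440013ffd40003ffe40014002400040014000 = true := by decide +kernel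

theorem ok_491 : oF 0x40001000e0002000540003fff400040003fff4000400240013fff = true := by decide +kernel

end MPbbea99G.E9
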