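import Pool.Agent.Lib.Pbbea99G.E9.Data

/-!
# MP_bbea99_co: windows over the templates
-/

namespace MPbbea99G.E9

open MPbbea99S MPbbea99T MPbbea99G Finset

theorem o_1473_1480 : allTr oF tr_1473_1480 = true := by decide +kernel

theorem o_1901_1904 : allTr oF tr_1901_1904 = true := by decide +kernel

theorem o_1808_1811 : allTr oF tr_1808_1811 = true := by decide +kernel

theorem o_873_880 : allTr oF tr_873_880 = true := by decide +kernel

theorem o_1878_1881 : allTr oF tr_1878_1881 = true := by decide +kernel

theorem o_383_390 : allTr oF tr_383_390 = true := by decide +kernel

theorem o_881_888 : allTr oF tr_881_888 = true := by decide +kernel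

theorem o_640_647 : allTr oF tr_640_647 = true := by decide +kernel

theorem o_1979_1980 : allTr oF tr_1979_1980 = true := by decide +kernel

theorem o_1971_1972 : allTr oF tr_1971_1972 = true := by decide +kernel

theorem o_391_405 : allTr oF tr_391_405 = true := by decide +kernel

theorem ok_1908 : oF 0x1000000000009000200020002000240003fff40003fff40004000400140014000 = true := by decide +kernel

theorem ok_1904 : oF 0x10000000000080002003f003f000240003fff40003fff40004000400140014000 = true := by decide +kernel

theorem ok_1850 : oF 0x1000000000007000200430043000240003fff40003fff40004000400140014000 = true := by decide +kernel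

theorem ok_1768 : oF 0x1000000000005000200270027000140003fff40003fff40004000400140014000 = true := by decide +kernel

theorem ok_639 : oF 0x50001001200200001400040003fff3fff3fff4001400140014000 = true := by decide +kernel

theorem ok_857 : oF 0x60001002b003100013fff400040003fff40004000400140023fff = true := by decide +kernel

theorem ok_1551 : oF 0x90001003d0024000140003fff40003ffe40004001400240013fff = true := by decide +kernel

theorem ok_1503 : oF 0x9000100160046000140003fff40003ffe40004001400240013fff = true := by decide +kernel

theorem ok_903 : oF 0x6000200100016000d40003ffe40003ffe40004003400040004001 = true := by decide +kernel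

theorem ok_1184 : oF 0x80000001a000600013fff4000400040003fff4000400340003fff = true := by decide +kernel

end MPbbea99G.E9
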