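import Pool.Agent.Lib.Pbbea99G.E9.Data

/-!
# MP_bbea99_co: windows over the templates
-/

namespace MPbbea99G.E9

open MPbbea99S MPbbea99T MPbbea99G Finset

theorem o_842_857 : allTr oF tr_842_857 = true := by decide +kernel

theorem o_1828_1831 : allTr oF tr_1828_1831 = true := by decide +kernel

theorem o_1559_1566 : allTr oF tr_1559_1566 = true := by decide +kernel

theorem o_1781_1784 : allTr oF tr_1781_1784 = true := by decide +kernel

theorem o_1341_1371 : allTr oF tr_1341_1371 = true := by decide +kernel

theorem o_1948_1951 : allTr oF tr_1948_1951 = true := by decide +kernel

theorem o_1722_1725 : allTr oF tr_1722_1725 = true := by decide +kernel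

theorem o_1839_1842 : allTr oF tr_1839_1842 = true := by decide +kernel

theorem ok_1980 : oF 0x10000000100090001001300130000400040004000400040004000400040004000 = true := by decide +kernel

theorem o_1963_1964 : allTr oF tr_1963_1964 = true := by decide +kernel

theorem ok_1962 : oF 0x10000000100060001000200020000400040004000400040004000400040004000 = true := by decide +kernel

theorem ok_1686 : oF 0x100090000002d00180000400040004000400040013fff3fff40014000 = true := by decide +kernel

theorem ok_1815 : oF 0x1000000000007000200070007000240003fff40003fff40004000400140014000 = true := by decide +kernel

theorem ok_1819 : oF 0x10000000000070002000a000a000240003fff40003fff40004000400140014000 = true := by decide +kernel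

theorem ok_1804 : oF 0x10000000000060002003b003b000240003fff40003fff40004000400140014000 = true := by decide +kernel

theorem ok_1535 : oF 0x9000100380021000240003ffe40003fff3fff4000400240014001 = true := by decide +kernel

theorem ok_826 : oF 0x60001001d001b00023fff3fff40013fff3fff4001400140014000 = true := by decide +kernel

theorem ok_1231 : oF 0x8000100090004000240013fff40003ffe3fff4000400140024000 = true := by decide +kernel

theorem ok_436 : oF 0x30002002f0042000a3fff3ffe3fff3fff40004000400240024001 = true := by decide +kernel

theorem ok_1402 : oF 0x9000000070030000240003ffe40013ffe3fff3fff400340014001 = true := by decide +kernel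

theorem ok_187 : oF 0x2002b0036003c4001400140013fff400040013fff40013ffd = true := by decide +kernel

end MPbbea99G.E9
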