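import Pool.Agent.Lib.Pbbea99G.E9.Data

/-!
# MP_bbea99_co: windows over the templates
-/

namespace MPbbea99G.E9

open MPbbea99S MPbbea99T MPbbea99G Finset

theorem o_1029_1036 : allTr oF tr_1029_1036 = true := by decide +kernel

theorem o_1730_1733 : allTr oF tr_1730_1733 = true := 
  allTr_mk (by decide +kernel) (by decide +kernel) (by decide +kernel)

theorem o_1812_1815 : allTr oF tr_1812_1815 = true := by decide +kernel

theorem o_1765_1768 : allTr oF tr_1765_1768 = true := by decide +kernel

theorem o_1641_1644 : allTr oF tr_1641_1644 = true := by decide +kernel

theorem o_1847_1850 : allTr oF tr_1847_1850 = true := by decide +kernel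

theorem o_1843_1846 : allTr oF tr_1843_1846 = true := by decide +kernel

theorem o_1064_1067 : allTr oF tr_1064_1067 = true := by decide +kernel

theorem ok_1986 : oF 0x10000000100090001001900190000400040004000400040004000400040004000 = true := by decide +kernel

theorem o_1216_1223 : allTr oF tr_1216_1223 = true := by decide +kernel

theorem ok_1854 : oF 0x1000000000007000200460046000240003fff40003fff40004000400140014000 = true := by decide +kernel

theorem o_250_281 : allTr oF tr_250_281 = true := by decide +kernel

theorem ok_1796 : oF 0x1000000000006000200350035000240003fff40003fff40004000400140014000 = true := by decide +kernel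

theorem ok_1947 : oF 0x10000000000090002002d002d000240003fff40003fff40004000400140014000 = true := by decide +kernel

theorem ok_1776 : oF 0x1000000000005000200300030000240003fff40003fff40004000400140014000 = true := by decide +kernel

theorem ok_1519 : oF 0x900010031001d00014000400040013ffe40004000400040014000 = true := by decide +kernel

theorem ok_1800 : oF 0x1000000000006000200380038000140003fff40003fff40004000400140014000 = true := by decide +kernel

theorem ok_506 : oF 0x400010024001300013fff3ffe40003fff40014000400240014000 = true := by decide +kernel

theorem ok_685 : oF 0x50001003d0033000340013fff40003ffe3fff4000400140024000 = true := by decide +kernel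

theorem ok_701 : oF 0x50002000a002c000a3fff3ffd40013fff40004001400140024000 = true := by decide +kernel

end MPbbea99G.E9
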