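import Pool.Agent.Lib.Pbbea99G.E9.Data

/-!
# MP_bbea99_co: windows over the templates
-/

namespace MPbbea99G.E9

open MPbbea99S MPbbea99T MPbbea99G Finset

theorem o_282_289 : allTr oF tr_282_289 = true := by decide +kernel

theorem o_1668_1671 : allTr oF tr_1668_1671 = true := by decide +kernel

theorem o_1761_1764 : allTr oF tr_1761_1764 = true := by decide +kernel

theorem o_648_654 : allTr oF tr_648_654 = true := by decide +kernel

theorem o_1664_1667 : allTr oF tr_1664_1667 = true := by decide +kernel

theorem o_1940_1943 : allTr oF tr_1940_1943 = true := by decide +kernel

theorem o_1271_1278 : allTr oF tr_1271_1278 = true := by decide +kernel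

theorem o_1013_1020 : allTr oF tr_1013_1020 = true := by decide +kernel

theorem o_1973_1974 : allTr oF tr_1973_1974 = true := by decide +kernel

theorem o_1989_1990 : allTr oF tr_1989_1990 = true := by decide +kernel

theorem o_1975_1976 : allTr oF tr_1975_1976 = true := by decide +kernel

theorem ok_1935 : oF 0x1000000000009000200250025000240003fff40003fff40004000400140014000 = true := by decide +kernel

theorem o_1068_1075 : allTr oF tr_1068_1075 = true := by decide +kernel

theorem ok_1760 : oF 0x1000000000005000200210021000240003fff40003fff40004000400140014000 = true := by decide +kernel

theorem ok_880 : oF 0x6000100440035000140003ffe40013fff40004000400040014001 = true := by decide +kernel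

theorem ok_1939 : oF 0x1000000000009000200280028000140003fff40003fff40004000400140014000 = true := by decide +kernel

theorem ok_1317 : oF 0x8000100430040000140003fff40003ffe40004001400140004001 = true := by decide +kernel

theorem ok_289 : oF 0x20001000c0005000240003fff40013fff40014000400140003fff = true := by decide +kernel

theorem ok_281 : oF 0x200010002002b00033fff40003fff40003fff4002400040004001 = true := by decide +kernel

theorem ok_1012 : oF 0x70001000000310006400040013ffe3ffe3fff4002400140023fff = true := by decide +kernel

theorem ok_1480 : oF 0x90001000f000100083fff400040003fff40004000400240004000 = true := by decide +kernel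

end MPbbea99G.E9
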