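import Pool.Agent.Lib.Pbbea99G.E9.Data

/-!
# MP_bbea99_co: windows over the templates
-/

namespace MPbbea99G.E9

open MPbbea99S MPbbea99T MPbbea99G Finset

theorem o_1820_1823 : allTr oF tr_1820_1823 = true := 
  allTr_mk (by decide +kernel) (by decide +kernel) (by decide +kernel)

theorem o_1738_1741 : allTr oF tr_1738_1741 = true := 
  allTr_mk (by decide +kernel) (by decide +kernel) (by decide +kernel)

theorem o_811_826 : allTr oF tr_811_826 = true := by decide +kernel

theorem o_1683_1686 : allTr oF tr_1683_1686 = true := by decide +kernel

theorem o_1797_1800 : allTr oF tr_1797_1800 = true := by decide +kernel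

theorem o_1824_1827 : allTr oF tr_1824_1827 = true := by decide +kernel

theorem o_748_779 : allTr oF tr_748_779 = true := by decide +kernel

theorem o_1805_1807 : allTr oF tr_1805_1807 = true := by decide +kernel

theorem o_717_747 : allTr oF tr_717_747 = true := by decide +kernel

theorem o_1987_1988 : allTr oF tr_1987_1988 = true := by decide +kernel

theorem ok_1667 : oF 0x100090000000d0014000040004001400040003fff3fff400040004001 = true := by decide +kernel

theorem ok_1846 : oF 0x1000000000007000200300030000140003fff40003fff40004000400140014000 = true := by decide +kernel

theorem o_1403_1433 : allTr oF tr_1403_1433 = true := by decide +kernel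

theorem ok_1515 : oF 0x90001001b000e000240003ffe4000400040004001400140004000 = true := by decide +kernel

theorem ok_1823 : oF 0x10000000000070002000e000e000140003fff40003fff40004000400140014000 = true := by decide +kernel

theorem ok_1838 : oF 0x10000000000070002002a002a000140003fff40003fff40004000400140014000 = true := by decide +kernel

theorem ok_810 : oF 0x600010008003c000240003ffe3fff3fff40004001400140024000 = true := by decide +kernel

theorem ok_1020 : oF 0x70001000f000700023fff400040003fff40004000400240004000 = true := by decide +kernel

theorem ok_1340 : oF 0x8000200120009000640013fff3ffe3ffe40004000400240024000 = true := by decide +kernel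

theorem ok_1464 : oF 0x9000000470027000240013ffe40023fff3fff4000400040004001 = true := by decide +kernel

theorem ok_498 : oF 0x40001001f001d00033fff3fff40023ffe40014001400040004000 = true := by decide +kernel

end MPbbea99G.E9
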