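import Pool.Agent.Lib.Pbbea99G.E9.Data

/-!
# MP_bbea99_co: windows over the templates
-/

namespace MPbbea99G.E9

open MPbbea99S MPbbea99T MPbbea99G Finset

theorem o_562_623 : allTr oF tr_562_623 = true := by decide +kernel

theorem o_1660_1663 : allTr oF tr_1660_1663 = true := by decide +kernel

theorem o_1753_1756 : allTr oF tr_1753_1756 = true := by decide +kernel

theorem o_1590_1620 : allTr oF tr_1590_1620 = true := by decide +kernel

theorem o_1552_1558 : allTr oF tr_1552_1558 = true := by decide +kernel

theorem o_1544_1547 : allTr oF tr_1544_1547 = true := by decide +kernel

theorem o_1773_1776 : allTr oF tr_1773_1776 = true := by decide +kernel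

theorem o_780_810 : allTr oF tr_780_810 = true := by decide +kernel

theorem ok_1978 : oF 0x10000000100090001001100110000400040004000400040004000400040004000 = true := by decide +kernel

theorem ok_1982 : oF 0x10000000100090001001500150000400040004000400040004000400040004000 = true := by decide +kernel

theorem o_1528_1535 : allTr oF tr_1528_1535 = true := by decide +kernel

theorem ok_1682 : oF 0x1000900000029001600003fff4000400140003fff4001400040004000 = true := by decide +kernel

theorem ok_1764 : oF 0x1000000000005000200240024000240003fff40003fff40004000400140014000 = true := by decide +kernel

theorem ok_1744 : oF 0x1000000000004000200170017000240003fff40003fff40004000400140014000 = true := by decide +kernel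

theorem ok_1659 : oF 0x1000800000019000d00003fff4001400040004000400040013fff4000 = true := by decide +kernel

theorem ok_1943 : oF 0x10000000000090002002b002b000240003fff40003fff40004000400140014000 = true := by decide +kernel

theorem ok_382 : oF 0x300010016000b00024000400040013ffe40004000400040014000 = true := by decide +kernel

theorem ok_1090 : oF 0x70001003f0028000140003ffe40013fff40004000400140023fff = true := by decide +kernel

theorem ok_872 : oF 0x600010030003d000240013fff3fff3fff40004000400240004000 = true := by decide +kernel

theorem ok_996 : oF 0x70000002c004700013fff3fff40003ffe40013fff400040034001 = true := by decide +kernel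

theorem ok_312 : oF 0x2000200130009000640013fff3ffe3ffe40004000400240024000 = true := by decide +kernel

end MPbbea99G.E9
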