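import Pool.Agent.Lib.Pbbea99G.E9.Data

/-!
# MP_bbea99_co: windows over the templates
-/

namespace MPbbea99G.E9

open MPbbea99S MPbbea99T MPbbea99G Finset

theorem o_1637_1640 : allTr oF tr_1637_1640 = true := 
  allTr_mk (by decide +kernel) (by decide +kernel) (by decide +kernel)

theorem o_858_872 : allTr oF tr_858_872 = true := by decide +kernel

theorem o_1263_1270 : allTr oF tr_1263_1270 = true := by decide +kernel

theorem o_1652_1655 : allTr oF tr_1652_1655 = true := by decide +kernel

theorem o_1536_1543 : allTr oF tr_1536_1543 = true := by decide +kernel

theorem o_1656_1659 : allTr oF tr_1656_1659 = true := by decide +kernel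

theorem o_406_436 : allTr oF tr_406_436 = true := by decide +kernel

theorem o_1769_1772 : allTr oF tr_1769_1772 = true := by decide +kernel

theorem o_1060_1063 : allTr oF tr_1060_1063 = true := by decide +kernel

theorem ok_1371 : oF 0x800020034001f000640003fff40003fff40004000400140014000 = true := by decide +kernel

theorem o_437_467 : allTr oF tr_437_467 = true := by decide +kernel

theorem ok_1648 : oF 0x100080000000f000700003fff4001400040004000400040013fff4000 = true := by decide +kernel

theorem ok_1827 : oF 0x1000000000007000200210021000140003fff40003fff40004000400140014000 = true := by decide +kernel

theorem ok_1495 : oF 0x900010014000a000140013fff3fff3fff40004000400040014001 = true := by decide +kernel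

theorem ok_1725 : oF 0x1000000000002000200060006000240003fff40003fff40004000400140014000 = true := by decide +kernel

theorem ok_1756 : oF 0x10000000000050002001d001d000240003fff40003fff40004000400140014000 = true := by decide +kernel

theorem ok_1717 : oF 0x10000000100010004000100014001400040003fff40003fff400140013fff = true := by decide +kernel

theorem ok_654 : oF 0x50001001a000d00013fff400040003fff40004000400240004000 = true := by decide +kernel

theorem ok_1325 : oF 0x800020000002300043fff3ffe3fff400040014001400140014000 = true := by decide +kernel

theorem ok_747 : oF 0x50002002e0038000540003fff3ffe3fff40004001400140014001 = true := by decide +kernel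

theorem ok_1543 : oF 0x90001003a0035000440003ffd40023fff3fff4001400040004002 = true := by decide +kernel

end MPbbea99G.E9
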