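import Pool.Agent.Lib.Pbbea99G.E9.Data

/-!
# MP_bbea99_co: windows over the templates
-/

namespace MPbbea99G.E9

open MPbbea99S MPbbea99T MPbbea99G Finset

theorem o_1870_1873 : allTr oF tr_1870_1873 = true := by decide +kernel

theorem o_507_514 : allTr oF tr_507_514 = true := 
  allTr_mk (by decide +kernel) (by decide +kernel) (by decide +kernel)

theorem o_0_124 : allTr oF tr_0_124 = true := by decide +kernel

theorem o_515_530 : allTr oF tr_515_530 = true := by decide +kernel

theorem o_655_662 : allTr oF tr_655_662 = true := by decide +kernel

theorem o_1793_1796 : allTr oF tr_1793_1796 = true := by decide +kernel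

theorem o_1745_1748 : allTr oF tr_1745_1748 = true := by decide +kernel

theorem o_1680_1682 : allTr oF tr_1680_1682 = true := by decide +kernel

theorem o_1742_1744 : allTr oF tr_1742_1744 = true := by decide +kernel

theorem o_1548_1551 : allTr oF tr_1548_1551 = true := by decide +kernel

theorem ok_1970 : oF 0x10000000100080001000a000a0000400040004000400040004000400040004000 = true := by decide +kernel

theorem ok_1897 : oF 0x10000000000080002003a003a000240003fff40003fff40004000400140014000 = true := by decide +kernel

theorem ok_1955 : oF 0x1000000000009000200430043000140003fff40003fff40004000400140014000 = true := by decide +kernel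

theorem ok_1928 : oF 0x1000000000009000200210021000240003fff40003fff40004000400140014000 = true := by decide +kernel

theorem o_468_483 : allTr oF tr_468_483 = true := by decide +kernel

theorem ok_1811 : oF 0x1000000000006000200400040000240003fff40003fff40004000400140014000 = true := by decide +kernel

theorem ok_374 : oF 0x300010011000800013fff3fff40003fff40014001400040014000 = true := by decide +kernel

theorem ok_1511 : oF 0x90001001a000d00013fff400040003fff40004000400240004000 = true := by decide +kernel

theorem ok_483 : oF 0x40001000a002c000440003ffd40013ffe3fff4001400140034000 = true := by decide +kernel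

theorem ok_888 : oF 0x6000200030000000a3fff4000400040014001400040003fff4000 = true := by decide +kernel

theorem ok_1075 : oF 0x700010039001c000540003fff3ffe40003fff4001400040024001 = true := by decide +kernel

end MPbbea99G.E9
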