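import Pool.Agent.Lib.Pbbea99G.E9.Hyp
import Pool.Agent.Lib.Pbbea99G.E9.Out
import Pool.Agent.Lib.Pbbea99G.E9.C00
import Pool.Agent.Lib.Pbbea99G.E9.C01
import Pool.Agent.Lib.Pbbea99G.E9.C02
import Pool.Agent.Lib.Pbbea99G.E9.C03
import Pool.Agent.Lib.Pbbea99G.E9.C04
import Pool.Agent.Lib.Pbbea99G.E9.C05
import Pool.Agent.Lib.Pbbea99G.E9.C06
import Pool.Agent.Lib.Pbbea99G.E9.C07
import Pool.Agent.Lib.Pbbea99G.E9.C08
import Pool.Agent.Lib.Pbbea99G.E9.C09
import Pool.Agent.Lib.Pbbea99G.E9.C10
import Pool.Agent.Lib.Pbbea99G.E9.C11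
import Pool.Agent.Lib.Pbbea99G.E9.C12
import Pool.Agent.Lib.Pbbea99G.E9.C13
import Pool.Agent.Lib.Pbbea99G.E9.C14
import Pool.Agent.Lib.Pbbea99G.E9.C15
import Pool.Agent.Lib.Pbbea99G.E9.C16
import Pool.Agent.Lib.Pbbea99G.E9.C17
import Pool.Agent.Lib.Pbbea99G.E9.C18
import Pool.Agent.Lib.Pbbea99G.E9.C19
import Pool.Agent.Lib.Pbbea99G.E9.C20
import Pool.Agent.Lib.Pbbea99G.E9.C21
import Pool.Agent.Lib.Pbbea99G.E9.C22
import Pool.Agent.Lib.Pbbea99G.E9.C23
import Pool.Agent.Lib.Pbbea99G.E9.C24
import Pool.Agent.Lib.Pbbea99G.E9.C25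
import Pool.Agent.Lib.Pbbea99G.E9.C26
import Pool.Agent.Lib.Pbbea99G.E9.C27
import Pool.Agent.Lib.Pbbea99G.E9.C28
import Pool.Agent.Lib.Pbbea99G.E9.C29
import Pool.Agent.Lib.Pbbea99G.E9.C30
import Pool.Agent.Lib.Pbbea99G.E9.C31
import Pool.Agent.Lib.Pbbea99G.E9.C32
import Pool.Agent.Lib.Pbbea99G.E9.C33
import Pool.Agent.Lib.Pbbea99G.E9.C34
import Pool.Agent.Lib.Pbbea99G.E9.C35
import Pool.Agent.Lib.Pbbea99G.E9.C36
import Pool.Agent.Lib.Pbbea99G.E9.C37
import Pool.Agent.Lib.Pbbea99G.E9.C38
import Pool.Agent.Lib.Pbbea99G.E9.O00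
import Pool.Agent.Lib.Pbbea99G.E9.O01
import Pool.Agent.Lib.Pbbea99G.E9.O02
import Pool.Agent.Lib.Pbbea99G.E9.O03
import Pool.Agent.Lib.Pbbea99G.E9.O04
import Pool.Agent.Lib.Pbbea99G.E9.O05
import Pool.Agent.Lib.Pbbea99G.E9.O06
import Pool.Agent.Lib.Pbbea99G.E9.O07
import Pool.Agent.Lib.Pbbea99G.E9.O08
import Pool.Agent.Lib.Pbbea99G.E9.O09
import Pool.Agent.Lib.Pbbea99G.E9.O10
import Pool.Agent.Lib.Pbbea99G.E9.O11
import Pool.Agent.Lib.Pbbea99G.E9.O12
import Pool.Agent.Lib.Pbbea99G.E9.O13
import Pool.Agent.Lib.Pbbea99G.E9.O14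
import Pool.Agent.Lib.Pbbea99G.E9.O15
import Pool.Agent.Lib.Pbbea99G.E9.O16
import Pool.Agent.Lib.Pbbea99G.E9.O17

/-!
# MP_bbea99_co: the word on 9 letters
-/

namespace MPbbea99G.E9

open MPbbea99S MPbbea99T MPbbea99G Finset

theorem c_1556_1558 : allTr (chkV P V lk) tr_1556_1558 = true := allTr_mk ck_1557 c_1556_1557 rfl

theorem c_1587_1589 : allTr (chkV P V lk) tr_1587_1589 = true := allTr_mk ck_1588 c_1587_1588 rfl

theorem c_1649_1651 : allTr (chkV P V lk) tr_1649_1651 = true := allTr_mk ck_1650 c_1649_1650 rfl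

theorem c_1680_1682 : allTr (chkV P V lk) tr_1680_1682 = true := allTr_mk ck_1681 c_1680_1681 rfl

theorem c_1742_1744 : allTr (chkV P V lk) tr_1742_1744 = true := allTr_mk ck_1743 c_1742_1743 rfl

theorem c_1805_1807 : allTr (chkV P V lk) tr_1805_1807 = true := allTr_mk ck_1806 c_1805_1806 rfl

theorem c_1836_1838 : allTr (chkV P V lk) tr_1836_1838 = true := allTr_mk ck_1837 c_1836_1837 rfl

theorem c_1867_1869 : allTr (chkV P V lk) tr_1867_1869 = true := allTr_mk ck_1868 c_1867_1868 rfl

theorem c_1898_1900 : allTr (chkV P V lk) tr_1898_1900 = true := allTr_mk ck_1899 c_1898_1899 rfl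

theorem c_1929_1931 : allTr (chkV P V lk) tr_1929_1931 = true := allTr_mk ck_1930 c_1929_1930 rfl

theorem c_1960_1962 : allTr (chkV P V lk) tr_1960_1962 = true := allTr_mk ck_1961 c_1960_1961 rfl

theorem c_1991_1993 : allTr (chkV P V lk) tr_1991_1993 = true := allTr_mk ck_1992 c_1991_1992 rfl

theorem c_282_285 : allTr (chkV P V lk) tr_282_285 = true := allTr_mk ck_283 c_282_283 c_284_285

theorem c_290_293 : allTr (chkV P V lk) tr_290_293 = true := allTr_mk ck_291 c_290_291 c_292_293

theorem c_515_518 : allTr (chkV P V lk) tr_515_518 = true := allTr_mk ck_516 c_515_516 c_517_518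

theorem c_686_689 : allTr (chkV P V lk) tr_686_689 = true := allTr_mk ck_687 c_686_687 c_688_689

theorem c_1060_1063 : allTr (chkV P V lk) tr_1060_1063 = true := allTr_mk ck_1061 c_1060_1061 c_1062_1063

theorem c_1064_1067 : allTr (chkV P V lk) tr_1064_1067 = true := allTr_mk ck_1065 c_1064_1065 c_1066_1067

theorem c_1224_1227 : allTr (chkV P V lk) tr_1224_1227 = true := allTr_mk ck_1225 c_1224_1225 c_1226_1227

theorem c_1299_1302 : allTr (chkV P V lk) tr_1299_1302 = true := allTr_mk ck_1300 c_1299_1300 c_1301_1302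

theorem c_1314_1317 : allTr (chkV P V lk) tr_1314_1317 = true := allTr_mk ck_1315 c_1314_1315 c_1316_1317

theorem c_1465_1468 : allTr (chkV P V lk) tr_1465_1468 = true := allTr_mk ck_1466 c_1465_1466 c_1467_1468

theorem c_1473_1476 : allTr (chkV P V lk) tr_1473_1476 = true := allTr_mk ck_1474 c_1473_1474 c_1475_1476

theorem c_1477_1480 : allTr (chkV P V lk) tr_1477_1480 = true := allTr_mk ck_1478 c_1477_1478 c_1479_1480

theorem c_1524_1527 : allTr (chkV P V lk) tr_1524_1527 = true := allTr_mk ck_1525 c_1524_1525 c_1526_1527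

theorem c_1544_1547 : allTr (chkV P V lk) tr_1544_1547 = true := allTr_mk ck_1545 c_1544_1545 c_1546_1547

theorem c_1552_1555 : allTr (chkV P V lk) tr_1552_1555 = true := allTr_mk ck_1553 c_1552_1553 c_1554_1555

theorem c_1621_1624 : allTr (chkV P V lk) tr_1621_1624 = true := allTr_mk ck_1622 c_1621_1622 c_1623_1624

theorem c_1637_1640 : allTr (chkV P V lk) tr_1637_1640 = true := allTr_mk ck_1638 c_1637_1638 c_1639_1640

theorem c_1641_1644 : allTr (chkV P V lk) tr_1641_1644 = true := allTr_mk ck_1642 c_1641_1642 c_1643_1644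

theorem c_1645_1648 : allTr (chkV P V lk) tr_1645_1648 = true := allTr_mk ck_1646 c_1645_1646 c_1647_1648

theorem c_1652_1655 : allTr (chkV P V lk) tr_1652_1655 = true := allTr_mk ck_1653 c_1652_1653 c_1654_1655

theorem c_1656_1659 : allTr (chkV P V lk) tr_1656_1659 = true := allTr_mk ck_1657 c_1656_1657 c_1658_1659

theorem c_1660_1663 : allTr (chkV P V lk) tr_1660_1663 = true := allTr_mk ck_1661 c_1660_1661 c_1662_1663

theorem c_1664_1667 : allTr (chkV P V lk) tr_1664_1667 = true := allTr_mk ck_1665 c_1664_1665 c_1666_1667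

theorem c_1668_1671 : allTr (chkV P V lk) tr_1668_1671 = true := allTr_mk ck_1669 c_1668_1669 c_1670_1671

theorem c_1672_1675 : allTr (chkV P V lk) tr_1672_1675 = true := allTr_mk ck_1673 c_1672_1673 c_1674_1675

theorem c_1676_1679 : allTr (chkV P V lk) tr_1676_1679 = true := allTr_mk ck_1677 c_1676_1677 c_1678_1679

theorem c_1683_1686 : allTr (chkV P V lk) tr_1683_1686 = true := allTr_mk ck_1684 c_1683_1684 c_1685_1686

theorem c_1687_1690 : allTr (chkV P V lk) tr_1687_1690 = true := allTr_mk ck_1688 c_1687_1688 c_1689_1690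

theorem c_1714_1717 : allTr (chkV P V lk) tr_1714_1717 = true := allTr_mk ck_1715 c_1714_1715 c_1716_1717

theorem c_1718_1721 : allTr (chkV P V lk) tr_1718_1721 = true := allTr_mk ck_1719 c_1718_1719 c_1720_1721

theorem c_1722_1725 : allTr (chkV P V lk) tr_1722_1725 = true := allTr_mk ck_1723 c_1722_1723 c_1724_1725

theorem c_1726_1729 : allTr (chkV P V lk) tr_1726_1729 = true := allTr_mk ck_1727 c_1726_1727 c_1728_1729

theorem c_1730_1733 : allTr (chkV P V lk) tr_1730_1733 = true := allTr_mk ck_1731 c_1730_1731 c_1732_1733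

theorem c_1734_1737 : allTr (chkV P V lk) tr_1734_1737 = true := allTr_mk ck_1735 c_1734_1735 c_1736_1737

theorem c_1738_1741 : allTr (chkV P V lk) tr_1738_1741 = true := allTr_mk ck_1739 c_1738_1739 c_1740_1741

theorem c_1745_1748 : allTr (chkV P V lk) tr_1745_1748 = true := allTr_mk ck_1746 c_1745_1746 c_1747_1748

theorem c_1749_1752 : allTr (chkV P V lk) tr_1749_1752 = true := allTr_mk ck_1750 c_1749_1750 c_1751_1752

theorem c_1753_1756 : allTr (chkV P V lk) tr_1753_1756 = true := allTr_mk ck_1754 c_1753_1754 c_1755_1756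

theorem c_1757_1760 : allTr (chkV P V lk) tr_1757_1760 = true := allTr_mk ck_1758 c_1757_1758 c_1759_1760

theorem c_1761_1764 : allTr (chkV P V lk) tr_1761_1764 = true := allTr_mk ck_1762 c_1761_1762 c_1763_1764

theorem c_1765_1768 : allTr (chkV P V lk) tr_1765_1768 = true := allTr_mk ck_1766 c_1765_1766 c_1767_1768

theorem c_1769_1772 : allTr (chkV P V lk) tr_1769_1772 = true := allTr_mk ck_1770 c_1769_1770 c_1771_1772

theorem c_1773_1776 : allTr (chkV P V lk) tr_1773_1776 = true := allTr_mk ck_1774 c_1773_1774 c_1775_1776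

theorem c_1777_1780 : allTr (chkV P V lk) tr_1777_1780 = true := allTr_mk ck_1778 c_1777_1778 c_1779_1780

theorem c_1781_1784 : allTr (chkV P V lk) tr_1781_1784 = true := allTr_mk ck_1782 c_1781_1782 c_1783_1784

theorem c_1785_1788 : allTr (chkV P V lk) tr_1785_1788 = true := allTr_mk ck_1786 c_1785_1786 c_1787_1788

theorem c_1789_1792 : allTr (chkV P V lk) tr_1789_1792 = true := allTr_mk ck_1790 c_1789_1790 c_1791_1792

theorem c_1793_1796 : allTr (chkV P V lk) tr_1793_1796 = true := allTr_mk ck_1794 c_1793_1794 c_1795_1796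

theorem c_1797_1800 : allTr (chkV P V lk) tr_1797_1800 = true := allTr_mk ck_1798 c_1797_1798 c_1799_1800

theorem c_1801_1804 : allTr (chkV P V lk) tr_1801_1804 = true := allTr_mk ck_1802 c_1801_1802 c_1803_1804

theorem c_1808_1811 : allTr (chkV P V lk) tr_1808_1811 = true := allTr_mk ck_1809 c_1808_1809 c_1810_1811

theorem c_1812_1815 : allTr (chkV P V lk) tr_1812_1815 = true := allTr_mk ck_1813 c_1812_1813 c_1814_1815

theorem c_1816_1819 : allTr (chkV P V lk) tr_1816_1819 = true := allTr_mk ck_1817 c_1816_1817 c_1818_1819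

theorem c_1820_1823 : allTr (chkV P V lk) tr_1820_1823 = true := allTr_mk ck_1821 c_1820_1821 c_1822_1823

theorem c_1824_1827 : allTr (chkV P V lk) tr_1824_1827 = true := allTr_mk ck_1825 c_1824_1825 c_1826_1827

theorem c_1828_1831 : allTr (chkV P V lk) tr_1828_1831 = true := allTr_mk ck_1829 c_1828_1829 c_1830_1831

theorem c_1832_1835 : allTr (chkV P V lk) tr_1832_1835 = true := allTr_mk ck_1833 c_1832_1833 c_1834_1835

theorem c_1839_1842 : allTr (chkV P V lk) tr_1839_1842 = true := allTr_mk ck_1840 c_1839_1840 c_1841_1842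

theorem c_1843_1846 : allTr (chkV P V lk) tr_1843_1846 = true := allTr_mk ck_1844 c_1843_1844 c_1845_1846

theorem c_1847_1850 : allTr (chkV P V lk) tr_1847_1850 = true := allTr_mk ck_1848 c_1847_1848 c_1849_1850

theorem c_1851_1854 : allTr (chkV P V lk) tr_1851_1854 = true := allTr_mk ck_1852 c_1851_1852 c_1853_1854

theorem c_1855_1858 : allTr (chkV P V lk) tr_1855_1858 = true := allTr_mk ck_1856 c_1855_1856 c_1857_1858

theorem c_1859_1862 : allTr (chkV P V lk) tr_1859_1862 = true := allTr_mk ck_1860 c_1859_1860 c_1861_1862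

theorem c_1863_1866 : allTr (chkV P V lk) tr_1863_1866 = true := allTr_mk ck_1864 c_1863_1864 c_1865_1866

theorem c_1870_1873 : allTr (chkV P V lk) tr_1870_1873 = true := allTr_mk ck_1871 c_1870_1871 c_1872_1873

theorem c_1874_1877 : allTr (chkV P V lk) tr_1874_1877 = true := allTr_mk ck_1875 c_1874_1875 c_1876_1877

theorem c_1878_1881 : allTr (chkV P V lk) tr_1878_1881 = true := allTr_mk ck_1879 c_1878_1879 c_1880_1881

theorem c_1882_1885 : allTr (chkV P V lk) tr_1882_1885 = true := allTr_mk ck_1883 c_1882_1883 c_1884_1885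

theorem c_1886_1889 : allTr (chkV P V lk) tr_1886_1889 = true := allTr_mk ck_1887 c_1886_1887 c_1888_1889

theorem c_1890_1893 : allTr (chkV P V lk) tr_1890_1893 = true := allTr_mk ck_1891 c_1890_1891 c_1892_1893

theorem c_1894_1897 : allTr (chkV P V lk) tr_1894_1897 = true := allTr_mk ck_1895 c_1894_1895 c_1896_1897

theorem c_1901_1904 : allTr (chkV P V lk) tr_1901_1904 = true := allTr_mk ck_1902 c_1901_1902 c_1903_1904

theorem c_1905_1908 : allTr (chkV P V lk) tr_1905_1908 = true := allTr_mk ck_1906 c_1905_1906 c_1907_1908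

theorem c_1909_1912 : allTr (chkV P V lk) tr_1909_1912 = true := allTr_mk ck_1910 c_1909_1910 c_1911_1912

theorem c_1913_1916 : allTr (chkV P V lk) tr_1913_1916 = true := allTr_mk ck_1914 c_1913_1914 c_1915_1916

theorem c_1917_1920 : allTr (chkV P V lk) tr_1917_1920 = true := allTr_mk ck_1918 c_1917_1918 c_1919_1920

theorem c_1921_1924 : allTr (chkV P V lk) tr_1921_1924 = true := allTr_mk ck_1922 c_1921_1922 c_1923_1924

theorem c_1925_1928 : allTr (chkV P V lk) tr_1925_1928 = true := allTr_mk ck_1926 c_1925_1926 c_1927_1928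

theorem c_1932_1935 : allTr (chkV P V lk) tr_1932_1935 = true := allTr_mk ck_1933 c_1932_1933 c_1934_1935

theorem c_1936_1939 : allTr (chkV P V lk) tr_1936_1939 = true := allTr_mk ck_1937 c_1936_1937 c_1938_1939

theorem c_1940_1943 : allTr (chkV P V lk) tr_1940_1943 = true := allTr_mk ck_1941 c_1940_1941 c_1942_1943

theorem c_1944_1947 : allTr (chkV P V lk) tr_1944_1947 = true := allTr_mk ck_1945 c_1944_1945 c_1946_1947

theorem c_1948_1951 : allTr (chkV P V lk) tr_1948_1951 = true := allTr_mk ck_1949 c_1948_1949 c_1950_1951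

theorem c_1952_1955 : allTr (chkV P V lk) tr_1952_1955 = true := allTr_mk ck_1953 c_1952_1953 c_1954_1955

theorem c_1956_1959 : allTr (chkV P V lk) tr_1956_1959 = true := allTr_mk ck_1957 c_1956_1957 c_1958_1959

theorem c_1963_1966 : allTr (chkV P V lk) tr_1963_1966 = true := allTr_mk ck_1964 c_1963_1964 c_1965_1966

theorem c_1967_1970 : allTr (chkV P V lk) tr_1967_1970 = true := allTr_mk ck_1968 c_1967_1968 c_1969_1970

theorem c_1971_1974 : allTr (chkV P V lk) tr_1971_1974 = true := allTr_mk ck_1972 c_1971_1972 c_1973_1974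

theorem c_1975_1978 : allTr (chkV P V lk) tr_1975_1978 = true := allTr_mk ck_1976 c_1975_1976 c_1977_1978

theorem c_1979_1982 : allTr (chkV P V lk) tr_1979_1982 = true := allTr_mk ck_1980 c_1979_1980 c_1981_1982

theorem c_1983_1986 : allTr (chkV P V lk) tr_1983_1986 = true := allTr_mk ck_1984 c_1983_1984 c_1985_1986

theorem c_1987_1990 : allTr (chkV P V lk) tr_1987_1990 = true := allTr_mk ck_1988 c_1987_1988 c_1989_1990

theorem c_368_374 : allTr (chkV P V lk) tr_368_374 = true := allTr_mk ck_371 c_368_371 c_372_374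

theorem c_492_498 : allTr (chkV P V lk) tr_492_498 = true := allTr_mk ck_495 c_492_495 c_496_498

theorem c_648_654 : allTr (chkV P V lk) tr_648_654 = true := allTr_mk ck_651 c_648_651 c_652_654

theorem c_1053_1059 : allTr (chkV P V lk) tr_1053_1059 = true := allTr_mk ck_1056 c_1053_1056 c_1057_1059

theorem c_1084_1090 : allTr (chkV P V lk) tr_1084_1090 = true := allTr_mk ck_1087 c_1084_1087 c_1088_1090

theorem c_1240_1246 : allTr (chkV P V lk) tr_1240_1246 = true := allTr_mk ck_1243 c_1240_1243 c_1244_1246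

theorem c_1303_1309 : allTr (chkV P V lk) tr_1303_1309 = true := allTr_mk ck_1306 c_1303_1306 c_1307_1309

theorem c_1489_1495 : allTr (chkV P V lk) tr_1489_1495 = true := allTr_mk ck_1492 c_1489_1492 c_1493_1495

theorem c_1552_1558 : allTr (chkV P V lk) tr_1552_1558 = true := allTr_mk ck_1555 c_1552_1555 c_1556_1558

theorem c_1583_1589 : allTr (chkV P V lk) tr_1583_1589 = true := allTr_mk ck_1586 c_1583_1586 c_1587_1589

theorem c_1645_1651 : allTr (chkV P V lk) tr_1645_1651 = true := allTr_mk ck_1648 c_1645_1648 c_1649_1651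

theorem c_1676_1682 : allTr (chkV P V lk) tr_1676_1682 = true := allTr_mk ck_1679 c_1676_1679 c_1680_1682

theorem c_1738_1744 : allTr (chkV P V lk) tr_1738_1744 = true := allTr_mk ck_1741 c_1738_1741 c_1742_1744

theorem c_1801_1807 : allTr (chkV P V lk) tr_1801_1807 = true := allTr_mk ck_1804 c_1801_1804 c_1805_1807

theorem c_1832_1838 : allTr (chkV P V lk) tr_1832_1838 = true := allTr_mk ck_1835 c_1832_1835 c_1836_1838

theorem c_1863_1869 : allTr (chkV P V lk) tr_1863_1869 = true := allTr_mk ck_1866 c_1863_1866 c_1867_1869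

theorem c_1894_1900 : allTr (chkV P V lk) tr_1894_1900 = true := allTr_mk ck_1897 c_1894_1897 c_1898_1900

theorem c_1925_1931 : allTr (chkV P V lk) tr_1925_1931 = true := allTr_mk ck_1928 c_1925_1928 c_1929_1931

theorem c_1956_1962 : allTr (chkV P V lk) tr_1956_1962 = true := allTr_mk ck_1959 c_1956_1959 c_1960_1962

theorem c_1987_1993 : allTr (chkV P V lk) tr_1987_1993 = true := allTr_mk ck_1990 c_1987_1990 c_1991_1993

theorem c_282_289 : allTr (chkV P V lk) tr_282_289 = true := allTr_mk ck_285 c_282_285 c_286_289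

theorem c_290_297 : allTr (chkV P V lk) tr_290_297 = true := allTr_mk ck_293 c_290_293 c_294_297

theorem c_375_382 : allTr (chkV P V lk) tr_375_382 = true := allTr_mk ck_378 c_375_378 c_379_382

theorem c_383_390 : allTr (chkV P V lk) tr_383_390 = true := allTr_mk ck_386 c_383_386 c_387_390

theorem c_484_491 : allTr (chkV P V lk) tr_484_491 = true := allTr_mk ck_487 c_484_487 c_488_491

theorem c_507_514 : allTr (chkV P V lk) tr_507_514 = true := allTr_mk ck_510 c_507_510 c_511_514

theorem c_515_522 : allTr (chkV P V lk) tr_515_522 = true := allTr_mk ck_518 c_515_518 c_519_522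

theorem c_640_647 : allTr (chkV P V lk) tr_640_647 = true := allTr_mk ck_643 c_640_643 c_644_647

theorem c_655_662 : allTr (chkV P V lk) tr_655_662 = true := allTr_mk ck_658 c_655_658 c_659_662

theorem c_671_678 : allTr (chkV P V lk) tr_671_678 = true := allTr_mk ck_674 c_671_674 c_675_678

theorem c_686_693 : allTr (chkV P V lk) tr_686_693 = true := allTr_mk ck_689 c_686_689 c_690_693

theorem c_842_849 : allTr (chkV P V lk) tr_842_849 = true := allTr_mk ck_845 c_842_845 c_846_849

theorem c_850_857 : allTr (chkV P V lk) tr_850_857 = true := allTr_mk ck_853 c_850_853 c_854_857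

theorem c_858_865 : allTr (chkV P V lk) tr_858_865 = true := allTr_mk ck_861 c_858_861 c_862_865

theorem c_873_880 : allTr (chkV P V lk) tr_873_880 = true := allTr_mk ck_876 c_873_876 c_877_880

theorem c_1013_1020 : allTr (chkV P V lk) tr_1013_1020 = true := allTr_mk ck_1016 c_1013_1016 c_1017_1020

theorem c_1021_1028 : allTr (chkV P V lk) tr_1021_1028 = true := allTr_mk ck_1024 c_1021_1024 c_1025_1028

theorem c_1029_1036 : allTr (chkV P V lk) tr_1029_1036 = true := allTr_mk ck_1032 c_1029_1032 c_1033_1036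

theorem c_1060_1067 : allTr (chkV P V lk) tr_1060_1067 = true := allTr_mk ck_1063 c_1060_1063 c_1064_1067

theorem c_1076_1083 : allTr (chkV P V lk) tr_1076_1083 = true := allTr_mk ck_1079 c_1076_1079 c_1080_1083

theorem c_1224_1231 : allTr (chkV P V lk) tr_1224_1231 = true := allTr_mk ck_1227 c_1224_1227 c_1228_1231

theorem c_1232_1239 : allTr (chkV P V lk) tr_1232_1239 = true := allTr_mk ck_1235 c_1232_1235 c_1236_1239

theorem c_1247_1254 : allTr (chkV P V lk) tr_1247_1254 = true := allTr_mk ck_1250 c_1247_1250 c_1251_1254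

theorem c_1287_1294 : allTr (chkV P V lk) tr_1287_1294 = true := allTr_mk ck_1290 c_1287_1290 c_1291_1294

theorem c_1295_1302 : allTr (chkV P V lk) tr_1295_1302 = true := allTr_mk ck_1298 c_1295_1298 c_1299_1302

theorem c_1310_1317 : allTr (chkV P V lk) tr_1310_1317 = true := allTr_mk ck_1313 c_1310_1313 c_1314_1317

theorem c_1465_1472 : allTr (chkV P V lk) tr_1465_1472 = true := allTr_mk ck_1468 c_1465_1468 c_1469_1472

theorem c_1473_1480 : allTr (chkV P V lk) tr_1473_1480 = true := allTr_mk ck_1476 c_1473_1476 c_1477_1480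

theorem c_1496_1503 : allTr (chkV P V lk) tr_1496_1503 = true := allTr_mk ck_1499 c_1496_1499 c_1500_1503

theorem c_1504_1511 : allTr (chkV P V lk) tr_1504_1511 = true := allTr_mk ck_1507 c_1504_1507 c_1508_1511

theorem c_1512_1519 : allTr (chkV P V lk) tr_1512_1519 = true := allTr_mk ck_1515 c_1512_1515 c_1516_1519

theorem c_1520_1527 : allTr (chkV P V lk) tr_1520_1527 = true := allTr_mk ck_1523 c_1520_1523 c_1524_1527

theorem c_1544_1551 : allTr (chkV P V lk) tr_1544_1551 = true := allTr_mk ck_1547 c_1544_1547 c_1548_1551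

theorem c_1559_1566 : allTr (chkV P V lk) tr_1559_1566 = true := allTr_mk ck_1562 c_1559_1562 c_1563_1566

theorem c_1621_1628 : allTr (chkV P V lk) tr_1621_1628 = true := allTr_mk ck_1624 c_1621_1624 c_1625_1628

theorem c_1637_1644 : allTr (chkV P V lk) tr_1637_1644 = true := allTr_mk ck_1640 c_1637_1640 c_1641_1644

theorem c_1652_1659 : allTr (chkV P V lk) tr_1652_1659 = true := allTr_mk ck_1655 c_1652_1655 c_1656_1659

theorem c_1660_1667 : allTr (chkV P V lk) tr_1660_1667 = true := allTr_mk ck_1663 c_1660_1663 c_1664_1667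

theorem c_1668_1675 : allTr (chkV P V lk) tr_1668_1675 = true := allTr_mk ck_1671 c_1668_1671 c_1672_1675

theorem c_1683_1690 : allTr (chkV P V lk) tr_1683_1690 = true := allTr_mk ck_1686 c_1683_1686 c_1687_1690

theorem c_1714_1721 : allTr (chkV P V lk) tr_1714_1721 = true := allTr_mk ck_1717 c_1714_1717 c_1718_1721

theorem c_1722_1729 : allTr (chkV P V lk) tr_1722_1729 = true := allTr_mk ck_1725 c_1722_1725 c_1726_1729

theorem c_1730_1737 : allTr (chkV P V lk) tr_1730_1737 = true := allTr_mk ck_1733 c_1730_1733 c_1734_1737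

theorem c_1745_1752 : allTr (chkV P V lk) tr_1745_1752 = true := allTr_mk ck_1748 c_1745_1748 c_1749_1752

theorem c_1753_1760 : allTr (chkV P V lk) tr_1753_1760 = true := allTr_mk ck_1756 c_1753_1756 c_1757_1760

theorem c_1761_1768 : allTr (chkV P V lk) tr_1761_1768 = true := allTr_mk ck_1764 c_1761_1764 c_1765_1768

theorem c_1769_1776 : allTr (chkV P V lk) tr_1769_1776 = true := allTr_mk ck_1772 c_1769_1772 c_1773_1776

theorem c_1777_1784 : allTr (chkV P V lk) tr_1777_1784 = true := allTr_mk ck_1780 c_1777_1780 c_1781_1784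

theorem c_1785_1792 : allTr (chkV P V lk) tr_1785_1792 = true := allTr_mk ck_1788 c_1785_1788 c_1789_1792

theorem c_1793_1800 : allTr (chkV P V lk) tr_1793_1800 = true := allTr_mk ck_1796 c_1793_1796 c_1797_1800

theorem c_1808_1815 : allTr (chkV P V lk) tr_1808_1815 = true := allTr_mk ck_1811 c_1808_1811 c_1812_1815

theorem c_1816_1823 : allTr (chkV P V lk) tr_1816_1823 = true := allTr_mk ck_1819 c_1816_1819 c_1820_1823

theorem c_1824_1831 : allTr (chkV P V lk) tr_1824_1831 = true := allTr_mk ck_1827 c_1824_1827 c_1828_1831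

theorem c_1839_1846 : allTr (chkV P V lk) tr_1839_1846 = true := allTr_mk ck_1842 c_1839_1842 c_1843_1846

theorem c_1847_1854 : allTr (chkV P V lk) tr_1847_1854 = true := allTr_mk ck_1850 c_1847_1850 c_1851_1854

theorem c_1855_1862 : allTr (chkV P V lk) tr_1855_1862 = true := allTr_mk ck_1858 c_1855_1858 c_1859_1862

theorem c_1870_1877 : allTr (chkV P V lk) tr_1870_1877 = true := allTr_mk ck_1873 c_1870_1873 c_1874_1877

theorem c_1878_1885 : allTr (chkV P V lk) tr_1878_1885 = true := allTr_mk ck_1881 c_1878_1881 c_1882_1885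

theorem c_1886_1893 : allTr (chkV P V lk) tr_1886_1893 = true := allTr_mk ck_1889 c_1886_1889 c_1890_1893

theorem c_1901_1908 : allTr (chkV P V lk) tr_1901_1908 = true := allTr_mk ck_1904 c_1901_1904 c_1905_1908

theorem c_1909_1916 : allTr (chkV P V lk) tr_1909_1916 = true := allTr_mk ck_1912 c_1909_1912 c_1913_1916

theorem c_1917_1924 : allTr (chkV P V lk) tr_1917_1924 = true := allTr_mk ck_1920 c_1917_1920 c_1921_1924

theorem c_1932_1939 : allTr (chkV P V lk) tr_1932_1939 = true := allTr_mk ck_1935 c_1932_1935 c_1936_1939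

theorem c_1940_1947 : allTr (chkV P V lk) tr_1940_1947 = true := allTr_mk ck_1943 c_1940_1943 c_1944_1947

theorem c_1948_1955 : allTr (chkV P V lk) tr_1948_1955 = true := allTr_mk ck_1951 c_1948_1951 c_1952_1955

theorem c_1963_1970 : allTr (chkV P V lk) tr_1963_1970 = true := allTr_mk ck_1966 c_1963_1966 c_1967_1970

theorem c_1971_1978 : allTr (chkV P V lk) tr_1971_1978 = true := allTr_mk ck_1974 c_1971_1974 c_1975_1978

theorem c_1979_1986 : allTr (chkV P V lk) tr_1979_1986 = true := allTr_mk ck_1982 c_1979_1982 c_1983_1986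

theorem c_360_374 : allTr (chkV P V lk) tr_360_374 = true := allTr_mk ck_367 c_360_367 c_368_374

theorem c_484_498 : allTr (chkV P V lk) tr_484_498 = true := allTr_mk ck_491 c_484_491 c_492_498

theorem c_640_654 : allTr (chkV P V lk) tr_640_654 = true := allTr_mk ck_647 c_640_647 c_648_654

theorem c_671_685 : allTr (chkV P V lk) tr_671_685 = true := allTr_mk ck_678 c_671_678 c_679_685

theorem c_827_841 : allTr (chkV P V lk) tr_827_841 = true := allTr_mk ck_834 c_827_834 c_835_841

theorem c_858_872 : allTr (chkV P V lk) tr_858_872 = true := allTr_mk ck_865 c_858_865 c_866_872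

theorem c_889_903 : allTr (chkV P V lk) tr_889_903 = true := allTr_mk ck_896 c_889_896 c_897_903

theorem c_1045_1059 : allTr (chkV P V lk) tr_1045_1059 = true := allTr_mk ck_1052 c_1045_1052 c_1053_1059

theorem c_1076_1090 : allTr (chkV P V lk) tr_1076_1090 = true := allTr_mk ck_1083 c_1076_1083 c_1084_1090

theorem c_1107_1121 : allTr (chkV P V lk) tr_1107_1121 = true := allTr_mk ck_1114 c_1107_1114 c_1115_1121

theorem c_1232_1246 : allTr (chkV P V lk) tr_1232_1246 = true := allTr_mk ck_1239 c_1232_1239 c_1240_1246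

theorem c_1295_1309 : allTr (chkV P V lk) tr_1295_1309 = true := allTr_mk ck_1302 c_1295_1302 c_1303_1309

theorem c_1357_1371 : allTr (chkV P V lk) tr_1357_1371 = true := allTr_mk ck_1364 c_1357_1364 c_1365_1371

theorem c_1481_1495 : allTr (chkV P V lk) tr_1481_1495 = true := allTr_mk ck_1488 c_1481_1488 c_1489_1495

theorem c_1544_1558 : allTr (chkV P V lk) tr_1544_1558 = true := allTr_mk ck_1551 c_1544_1551 c_1552_1558

theorem c_1575_1589 : allTr (chkV P V lk) tr_1575_1589 = true := allTr_mk ck_1582 c_1575_1582 c_1583_1589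

theorem c_1637_1651 : allTr (chkV P V lk) tr_1637_1651 = true := allTr_mk ck_1644 c_1637_1644 c_1645_1651

theorem c_1668_1682 : allTr (chkV P V lk) tr_1668_1682 = true := allTr_mk ck_1675 c_1668_1675 c_1676_1682

theorem c_1730_1744 : allTr (chkV P V lk) tr_1730_1744 = true := allTr_mk ck_1737 c_1730_1737 c_1738_1744

theorem c_1793_1807 : allTr (chkV P V lk) tr_1793_1807 = true := allTr_mk ck_1800 c_1793_1800 c_1801_1807

theorem c_1824_1838 : allTr (chkV P V lk) tr_1824_1838 = true := allTr_mk ck_1831 c_1824_1831 c_1832_1838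

theorem c_1855_1869 : allTr (chkV P V lk) tr_1855_1869 = true := allTr_mk ck_1862 c_1855_1862 c_1863_1869

theorem c_1886_1900 : allTr (chkV P V lk) tr_1886_1900 = true := allTr_mk ck_1893 c_1886_1893 c_1894_1900

theorem c_1917_1931 : allTr (chkV P V lk) tr_1917_1931 = true := allTr_mk ck_1924 c_1917_1924 c_1925_1931

theorem c_1948_1962 : allTr (chkV P V lk) tr_1948_1962 = true := allTr_mk ck_1955 c_1948_1955 c_1956_1962

theorem c_1979_1993 : allTr (chkV P V lk) tr_1979_1993 = true := allTr_mk ck_1986 c_1979_1986 c_1987_1993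

theorem c_282_297 : allTr (chkV P V lk) tr_282_297 = true := allTr_mk ck_289 c_282_289 c_290_297

theorem c_375_390 : allTr (chkV P V lk) tr_375_390 = true := allTr_mk ck_382 c_375_382 c_383_390

theorem c_499_514 : allTr (chkV P V lk) tr_499_514 = true := allTr_mk ck_506 c_499_506 c_507_514

theorem c_515_530 : allTr (chkV P V lk) tr_515_530 = true := allTr_mk ck_522 c_515_522 c_523_530

theorem c_624_639 : allTr (chkV P V lk) tr_624_639 = true := allTr_mk ck_631 c_624_631 c_632_639

theorem c_655_670 : allTr (chkV P V lk) tr_655_670 = true := allTr_mk ck_662 c_655_662 c_663_670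

theorem c_686_701 : allTr (chkV P V lk) tr_686_701 = true := allTr_mk ck_693 c_686_693 c_694_701

theorem c_811_826 : allTr (chkV P V lk) tr_811_826 = true := allTr_mk ck_818 c_811_818 c_819_826

theorem c_842_857 : allTr (chkV P V lk) tr_842_857 = true := allTr_mk ck_849 c_842_849 c_850_857

theorem c_873_888 : allTr (chkV P V lk) tr_873_888 = true := allTr_mk ck_880 c_873_880 c_881_888

theorem c_1013_1028 : allTr (chkV P V lk) tr_1013_1028 = true := allTr_mk ck_1020 c_1013_1020 c_1021_1028

theorem c_1029_1044 : allTr (chkV P V lk) tr_1029_1044 = true := allTr_mk ck_1036 c_1029_1036 c_1037_1044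

theorem c_1060_1075 : allTr (chkV P V lk) tr_1060_1075 = true := allTr_mk ck_1067 c_1060_1067 c_1068_1075

theorem c_1216_1231 : allTr (chkV P V lk) tr_1216_1231 = true := allTr_mk ck_1223 c_1216_1223 c_1224_1231

theorem c_1247_1262 : allTr (chkV P V lk) tr_1247_1262 = true := allTr_mk ck_1254 c_1247_1254 c_1255_1262

theorem c_1263_1278 : allTr (chkV P V lk) tr_1263_1278 = true := allTr_mk ck_1270 c_1263_1270 c_1271_1278

theorem c_1279_1294 : allTr (chkV P V lk) tr_1279_1294 = true := allTr_mk ck_1286 c_1279_1286 c_1287_1294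

theorem c_1310_1325 : allTr (chkV P V lk) tr_1310_1325 = true := allTr_mk ck_1317 c_1310_1317 c_1318_1325

theorem c_1465_1480 : allTr (chkV P V lk) tr_1465_1480 = true := allTr_mk ck_1472 c_1465_1472 c_1473_1480

theorem c_1496_1511 : allTr (chkV P V lk) tr_1496_1511 = true := allTr_mk ck_1503 c_1496_1503 c_1504_1511

theorem c_1512_1527 : allTr (chkV P V lk) tr_1512_1527 = true := allTr_mk ck_1519 c_1512_1519 c_1520_1527

theorem c_1528_1543 : allTr (chkV P V lk) tr_1528_1543 = true := allTr_mk ck_1535 c_1528_1535 c_1536_1543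

theorem c_1559_1574 : allTr (chkV P V lk) tr_1559_1574 = true := allTr_mk ck_1566 c_1559_1566 c_1567_1574

theorem c_1621_1636 : allTr (chkV P V lk) tr_1621_1636 = true := allTr_mk ck_1628 c_1621_1628 c_1629_1636

theorem c_1652_1667 : allTr (chkV P V lk) tr_1652_1667 = true := allTr_mk ck_1659 c_1652_1659 c_1660_1667

theorem c_1683_1698 : allTr (chkV P V lk) tr_1683_1698 = true := allTr_mk ck_1690 c_1683_1690 c_1691_1698

theorem c_1714_1729 : allTr (chkV P V lk) tr_1714_1729 = true := allTr_mk ck_1721 c_1714_1721 c_1722_1729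

theorem c_1745_1760 : allTr (chkV P V lk) tr_1745_1760 = true := allTr_mk ck_1752 c_1745_1752 c_1753_1760

theorem c_1761_1776 : allTr (chkV P V lk) tr_1761_1776 = true := allTr_mk ck_1768 c_1761_1768 c_1769_1776

theorem c_1777_1792 : allTr (chkV P V lk) tr_1777_1792 = true := allTr_mk ck_1784 c_1777_1784 c_1785_1792

theorem c_1808_1823 : allTr (chkV P V lk) tr_1808_1823 = true := allTr_mk ck_1815 c_1808_1815 c_1816_1823

theorem c_1839_1854 : allTr (chkV P V lk) tr_1839_1854 = true := allTr_mk ck_1846 c_1839_1846 c_1847_1854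

theorem c_1870_1885 : allTr (chkV P V lk) tr_1870_1885 = true := allTr_mk ck_1877 c_1870_1877 c_1878_1885

theorem c_1901_1916 : allTr (chkV P V lk) tr_1901_1916 = true := allTr_mk ck_1908 c_1901_1908 c_1909_1916

theorem c_1932_1947 : allTr (chkV P V lk) tr_1932_1947 = true := allTr_mk ck_1939 c_1932_1939 c_1940_1947

theorem c_1963_1978 : allTr (chkV P V lk) tr_1963_1978 = true := allTr_mk ck_1970 c_1963_1970 c_1971_1978

theorem c_282_312 : allTr (chkV P V lk) tr_282_312 = true := allTr_mk ck_297 c_282_297 c_298_312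

theorem c_344_374 : allTr (chkV P V lk) tr_344_374 = true := allTr_mk ck_359 c_344_359 c_360_374

theorem c_375_405 : allTr (chkV P V lk) tr_375_405 = true := allTr_mk ck_390 c_375_390 c_391_405

theorem c_468_498 : allTr (chkV P V lk) tr_468_498 = true := allTr_mk ck_483 c_468_483 c_484_498

theorem c_624_654 : allTr (chkV P V lk) tr_624_654 = true := allTr_mk ck_639 c_624_639 c_640_654

theorem c_655_685 : allTr (chkV P V lk) tr_655_685 = true := allTr_mk ck_670 c_655_670 c_671_685

theorem c_686_716 : allTr (chkV P V lk) tr_686_716 = true := allTr_mk ck_701 c_686_701 c_702_716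

theorem c_780_810 : allTr (chkV P V lk) tr_780_810 = true := allTr_mk ck_795 c_780_795 c_796_810

theorem c_811_841 : allTr (chkV P V lk) tr_811_841 = true := allTr_mk ck_826 c_811_826 c_827_841

theorem c_842_872 : allTr (chkV P V lk) tr_842_872 = true := allTr_mk ck_857 c_842_857 c_858_872

theorem c_873_903 : allTr (chkV P V lk) tr_873_903 = true := allTr_mk ck_888 c_873_888 c_889_903

theorem c_1029_1059 : allTr (chkV P V lk) tr_1029_1059 = true := allTr_mk ck_1044 c_1029_1044 c_1045_1059

theorem c_1060_1090 : allTr (chkV P V lk) tr_1060_1090 = true := allTr_mk ck_1075 c_1060_1075 c_1076_1090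

theorem c_1091_1121 : allTr (chkV P V lk) tr_1091_1121 = true := allTr_mk ck_1106 c_1091_1106 c_1107_1121

theorem c_1154_1184 : allTr (chkV P V lk) tr_1154_1184 = true := allTr_mk ck_1169 c_1154_1169 c_1170_1184

theorem c_1216_1246 : allTr (chkV P V lk) tr_1216_1246 = true := allTr_mk ck_1231 c_1216_1231 c_1232_1246

theorem c_1279_1309 : allTr (chkV P V lk) tr_1279_1309 = true := allTr_mk ck_1294 c_1279_1294 c_1295_1309

theorem c_1310_1340 : allTr (chkV P V lk) tr_1310_1340 = true := allTr_mk ck_1325 c_1310_1325 c_1326_1340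

theorem c_1341_1371 : allTr (chkV P V lk) tr_1341_1371 = true := allTr_mk ck_1356 c_1341_1356 c_1357_1371

theorem c_1465_1495 : allTr (chkV P V lk) tr_1465_1495 = true := allTr_mk ck_1480 c_1465_1480 c_1481_1495

theorem c_1528_1558 : allTr (chkV P V lk) tr_1528_1558 = true := allTr_mk ck_1543 c_1528_1543 c_1544_1558

theorem c_1559_1589 : allTr (chkV P V lk) tr_1559_1589 = true := allTr_mk ck_1574 c_1559_1574 c_1575_1589

theorem c_1590_1620 : allTr (chkV P V lk) tr_1590_1620 = true := allTr_mk ck_1605 c_1590_1605 c_1606_1620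

theorem c_1621_1651 : allTr (chkV P V lk) tr_1621_1651 = true := allTr_mk ck_1636 c_1621_1636 c_1637_1651

theorem c_1652_1682 : allTr (chkV P V lk) tr_1652_1682 = true := allTr_mk ck_1667 c_1652_1667 c_1668_1682

theorem c_1683_1713 : allTr (chkV P V lk) tr_1683_1713 = true := allTr_mk ck_1698 c_1683_1698 c_1699_1713

theorem c_1714_1744 : allTr (chkV P V lk) tr_1714_1744 = true := allTr_mk ck_1729 c_1714_1729 c_1730_1744

theorem c_1777_1807 : allTr (chkV P V lk) tr_1777_1807 = true := allTr_mk ck_1792 c_1777_1792 c_1793_1807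

theorem c_1808_1838 : allTr (chkV P V lk) tr_1808_1838 = true := allTr_mk ck_1823 c_1808_1823 c_1824_1838

theorem c_1839_1869 : allTr (chkV P V lk) tr_1839_1869 = true := allTr_mk ck_1854 c_1839_1854 c_1855_1869

theorem c_1870_1900 : allTr (chkV P V lk) tr_1870_1900 = true := allTr_mk ck_1885 c_1870_1885 c_1886_1900

theorem c_1901_1931 : allTr (chkV P V lk) tr_1901_1931 = true := allTr_mk ck_1916 c_1901_1916 c_1917_1931

theorem c_1932_1962 : allTr (chkV P V lk) tr_1932_1962 = true := allTr_mk ck_1947 c_1932_1947 c_1948_1962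

theorem c_1963_1993 : allTr (chkV P V lk) tr_1963_1993 = true := allTr_mk ck_1978 c_1963_1978 c_1979_1993

theorem c_499_530 : allTr (chkV P V lk) tr_499_530 = true := allTr_mk ck_514 c_499_514 c_515_530

theorem c_997_1028 : allTr (chkV P V lk) tr_997_1028 = true := allTr_mk ck_1012 c_997_1012 c_1013_1028

theorem c_1247_1278 : allTr (chkV P V lk) tr_1247_1278 = true := allTr_mk ck_1262 c_1247_1262 c_1263_1278

theorem c_1496_1527 : allTr (chkV P V lk) tr_1496_1527 = true := allTr_mk ck_1511 c_1496_1511 c_1512_1527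

theorem c_1745_1776 : allTr (chkV P V lk) tr_1745_1776 = true := allTr_mk ck_1760 c_1745_1760 c_1761_1776

theorem c_313_374 : allTr (chkV P V lk) tr_313_374 = true := allTr_mk ck_343 c_313_343 c_344_374

theorem c_375_436 : allTr (chkV P V lk) tr_375_436 = true := allTr_mk ck_405 c_375_405 c_406_436

theorem c_437_498 : allTr (chkV P V lk) tr_437_498 = true := allTr_mk ck_467 c_437_467 c_468_498

theorem c_562_623 : allTr (chkV P V lk) tr_562_623 = true := allTr_mk ck_592 c_562_592 c_593_623

theorem c_624_685 : allTr (chkV P V lk) tr_624_685 = true := allTr_mk ck_654 c_624_654 c_655_685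

theorem c_686_747 : allTr (chkV P V lk) tr_686_747 = true := allTr_mk ck_716 c_686_716 c_717_747

theorem c_811_872 : allTr (chkV P V lk) tr_811_872 = true := allTr_mk ck_841 c_811_841 c_842_872

theorem c_873_934 : allTr (chkV P V lk) tr_873_934 = true := allTr_mk ck_903 c_873_903 c_904_934

theorem c_935_996 : allTr (chkV P V lk) tr_935_996 = true := allTr_mk ck_965 c_935_965 c_966_996

theorem c_1060_1121 : allTr (chkV P V lk) tr_1060_1121 = true := allTr_mk ck_1090 c_1060_1090 c_1091_1121

theorem c_1185_1246 : allTr (chkV P V lk) tr_1185_1246 = true := allTr_mk ck_1215 c_1185_1215 c_1216_1246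

theorem c_1310_1371 : allTr (chkV P V lk) tr_1310_1371 = true := allTr_mk ck_1340 c_1310_1340 c_1341_1371

theorem c_1372_1433 : allTr (chkV P V lk) tr_1372_1433 = true := allTr_mk ck_1402 c_1372_1402 c_1403_1433

theorem c_1434_1495 : allTr (chkV P V lk) tr_1434_1495 = true := allTr_mk ck_1464 c_1434_1464 c_1465_1495

theorem c_1559_1620 : allTr (chkV P V lk) tr_1559_1620 = true := allTr_mk ck_1589 c_1559_1589 c_1590_1620

theorem c_1621_1682 : allTr (chkV P V lk) tr_1621_1682 = true := allTr_mk ck_1651 c_1621_1651 c_1652_1682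

theorem c_1683_1744 : allTr (chkV P V lk) tr_1683_1744 = true := allTr_mk ck_1713 c_1683_1713 c_1714_1744

theorem c_1808_1869 : allTr (chkV P V lk) tr_1808_1869 = true := allTr_mk ck_1838 c_1808_1838 c_1839_1869

theorem c_1870_1931 : allTr (chkV P V lk) tr_1870_1931 = true := allTr_mk ck_1900 c_1870_1900 c_1901_1931

theorem c_1932_1993 : allTr (chkV P V lk) tr_1932_1993 = true := allTr_mk ck_1962 c_1932_1962 c_1963_1993

theorem c_125_187 : allTr (chkV P V lk) tr_125_187 = true := allTr_mk ck_156 c_125_156 c_157_187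

theorem c_250_312 : allTr (chkV P V lk) tr_250_312 = true := allTr_mk ck_281 c_250_281 c_282_312

theorem c_499_561 : allTr (chkV P V lk) tr_499_561 = true := allTr_mk ck_530 c_499_530 c_531_561

theorem c_748_810 : allTr (chkV P V lk) tr_748_810 = true := allTr_mk ck_779 c_748_779 c_780_810

theorem c_997_1059 : allTr (chkV P V lk) tr_997_1059 = true := allTr_mk ck_1028 c_997_1028 c_1029_1059

theorem c_1122_1184 : allTr (chkV P V lk) tr_1122_1184 = true := allTr_mk ck_1153 c_1122_1153 c_1154_1184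

theorem c_1247_1309 : allTr (chkV P V lk) tr_1247_1309 = true := allTr_mk ck_1278 c_1247_1278 c_1279_1309

theorem c_1496_1558 : allTr (chkV P V lk) tr_1496_1558 = true := allTr_mk ck_1527 c_1496_1527 c_1528_1558

theorem c_1745_1807 : allTr (chkV P V lk) tr_1745_1807 = true := allTr_mk ck_1776 c_1745_1776 c_1777_1807

theorem c_375_498 : allTr (chkV P V lk) tr_375_498 = true := allTr_mk ck_436 c_375_436 c_437_498

theorem c_624_747 : allTr (chkV P V lk) tr_624_747 = true := allTr_mk ck_685 c_624_685 c_686_747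

theorem c_873_996 : allTr (chkV P V lk) tr_873_996 = true := allTr_mk ck_934 c_873_934 c_935_996

theorem c_1372_1495 : allTr (chkV P V lk) tr_1372_1495 = true := allTr_mk ck_1433 c_1372_1433 c_1434_1495

theorem c_1621_1744 : allTr (chkV P V lk) tr_1621_1744 = true := allTr_mk ck_1682 c_1621_1682 c_1683_1744

theorem c_1870_1993 : allTr (chkV P V lk) tr_1870_1993 = true := allTr_mk ck_1931 c_1870_1931 c_1932_1993

theorem c_0_124 : allTr (chkV P V lk) tr_0_124 = true := allTr_mk ck_62 c_0_62 c_63_124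

theorem c_125_249 : allTr (chkV P V lk) tr_125_249 = true := allTr_mk ck_187 c_125_187 c_188_249

theorem c_250_374 : allTr (chkV P V lk) tr_250_374 = true := allTr_mk ck_312 c_250_312 c_313_374

theorem c_499_623 : allTr (chkV P V lk) tr_499_623 = true := allTr_mk ck_561 c_499_561 c_562_623

theorem c_748_872 : allTr (chkV P V lk) tr_748_872 = true := allTr_mk ck_810 c_748_810 c_811_872

theorem c_997_1121 : allTr (chkV P V lk) tr_997_1121 = true := allTr_mk ck_1059 c_997_1059 c_1060_1121

theorem c_1122_1246 : allTr (chkV P V lk) tr_1122_1246 = true := allTr_mk ck_1184 c_1122_1184 c_1185_1246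

theorem c_1247_1371 : allTr (chkV P V lk) tr_1247_1371 = true := allTr_mk ck_1309 c_1247_1309 c_1310_1371

theorem c_1496_1620 : allTr (chkV P V lk) tr_1496_1620 = true := allTr_mk ck_1558 c_1496_1558 c_1559_1620

theorem c_1745_1869 : allTr (chkV P V lk) tr_1745_1869 = true := allTr_mk ck_1807 c_1745_1807 c_1808_1869

theorem c_250_498 : allTr (chkV P V lk) tr_250_498 = true := allTr_mk ck_374 c_250_374 c_375_498

theorem c_499_747 : allTr (chkV P V lk) tr_499_747 = true := allTr_mk ck_623 c_499_623 c_624_747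

theorem c_748_996 : allTr (chkV P V lk) tr_748_996 = true := allTr_mk ck_872 c_748_872 c_873_996

theorem c_1247_1495 : allTr (chkV P V lk) tr_1247_1495 = true := allTr_mk ck_1371 c_1247_1371 c_1372_1495

theorem c_1496_1744 : allTr (chkV P V lk) tr_1496_1744 = true := allTr_mk ck_1620 c_1496_1620 c_1621_1744

theorem c_1745_1993 : allTr (chkV P V lk) tr_1745_1993 = true := allTr_mk ck_1869 c_1745_1869 c_1870_1993

theorem c_0_249 : allTr (chkV P V lk) tr_0_249 = true := allTr_mk ck_124 c_0_124 c_125_249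

theorem c_997_1246 : allTr (chkV P V lk) tr_997_1246 = true := allTr_mk ck_1121 c_997_1121 c_1122_1246

theorem c_499_996 : allTr (chkV P V lk) tr_499_996 = true := allTr_mk ck_747 c_499_747 c_748_996

theorem c_1496_1993 : allTr (chkV P V lk) tr_1496_1993 = true := allTr_mk ck_1744 c_1496_1744 c_1745_1993

theorem c_0_498 : allTr (chkV P V lk) tr_0_498 = true := allTr_mk ck_249 c_0_249 c_250_498

theorem c_997_1495 : allTr (chkV P V lk) tr_997_1495 = true := allTr_mk ck_1246 c_997_1246 c_1247_1495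

theorem c_0_996 : allTr (chkV P V lk) tr_0_996 = true := allTr_mk ck_498 c_0_498 c_499_996

theorem c_997_1993 : allTr (chkV P V lk) tr_997_1993 = true := allTr_mk ck_1495 c_997_1495 c_1496_1993

theorem c_0_1993 : allTr (chkV P V lk) tr_0_1993 = true := allTr_mk ck_996 c_0_996 c_997_1993

theorem o_1963_1966 : allTr oF tr_1963_1966 = true := allTr_mk ok_1964 o_1963_1964 o_1965_1966

theorem o_1967_1970 : allTr oF tr_1967_1970 = true := allTr_mk ok_1968 o_1967_1968 o_1969_1970

theorem o_1971_1974 : allTr oF tr_1971_1974 = true := allTr_mk ok_1972 o_1971_1972 o_1973_1974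

theorem o_1975_1978 : allTr oF tr_1975_1978 = true := allTr_mk ok_1976 o_1975_1976 o_1977_1978

theorem o_1979_1982 : allTr oF tr_1979_1982 = true := allTr_mk ok_1980 o_1979_1980 o_1981_1982

theorem o_1987_1990 : allTr oF tr_1987_1990 = true := allTr_mk ok_1988 o_1987_1988 o_1989_1990

theorem o_1645_1651 : allTr oF tr_1645_1651 = true := allTr_mk ok_1648 o_1645_1648 o_1649_1651

theorem o_1676_1682 : allTr oF tr_1676_1682 = true := allTr_mk ok_1679 o_1676_1679 o_1680_1682

theorem o_1738_1744 : allTr oF tr_1738_1744 = true := allTr_mk ok_1741 o_1738_1741 o_1742_1744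

theorem o_1801_1807 : allTr oF tr_1801_1807 = true := allTr_mk ok_1804 o_1801_1804 o_1805_1807

theorem o_1832_1838 : allTr oF tr_1832_1838 = true := allTr_mk ok_1835 o_1832_1835 o_1836_1838

theorem o_1863_1869 : allTr oF tr_1863_1869 = true := allTr_mk ok_1866 o_1863_1866 o_1867_1869

theorem o_1894_1900 : allTr oF tr_1894_1900 = true := allTr_mk ok_1897 o_1894_1897 o_1898_1900

theorem o_1925_1931 : allTr oF tr_1925_1931 = true := allTr_mk ok_1928 o_1925_1928 o_1929_1931

theorem o_1956_1962 : allTr oF tr_1956_1962 = true := allTr_mk ok_1959 o_1956_1959 o_1960_1962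

theorem o_1987_1993 : allTr oF tr_1987_1993 = true := allTr_mk ok_1990 o_1987_1990 o_1991_1993

theorem o_1060_1067 : allTr oF tr_1060_1067 = true := allTr_mk ok_1063 o_1060_1063 o_1064_1067

theorem o_1512_1519 : allTr oF tr_1512_1519 = true := allTr_mk ok_1515 o_1512_1515 o_1516_1519

theorem o_1520_1527 : allTr oF tr_1520_1527 = true := allTr_mk ok_1523 o_1520_1523 o_1524_1527

theorem o_1544_1551 : allTr oF tr_1544_1551 = true := allTr_mk ok_1547 o_1544_1547 o_1548_1551

theorem o_1637_1644 : allTr oF tr_1637_1644 = true := allTr_mk ok_1640 o_1637_1640 o_1641_1644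

theorem o_1652_1659 : allTr oF tr_1652_1659 = true := allTr_mk ok_1655 o_1652_1655 o_1656_1659

theorem o_1660_1667 : allTr oF tr_1660_1667 = true := allTr_mk ok_1663 o_1660_1663 o_1664_1667

theorem o_1668_1675 : allTr oF tr_1668_1675 = true := allTr_mk ok_1671 o_1668_1671 o_1672_1675

theorem o_1683_1690 : allTr oF tr_1683_1690 = true := allTr_mk ok_1686 o_1683_1686 o_1687_1690

theorem o_1714_1721 : allTr oF tr_1714_1721 = true := allTr_mk ok_1717 o_1714_1717 o_1718_1721

theorem o_1722_1729 : allTr oF tr_1722_1729 = true := allTr_mk ok_1725 o_1722_1725 o_1726_1729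

theorem o_1730_1737 : allTr oF tr_1730_1737 = true := allTr_mk ok_1733 o_1730_1733 o_1734_1737

theorem o_1745_1752 : allTr oF tr_1745_1752 = true := allTr_mk ok_1748 o_1745_1748 o_1749_1752

theorem o_1753_1760 : allTr oF tr_1753_1760 = true := allTr_mk ok_1756 o_1753_1756 o_1757_1760

theorem o_1761_1768 : allTr oF tr_1761_1768 = true := allTr_mk ok_1764 o_1761_1764 o_1765_1768

theorem o_1769_1776 : allTr oF tr_1769_1776 = true := allTr_mk ok_1772 o_1769_1772 o_1773_1776

theorem o_1777_1784 : allTr oF tr_1777_1784 = true := allTr_mk ok_1780 o_1777_1780 o_1781_1784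

theorem o_1785_1792 : allTr oF tr_1785_1792 = true := allTr_mk ok_1788 o_1785_1788 o_1789_1792

theorem o_1793_1800 : allTr oF tr_1793_1800 = true := allTr_mk ok_1796 o_1793_1796 o_1797_1800

theorem o_1808_1815 : allTr oF tr_1808_1815 = true := allTr_mk ok_1811 o_1808_1811 o_1812_1815

theorem o_1816_1823 : allTr oF tr_1816_1823 = true := allTr_mk ok_1819 o_1816_1819 o_1820_1823

theorem o_1824_1831 : allTr oF tr_1824_1831 = true := allTr_mk ok_1827 o_1824_1827 o_1828_1831

theorem o_1839_1846 : allTr oF tr_1839_1846 = true := allTr_mk ok_1842 o_1839_1842 o_1843_1846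

theorem o_1847_1854 : allTr oF tr_1847_1854 = true := allTr_mk ok_1850 o_1847_1850 o_1851_1854

theorem o_1855_1862 : allTr oF tr_1855_1862 = true := allTr_mk ok_1858 o_1855_1858 o_1859_1862

theorem o_1870_1877 : allTr oF tr_1870_1877 = true := allTr_mk ok_1873 o_1870_1873 o_1874_1877

theorem o_1878_1885 : allTr oF tr_1878_1885 = true := allTr_mk ok_1881 o_1878_1881 o_1882_1885

theorem o_1886_1893 : allTr oF tr_1886_1893 = true := allTr_mk ok_1889 o_1886_1889 o_1890_1893

theorem o_1901_1908 : allTr oF tr_1901_1908 = true := allTr_mk ok_1904 o_1901_1904 o_1905_1908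

theorem o_1909_1916 : allTr oF tr_1909_1916 = true := allTr_mk ok_1912 o_1909_1912 o_1913_1916

theorem o_1917_1924 : allTr oF tr_1917_1924 = true := allTr_mk ok_1920 o_1917_1920 o_1921_1924

theorem o_1932_1939 : allTr oF tr_1932_1939 = true := allTr_mk ok_1935 o_1932_1935 o_1936_1939

theorem o_1940_1947 : allTr oF tr_1940_1947 = true := allTr_mk ok_1943 o_1940_1943 o_1944_1947

theorem o_1948_1955 : allTr oF tr_1948_1955 = true := allTr_mk ok_1951 o_1948_1951 o_1952_1955

theorem o_1963_1970 : allTr oF tr_1963_1970 = true := allTr_mk ok_1966 o_1963_1966 o_1967_1970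

theorem o_1971_1978 : allTr oF tr_1971_1978 = true := allTr_mk ok_1974 o_1971_1974 o_1975_1978

theorem o_1979_1986 : allTr oF tr_1979_1986 = true := allTr_mk ok_1982 o_1979_1982 o_1983_1986

theorem o_484_498 : allTr oF tr_484_498 = true := allTr_mk ok_491 o_484_491 o_492_498

theorem o_640_654 : allTr oF tr_640_654 = true := allTr_mk ok_647 o_640_647 o_648_654

theorem o_671_685 : allTr oF tr_671_685 = true := allTr_mk ok_678 o_671_678 o_679_685

theorem o_1045_1059 : allTr oF tr_1045_1059 = true := allTr_mk ok_1052 o_1045_1052 o_1053_1059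

theorem o_1076_1090 : allTr oF tr_1076_1090 = true := allTr_mk ok_1083 o_1076_1083 o_1084_1090

theorem o_1232_1246 : allTr oF tr_1232_1246 = true := allTr_mk ok_1239 o_1232_1239 o_1240_1246

theorem o_1481_1495 : allTr oF tr_1481_1495 = true := allTr_mk ok_1488 o_1481_1488 o_1489_1495

theorem o_1544_1558 : allTr oF tr_1544_1558 = true := allTr_mk ok_1551 o_1544_1551 o_1552_1558

theorem o_1637_1651 : allTr oF tr_1637_1651 = true := allTr_mk ok_1644 o_1637_1644 o_1645_1651

theorem o_1668_1682 : allTr oF tr_1668_1682 = true := allTr_mk ok_1675 o_1668_1675 o_1676_1682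

theorem o_1730_1744 : allTr oF tr_1730_1744 = true := allTr_mk ok_1737 o_1730_1737 o_1738_1744

theorem o_1793_1807 : allTr oF tr_1793_1807 = true := allTr_mk ok_1800 o_1793_1800 o_1801_1807

theorem o_1824_1838 : allTr oF tr_1824_1838 = true := allTr_mk ok_1831 o_1824_1831 o_1832_1838

theorem o_1855_1869 : allTr oF tr_1855_1869 = true := allTr_mk ok_1862 o_1855_1862 o_1863_1869

theorem o_1886_1900 : allTr oF tr_1886_1900 = true := allTr_mk ok_1893 o_1886_1893 o_1894_1900

theorem o_1917_1931 : allTr oF tr_1917_1931 = true := allTr_mk ok_1924 o_1917_1924 o_1925_1931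

theorem o_1948_1962 : allTr oF tr_1948_1962 = true := allTr_mk ok_1955 o_1948_1955 o_1956_1962

theorem o_1979_1993 : allTr oF tr_1979_1993 = true := allTr_mk ok_1986 o_1979_1986 o_1987_1993

theorem o_282_297 : allTr oF tr_282_297 = true := allTr_mk ok_289 o_282_289 o_290_297

theorem o_375_390 : allTr oF tr_375_390 = true := allTr_mk ok_382 o_375_382 o_383_390

theorem o_499_514 : allTr oF tr_499_514 = true := allTr_mk ok_506 o_499_506 o_507_514

theorem o_655_670 : allTr oF tr_655_670 = true := allTr_mk ok_662 o_655_662 o_663_670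

theorem o_873_888 : allTr oF tr_873_888 = true := allTr_mk ok_880 o_873_880 o_881_888

theorem o_1013_1028 : allTr oF tr_1013_1028 = true := allTr_mk ok_1020 o_1013_1020 o_1021_1028

theorem o_1029_1044 : allTr oF tr_1029_1044 = true := allTr_mk ok_1036 o_1029_1036 o_1037_1044

theorem o_1060_1075 : allTr oF tr_1060_1075 = true := allTr_mk ok_1067 o_1060_1067 o_1068_1075

theorem o_1216_1231 : allTr oF tr_1216_1231 = true := allTr_mk ok_1223 o_1216_1223 o_1224_1231

theorem o_1247_1262 : allTr oF tr_1247_1262 = true := allTr_mk ok_1254 o_1247_1254 o_1255_1262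

theorem o_1263_1278 : allTr oF tr_1263_1278 = true := allTr_mk ok_1270 o_1263_1270 o_1271_1278

theorem o_1279_1294 : allTr oF tr_1279_1294 = true := allTr_mk ok_1286 o_1279_1286 o_1287_1294

theorem o_1310_1325 : allTr oF tr_1310_1325 = true := allTr_mk ok_1317 o_1310_1317 o_1318_1325

theorem o_1465_1480 : allTr oF tr_1465_1480 = true := allTr_mk ok_1472 o_1465_1472 o_1473_1480

theorem o_1496_1511 : allTr oF tr_1496_1511 = true := allTr_mk ok_1503 o_1496_1503 o_1504_1511

theorem o_1512_1527 : allTr oF tr_1512_1527 = true := allTr_mk ok_1519 o_1512_1519 o_1520_1527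

theorem o_1528_1543 : allTr oF tr_1528_1543 = true := allTr_mk ok_1535 o_1528_1535 o_1536_1543

theorem o_1559_1574 : allTr oF tr_1559_1574 = true := allTr_mk ok_1566 o_1559_1566 o_1567_1574

theorem o_1652_1667 : allTr oF tr_1652_1667 = true := allTr_mk ok_1659 o_1652_1659 o_1660_1667

theorem o_1683_1698 : allTr oF tr_1683_1698 = true := allTr_mk ok_1690 o_1683_1690 o_1691_1698

theorem o_1714_1729 : allTr oF tr_1714_1729 = true := allTr_mk ok_1721 o_1714_1721 o_1722_1729

theorem o_1745_1760 : allTr oF tr_1745_1760 = true := allTr_mk ok_1752 o_1745_1752 o_1753_1760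

theorem o_1761_1776 : allTr oF tr_1761_1776 = true := allTr_mk ok_1768 o_1761_1768 o_1769_1776

theorem o_1777_1792 : allTr oF tr_1777_1792 = true := allTr_mk ok_1784 o_1777_1784 o_1785_1792

theorem o_1808_1823 : allTr oF tr_1808_1823 = true := allTr_mk ok_1815 o_1808_1815 o_1816_1823

theorem o_1839_1854 : allTr oF tr_1839_1854 = true := allTr_mk ok_1846 o_1839_1846 o_1847_1854

theorem o_1870_1885 : allTr oF tr_1870_1885 = true := allTr_mk ok_1877 o_1870_1877 o_1878_1885

theorem o_1901_1916 : allTr oF tr_1901_1916 = true := allTr_mk ok_1908 o_1901_1908 o_1909_1916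

theorem o_1932_1947 : allTr oF tr_1932_1947 = true := allTr_mk ok_1939 o_1932_1939 o_1940_1947

theorem o_1963_1978 : allTr oF tr_1963_1978 = true := allTr_mk ok_1970 o_1963_1970 o_1971_1978

theorem o_282_312 : allTr oF tr_282_312 = true := allTr_mk ok_297 o_282_297 o_298_312

theorem o_375_405 : allTr oF tr_375_405 = true := allTr_mk ok_390 o_375_390 o_391_405

theorem o_468_498 : allTr oF tr_468_498 = true := allTr_mk ok_483 o_468_483 o_484_498

theorem o_624_654 : allTr oF tr_624_654 = true := allTr_mk ok_639 o_624_639 o_640_654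

theorem o_655_685 : allTr oF tr_655_685 = true := allTr_mk ok_670 o_655_670 o_671_685

theorem o_686_716 : allTr oF tr_686_716 = true := allTr_mk ok_701 o_686_701 o_702_716

theorem o_811_841 : allTr oF tr_811_841 = true := allTr_mk ok_826 o_811_826 o_827_841

theorem o_842_872 : allTr oF tr_842_872 = true := allTr_mk ok_857 o_842_857 o_858_872

theorem o_873_903 : allTr oF tr_873_903 = true := allTr_mk ok_888 o_873_888 o_889_903

theorem o_1029_1059 : allTr oF tr_1029_1059 = true := allTr_mk ok_1044 o_1029_1044 o_1045_1059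

theorem o_1060_1090 : allTr oF tr_1060_1090 = true := allTr_mk ok_1075 o_1060_1075 o_1076_1090

theorem o_1216_1246 : allTr oF tr_1216_1246 = true := allTr_mk ok_1231 o_1216_1231 o_1232_1246

theorem o_1279_1309 : allTr oF tr_1279_1309 = true := allTr_mk ok_1294 o_1279_1294 o_1295_1309

theorem o_1310_1340 : allTr oF tr_1310_1340 = true := allTr_mk ok_1325 o_1310_1325 o_1326_1340

theorem o_1465_1495 : allTr oF tr_1465_1495 = true := allTr_mk ok_1480 o_1465_1480 o_1481_1495

theorem o_1528_1558 : allTr oF tr_1528_1558 = true := allTr_mk ok_1543 o_1528_1543 o_1544_1558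

theorem o_1559_1589 : allTr oF tr_1559_1589 = true := allTr_mk ok_1574 o_1559_1574 o_1575_1589

theorem o_1621_1651 : allTr oF tr_1621_1651 = true := allTr_mk ok_1636 o_1621_1636 o_1637_1651

theorem o_1652_1682 : allTr oF tr_1652_1682 = true := allTr_mk ok_1667 o_1652_1667 o_1668_1682

theorem o_1683_1713 : allTr oF tr_1683_1713 = true := allTr_mk ok_1698 o_1683_1698 o_1699_1713

theorem o_1714_1744 : allTr oF tr_1714_1744 = true := allTr_mk ok_1729 o_1714_1729 o_1730_1744

theorem o_1777_1807 : allTr oF tr_1777_1807 = true := allTr_mk ok_1792 o_1777_1792 o_1793_1807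

theorem o_1808_1838 : allTr oF tr_1808_1838 = true := allTr_mk ok_1823 o_1808_1823 o_1824_1838

theorem o_1839_1869 : allTr oF tr_1839_1869 = true := allTr_mk ok_1854 o_1839_1854 o_1855_1869

theorem o_1870_1900 : allTr oF tr_1870_1900 = true := allTr_mk ok_1885 o_1870_1885 o_1886_1900

theorem o_1901_1931 : allTr oF tr_1901_1931 = true := allTr_mk ok_1916 o_1901_1916 o_1917_1931

theorem o_1932_1962 : allTr oF tr_1932_1962 = true := allTr_mk ok_1947 o_1932_1947 o_1948_1962

theorem o_1963_1993 : allTr oF tr_1963_1993 = true := allTr_mk ok_1978 o_1963_1978 o_1979_1993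

theorem o_499_530 : allTr oF tr_499_530 = true := allTr_mk ok_514 o_499_514 o_515_530

theorem o_997_1028 : allTr oF tr_997_1028 = true := allTr_mk ok_1012 o_997_1012 o_1013_1028

theorem o_1247_1278 : allTr oF tr_1247_1278 = true := allTr_mk ok_1262 o_1247_1262 o_1263_1278

theorem o_1496_1527 : allTr oF tr_1496_1527 = true := allTr_mk ok_1511 o_1496_1511 o_1512_1527

theorem o_1745_1776 : allTr oF tr_1745_1776 = true := allTr_mk ok_1760 o_1745_1760 o_1761_1776

theorem o_375_436 : allTr oF tr_375_436 = true := allTr_mk ok_405 o_375_405 o_406_436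

theorem o_437_498 : allTr oF tr_437_498 = true := allTr_mk ok_467 o_437_467 o_468_498

theorem o_624_685 : allTr oF tr_624_685 = true := allTr_mk ok_654 o_624_654 o_655_685

theorem o_686_747 : allTr oF tr_686_747 = true := allTr_mk ok_716 o_686_716 o_717_747

theorem o_811_872 : allTr oF tr_811_872 = true := allTr_mk ok_841 o_811_841 o_842_872

theorem o_873_934 : allTr oF tr_873_934 = true := allTr_mk ok_903 o_873_903 o_904_934

theorem o_1060_1121 : allTr oF tr_1060_1121 = true := allTr_mk ok_1090 o_1060_1090 o_1091_1121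

theorem o_1185_1246 : allTr oF tr_1185_1246 = true := allTr_mk ok_1215 o_1185_1215 o_1216_1246

theorem o_1310_1371 : allTr oF tr_1310_1371 = true := allTr_mk ok_1340 o_1310_1340 o_1341_1371

theorem o_1372_1433 : allTr oF tr_1372_1433 = true := allTr_mk ok_1402 o_1372_1402 o_1403_1433

theorem o_1434_1495 : allTr oF tr_1434_1495 = true := allTr_mk ok_1464 o_1434_1464 o_1465_1495

theorem o_1559_1620 : allTr oF tr_1559_1620 = true := allTr_mk ok_1589 o_1559_1589 o_1590_1620

theorem o_1621_1682 : allTr oF tr_1621_1682 = true := allTr_mk ok_1651 o_1621_1651 o_1652_1682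

theorem o_1683_1744 : allTr oF tr_1683_1744 = true := allTr_mk ok_1713 o_1683_1713 o_1714_1744

theorem o_1808_1869 : allTr oF tr_1808_1869 = true := allTr_mk ok_1838 o_1808_1838 o_1839_1869

theorem o_1870_1931 : allTr oF tr_1870_1931 = true := allTr_mk ok_1900 o_1870_1900 o_1901_1931

theorem o_1932_1993 : allTr oF tr_1932_1993 = true := allTr_mk ok_1962 o_1932_1962 o_1963_1993

theorem o_250_312 : allTr oF tr_250_312 = true := allTr_mk ok_281 o_250_281 o_282_312

theorem o_499_561 : allTr oF tr_499_561 = true := allTr_mk ok_530 o_499_530 o_531_561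

theorem o_748_810 : allTr oF tr_748_810 = true := allTr_mk ok_779 o_748_779 o_780_810

theorem o_997_1059 : allTr oF tr_997_1059 = true := allTr_mk ok_1028 o_997_1028 o_1029_1059

theorem o_1247_1309 : allTr oF tr_1247_1309 = true := allTr_mk ok_1278 o_1247_1278 o_1279_1309

theorem o_1496_1558 : allTr oF tr_1496_1558 = true := allTr_mk ok_1527 o_1496_1527 o_1528_1558

theorem o_1745_1807 : allTr oF tr_1745_1807 = true := allTr_mk ok_1776 o_1745_1776 o_1777_1807

theorem o_375_498 : allTr oF tr_375_498 = true := allTr_mk ok_436 o_375_436 o_437_498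

theorem o_624_747 : allTr oF tr_624_747 = true := allTr_mk ok_685 o_624_685 o_686_747

theorem o_873_996 : allTr oF tr_873_996 = true := allTr_mk ok_934 o_873_934 o_935_996

theorem o_1372_1495 : allTr oF tr_1372_1495 = true := allTr_mk ok_1433 o_1372_1433 o_1434_1495

theorem o_1621_1744 : allTr oF tr_1621_1744 = true := allTr_mk ok_1682 o_1621_1682 o_1683_1744

theorem o_1870_1993 : allTr oF tr_1870_1993 = true := allTr_mk ok_1931 o_1870_1931 o_1932_1993

theorem o_125_249 : allTr oF tr_125_249 = true := allTr_mk ok_187 o_125_187 o_188_249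

theorem o_250_374 : allTr oF tr_250_374 = true := allTr_mk ok_312 o_250_312 o_313_374

theorem o_499_623 : allTr oF tr_499_623 = true := allTr_mk ok_561 o_499_561 o_562_623

theorem o_748_872 : allTr oF tr_748_872 = true := allTr_mk ok_810 o_748_810 o_811_872

theorem o_997_1121 : allTr oF tr_997_1121 = true := allTr_mk ok_1059 o_997_1059 o_1060_1121

theorem o_1122_1246 : allTr oF tr_1122_1246 = true := allTr_mk ok_1184 o_1122_1184 o_1185_1246

theorem o_1247_1371 : allTr oF tr_1247_1371 = true := allTr_mk ok_1309 o_1247_1309 o_1310_1371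

theorem o_1496_1620 : allTr oF tr_1496_1620 = true := allTr_mk ok_1558 o_1496_1558 o_1559_1620

theorem o_1745_1869 : allTr oF tr_1745_1869 = true := allTr_mk ok_1807 o_1745_1807 o_1808_1869

theorem o_250_498 : allTr oF tr_250_498 = true := allTr_mk ok_374 o_250_374 o_375_498

theorem o_499_747 : allTr oF tr_499_747 = true := allTr_mk ok_623 o_499_623 o_624_747

theorem o_748_996 : allTr oF tr_748_996 = true := allTr_mk ok_872 o_748_872 o_873_996

theorem o_1247_1495 : allTr oF tr_1247_1495 = true := allTr_mk ok_1371 o_1247_1371 o_1372_1495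

theorem o_1496_1744 : allTr oF tr_1496_1744 = true := allTr_mk ok_1620 o_1496_1620 o_1621_1744

theorem o_1745_1993 : allTr oF tr_1745_1993 = true := allTr_mk ok_1869 o_1745_1869 o_1870_1993

theorem o_0_249 : allTr oF tr_0_249 = true := allTr_mk ok_124 o_0_124 o_125_249

theorem o_997_1246 : allTr oF tr_997_1246 = true := allTr_mk ok_1121 o_997_1121 o_1122_1246

theorem o_499_996 : allTr oF tr_499_996 = true := allTr_mk ok_747 o_499_747 o_748_996

theorem o_1496_1993 : allTr oF tr_1496_1993 = true := allTr_mk ok_1744 o_1496_1744 o_1745_1993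

theorem o_0_498 : allTr oF tr_0_498 = true := allTr_mk ok_249 o_0_249 o_250_498

theorem o_997_1495 : allTr oF tr_997_1495 = true := allTr_mk ok_1246 o_997_1246 o_1247_1495

theorem o_0_996 : allTr oF tr_0_996 = true := allTr_mk ok_498 o_0_498 o_499_996

theorem o_997_1993 : allTr oF tr_997_1993 = true := allTr_mk ok_1495 o_997_1495 o_1496_1993

theorem o_0_1993 : allTr oF tr_0_1993 = true := allTr_mk ok_996 o_0_996 o_997_1993

/-- the sequence of types -/
noncomputable def y : ℕ → ℕ := gs T.M T.mul T.w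

theorem y_isG : IsG T.γ T.M T.mul T.w y := gs_isG gp (by decide +kernel) t_w (by decide +kernel)

theorem hlk : ∀ ia ib ic ie t, lk ia ib ic ie t = true → chkV P V lk t = true :=
  fun _ _ _ _ _ h => memTr_spec c_0_1993 h

theorem hbf : ∀ i, i < P.M → bf Q i = bf Q 0 := by decide +kernel

theorem hout : ∀ ia ib ic ie t, ia < P.M → ib < P.M → ic < P.M → ie < P.M →
    lk ia ib ic ie t = true → chkOV P VO Q t ia ib ic ie = true :=
  fun _ _ _ _ _ ha hb hc he h => chkOV_one hbf ha hb hc he (memTr_spec o_0_1993 h)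

theorem zero : ∃ t, chkV P V lk t = true ∧ Match P.n P.A P.B 16384 T.mul T.inv y T.vc t 0 0 0 0 := by
  refine ⟨0x10001000100050001000000000000400040004000400040004000400040004000, memTr_spec c_0_1993 (by decide +kernel), ?_⟩
  apply match_zero gp y_isG.lt <;> decide +kernel

/-- `𝒜(s,9)` holds for all `s` above the threshold -/
theorem avoid (s : ℝ) (hs1 : 1 < s) (hs2 : (1 : ℝ) < (s - 1) * (4 + 1)) : Avoid s 9 := by
  have h := avoid_mainV chyp vok y_isG cert hlk hout zero act le_rfl vok' ohyp ocert s hs1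
    (by
      have e1 : ((P.B : ℕ) : ℝ) = 1 := by norm_num [P]
      have e2 : ((P.A : ℕ) : ℝ) = 4 := by norm_num [P]
      rw [e1, e2]
      exact hs2)
  exact h

end MPbbea99G.E9
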