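import Pool.Agent.Lib.Pbbea99G.E9.Tok
import Pool.Agent.Lib.Pbbea99G.E9.Grp
import Pool.Agent.Lib.Pbbea99G.E9.TabG00
import Pool.Agent.Lib.Pbbea99G.E9.TabG01
import Pool.Agent.Lib.Pbbea99G.E9.TabG02
import Pool.Agent.Lib.Pbbea99G.E9.TabG03
import Pool.Agent.Lib.Pbbea99G.E9.TabG10
import Pool.Agent.Lib.Pbbea99G.E9.TabG11
import Pool.Agent.Lib.Pbbea99G.E9.TabG12
import Pool.Agent.Lib.Pbbea99G.E9.TabG13

/-!
# MP_bbea99_co: the closure hypotheses
-/

namespace MPbbea99G.E9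

open MPbbea99S MPbbea99T MPbbea99G Finset

theorem h_gT : ∀ ro, ro < 2 → ∀ κ, κ < T.γ → nthL P.gT (T.γ * ro + κ) = T.gTf P.WL ro κ := by
  intro ro hro κ hκ
  have hγ : T.γ = 72 := rfl
  rw [hγ] at hκ
  obtain rfl | rfl : ro = 0 ∨ ro = 1 := by omega
  · rcases (by omega : κ < 18 ∨ (18 ≤ κ ∧ κ < 36) ∨ (36 ≤ κ ∧ κ < 54) ∨ (54 ≤ κ)) with h | h | h | h
    · have := tg00 (κ - 0) (by omega)
      rwa [show 0 + (κ - 0) = κ by omega] at this
    · have := tg01 (κ - 18) (by omega)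
      rwa [show 18 + (κ - 18) = κ by omega] at this
    · have := tg02 (κ - 36) (by omega)
      rwa [show 36 + (κ - 36) = κ by omega] at this
    · have := tg03 (κ - 54) (by omega)
      rwa [show 54 + (κ - 54) = κ by omega] at this
  · rcases (by omega : κ < 18 ∨ (18 ≤ κ ∧ κ < 36) ∨ (36 ≤ κ ∧ κ < 54) ∨ (54 ≤ κ)) with h | h | h | h
    · have := tg10 (κ - 0) (by omega)
      rwa [show 0 + (κ - 0) = κ by omega] at this
    · have := tg11 (κ - 18) (by omega)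
      rwa [show 18 + (κ - 18) = κ by omega] at this
    · have := tg12 (κ - 36) (by omega)
      rwa [show 36 + (κ - 36) = κ by omega] at this
    · have := tg13 (κ - 54) (by omega)
      rwa [show 54 + (κ - 54) = κ by omega] at this

theorem h_sT : ∀ ro, ro < 2 → ∀ κ, κ < T.γ → nthL P.sT (T.γ * ro + κ) = T.sTf P.WS ro κ := by
  intro ro hro κ hκ
  have hγ : T.γ = 72 := rfl
  rw [hγ] at hκ
  obtain rfl | rfl : ro = 0 ∨ ro = 1 := by omega
  · rcases (by omega : κ < 18 ∨ (18 ≤ κ ∧ κ < 36) ∨ (36 ≤ κ ∧ κ < 54) ∨ (54 ≤ κ)) with h | h | h | h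
    · have := ts00 (κ - 0) (by omega)
      rwa [show 0 + (κ - 0) = κ by omega] at this
    · have := ts01 (κ - 18) (by omega)
      rwa [show 18 + (κ - 18) = κ by omega] at this
    · have := ts02 (κ - 36) (by omega)
      rwa [show 36 + (κ - 36) = κ by omega] at this
    · have := ts03 (κ - 54) (by omega)
      rwa [show 54 + (κ - 54) = κ by omega] at this
  · rcases (by omega : κ < 18 ∨ (18 ≤ κ ∧ κ < 36) ∨ (36 ≤ κ ∧ κ < 54) ∨ (54 ≤ κ)) with h | h | h | h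
    · have := ts10 (κ - 0) (by omega)
      rwa [show 0 + (κ - 0) = κ by omega] at this
    · have := ts11 (κ - 18) (by omega)
      rwa [show 18 + (κ - 18) = κ by omega] at this
    · have := ts12 (κ - 36) (by omega)
      rwa [show 36 + (κ - 36) = κ by omega] at this
    · have := ts13 (κ - 54) (by omega)
      rwa [show 54 + (κ - 54) = κ by omega] at this

theorem h_xC : ∀ ro, ro < 2 → ∀ κ, κ < T.γ → chkX T P ro κ = true := by
  intro ro hro κ hκ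
  have hγ : T.γ = 72 := rfl
  rw [hγ] at hκ
  obtain rfl | rfl : ro = 0 ∨ ro = 1 := by omega
  · rcases (by omega : κ < 18 ∨ (18 ≤ κ ∧ κ < 36) ∨ (36 ≤ κ ∧ κ < 54) ∨ (54 ≤ κ)) with h | h | h | h
    · have := tx00 (κ - 0) (by omega)
      rwa [show 0 + (κ - 0) = κ by omega] at this
    · have := tx01 (κ - 18) (by omega)
      rwa [show 18 + (κ - 18) = κ by omega] at this
    · have := tx02 (κ - 36) (by omega)
      rwa [show 36 + (κ - 36) = κ by omega] at this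
    · have := tx03 (κ - 54) (by omega)
      rwa [show 54 + (κ - 54) = κ by omega] at this
  · rcases (by omega : κ < 18 ∨ (18 ≤ κ ∧ κ < 36) ∨ (36 ≤ κ ∧ κ < 54) ∨ (54 ≤ κ)) with h | h | h | h
    · have := tx10 (κ - 0) (by omega)
      rwa [show 0 + (κ - 0) = κ by omega] at this
    · have := tx11 (κ - 18) (by omega)
      rwa [show 18 + (κ - 18) = κ by omega] at this
    · have := tx12 (κ - 36) (by omega)
      rwa [show 36 + (κ - 36) = κ by omega] at this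
    · have := tx13 (κ - 54) (by omega)
      rwa [show 54 + (κ - 54) = κ by omega] at this

mutual

theorem h_HI : P.HI = pkR T.W (fun _ => 2 ^ (T.W - 1)) T.L := by decide +kernel

theorem h_xT_p0 : ∀ j, j < 24 → ∀ ro, ro < 2 → nthL P.xT (T.γ * ro + (0 + j)) =
    pkR T.W (fun f => xBf T P ro (0 + j) f) T.L := by decide +kernel

theorem h_xT_p1 : ∀ j, j < 24 → ∀ ro, ro < 2 → nthL P.xT (T.γ * ro + (24 + j)) =
    pkR T.W (fun f => xBf T P ro (24 + j) f) T.L := by decide +kernel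

theorem h_xT_p2 : ∀ j, j < 24 → ∀ ro, ro < 2 → nthL P.xT (T.γ * ro + (48 + j)) =
    pkR T.W (fun f => xBf T P ro (48 + j) f) T.L := by decide +kernel

end

theorem h_xT : ∀ ro, ro < 2 → ∀ κ, κ < T.γ → nthL P.xT (T.γ * ro + κ) =
    pkR T.W (fun f => xBf T P ro κ f) T.L :=
  fun ro hro κ hκ => rngP_cons (p := fun κ => ∀ ro, ro < 2 → nthL P.xT (T.γ * ro + κ) =
    pkR T.W (fun f => xBf T P ro κ f) T.L) h_xT_p0 rfl (rngP_cons h_xT_p1 rfl (rngP_cons h_xT_p2 rfl (rngP_end (Nat.le_of_eq rfl)))) κ (Nat.zero_le _) hκ ro hro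

mutual

theorem h_xB_p0 : ∀ j, j < 12 → ∀ ro, ro < 2 → ∀ f, f < T.L → xBf T P ro (0 + j) f ≤ 28670 := by decide +kernel

theorem h_xB_p1 : ∀ j, j < 12 → ∀ ro, ro < 2 → ∀ f, f < T.L → xBf T P ro (12 + j) f ≤ 28670 := by decide +kernel

theorem h_xB_p2 : ∀ j, j < 12 → ∀ ro, ro < 2 → ∀ f, f < T.L → xBf T P ro (24 + j) f ≤ 28670 := by decide +kernel

theorem h_xB_p3 : ∀ j, j < 12 → ∀ ro, ro < 2 → ∀ f, f < T.L → xBf T P ro (36 + j) f ≤ 28670 := by decide +kernel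

theorem h_xB_p4 : ∀ j, j < 12 → ∀ ro, ro < 2 → ∀ f, f < T.L → xBf T P ro (48 + j) f ≤ 28670 := by decide +kernel

theorem h_xB_p5 : ∀ j, j < 12 → ∀ ro, ro < 2 → ∀ f, f < T.L → xBf T P ro (60 + j) f ≤ 28670 := by decide +kernel

end

theorem h_xB : ∀ ro, ro < 2 → ∀ κ, κ < T.γ → ∀ f, f < T.L → xBf T P ro κ f ≤ 28670 :=
  fun ro hro κ hκ => rngP_cons (p := fun κ => ∀ ro, ro < 2 → ∀ f, f < T.L → xBf T P ro κ f ≤ 28670) h_xB_p0 rfl (rngP_cons h_xB_p1 rfl (rngP_cons h_xB_p2 rfl (rngP_cons h_xB_p3 rfl (rngP_cons h_xB_p4 rfl (rngP_cons h_xB_p5 rfl (rngP_end (Nat.le_of_eq rfl))))))) κ (Nat.zero_le _) hκ ro hro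

mutual

theorem h_um_p0 : ∀ j, j < 12 → ∀ ro, ro < 2 → ∀ κ, κ < T.γ → T.un (0 + j) ro κ ≤ 83 := by decide +kernel

theorem h_um_p1 : ∀ j, j < 12 → ∀ ro, ro < 2 → ∀ κ, κ < T.γ → T.un (12 + j) ro κ ≤ 83 := by decide +kernel

theorem h_um_p2 : ∀ j, j < 12 → ∀ ro, ro < 2 → ∀ κ, κ < T.γ → T.un (24 + j) ro κ ≤ 83 := by decide +kernel

theorem h_um_p3 : ∀ j, j < 12 → ∀ ro, ro < 2 → ∀ κ, κ < T.γ → T.un (36 + j) ro κ ≤ 83 := by decide +kernel

theorem h_um_p4 : ∀ j, j < 12 → ∀ ro, ro < 2 → ∀ κ, κ < T.γ → T.un (48 + j) ro κ ≤ 83 := by decide +kernel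

theorem h_um_p5 : ∀ j, j < 12 → ∀ ro, ro < 2 → ∀ κ, κ < T.γ → T.un (60 + j) ro κ ≤ 83 := by decide +kernel

theorem h_um_p6 : ∀ j, j < 12 → ∀ ro, ro < 2 → ∀ κ, κ < T.γ → T.un (72 + j) ro κ ≤ 83 := by decide +kernel

theorem h_um_p7 : ∀ j, j < 6 → ∀ ro, ro < 2 → ∀ κ, κ < T.γ → T.un (84 + j) ro κ ≤ 83 := by decide +kernel

end

theorem h_um : ∀ f, f < T.L → ∀ ro, ro < 2 → ∀ κ, κ < T.γ → T.un f ro κ ≤ 83 :=
  fun f hf => rngP_cons (p := fun f => ∀ ro, ro < 2 → ∀ κ, κ < T.γ → T.un f ro κ ≤ 83) h_um_p0 rfl (rngP_cons h_um_p1 rfl (rngP_cons h_um_p2 rfl (rngP_cons h_um_p3 rfl (rngP_cons h_um_p4 rfl (rngP_cons h_um_p5 rfl (rngP_cons h_um_p6 rfl (rngP_cons h_um_p7 rfl (rngP_end (Nat.le_of_eq rfl))))))))) f (Nat.zero_le _) hf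

mutual

theorem h_3_p0 : ∀ j, j < 12 → ∀ ro, ro < 2 → ∀ κ, κ < T.γ →
    xBf T P ro κ (0 + j) ≤ T.n * T.v0 * T.cx * T.M + T.lam * T.un (0 + j) ro κ := by decide +kernel

theorem h_3_p1 : ∀ j, j < 12 → ∀ ro, ro < 2 → ∀ κ, κ < T.γ →
    xBf T P ro κ (12 + j) ≤ T.n * T.v0 * T.cx * T.M + T.lam * T.un (12 + j) ro κ := by decide +kernel

theorem h_3_p2 : ∀ j, j < 12 → ∀ ro, ro < 2 → ∀ κ, κ < T.γ →
    xBf T P ro κ (24 + j) ≤ T.n * T.v0 * T.cx * T.M + T.lam * T.un (24 + j) ro κ := by decide +kernel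

theorem h_3_p3 : ∀ j, j < 12 → ∀ ro, ro < 2 → ∀ κ, κ < T.γ →
    xBf T P ro κ (36 + j) ≤ T.n * T.v0 * T.cx * T.M + T.lam * T.un (36 + j) ro κ := by decide +kernel

theorem h_3_p4 : ∀ j, j < 12 → ∀ ro, ro < 2 → ∀ κ, κ < T.γ →
    xBf T P ro κ (48 + j) ≤ T.n * T.v0 * T.cx * T.M + T.lam * T.un (48 + j) ro κ := by decide +kernel

theorem h_3_p5 : ∀ j, j < 12 → ∀ ro, ro < 2 → ∀ κ, κ < T.γ →
    xBf T P ro κ (60 + j) ≤ T.n * T.v0 * T.cx * T.M + T.lam * T.un (60 + j) ro κ := by decide +kernel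

theorem h_3_p6 : ∀ j, j < 12 → ∀ ro, ro < 2 → ∀ κ, κ < T.γ →
    xBf T P ro κ (72 + j) ≤ T.n * T.v0 * T.cx * T.M + T.lam * T.un (72 + j) ro κ := by decide +kernel

theorem h_3_p7 : ∀ j, j < 6 → ∀ ro, ro < 2 → ∀ κ, κ < T.γ →
    xBf T P ro κ (84 + j) ≤ T.n * T.v0 * T.cx * T.M + T.lam * T.un (84 + j) ro κ := by decide +kernel

end

theorem h_3 : ∀ f, f < T.L → ∀ ro, ro < 2 → ∀ κ, κ < T.γ →
    xBf T P ro κ f ≤ T.n * T.v0 * T.cx * T.M + T.lam * T.un f ro κ :=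
  fun f hf => rngP_cons (p := fun f => ∀ ro, ro < 2 → ∀ κ, κ < T.γ →
    xBf T P ro κ f ≤ T.n * T.v0 * T.cx * T.M + T.lam * T.un f ro κ) h_3_p0 rfl (rngP_cons h_3_p1 rfl (rngP_cons h_3_p2 rfl (rngP_cons h_3_p3 rfl (rngP_cons h_3_p4 rfl (rngP_cons h_3_p5 rfl (rngP_cons h_3_p6 rfl (rngP_cons h_3_p7 rfl (rngP_end (Nat.le_of_eq rfl))))))))) f (Nat.zero_le _) hf

mutual

theorem h_L : P.LB = pkR P.WL (fun k => pkR T.W (T.lB k) T.L) T.n := by decide +kernel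

theorem h_C : P.CB = pkR T.W T.cB T.L := by decide +kernel

theorem h_C1 : ∀ f, f < T.L → T.h * sumN (fun k => T.lB k f) T.n ≤ T.C1 := by decide +kernel

theorem h_LS : P.LS = pkR P.WS (fun k => pkR 16 (T.lS k) T.n) T.n := by decide +kernel

theorem h_CS : P.CS = pkR 16 T.cS T.n := by decide +kernel

end

theorem chyp : CHyp P T.W T.L T.mul T.inv T.w T.vc T.χ T.th T.U T.q T.qc T.lam T.h 16384
      (fun r k => T.ac (T.w r) k) T.gB (xBf T P) T.lB T.cB T.gS T.lS T.cS T.C1 (T.bt * T.M)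
      (T.lam * T.cx) (T.lam * (2 * T.cx)) T.C1 28670 T.C2 (T.v0 * T.M) T.lam T.C2
      (2 * T.v0 * T.M) :=
  Tb.mkCHyp tok gp 16384 83 28670 (hh := by decide +kernel) (en := rfl) (eγ := rfl) (eM := rfl)
    (hB := by decide +kernel) (hAB := by decide +kernel) (em := rfl) (ew := rfl) (hvf := h_vf)
    (hpf := h_pf) (hπv := h_pv) (hWL := by decide +kernel) (hML := by decide +kernel)
    (hWS := by decide +kernel) (hMS := by decide +kernel) (hHI := h_HI) (hgT := h_gT)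
    (hxT := h_xT) (hxB := h_xB) (hBX := by decide +kernel) (hxC := h_xC) (hum := h_um)
    (hbG := by decide +kernel) (hL := h_L) (hC := h_C) (hC1 := h_C1)
    (hbias := by decide +kernel) (hbd := by decide +kernel) (hsT := h_sT)
    (hbS := by decide +kernel) (hLS := h_LS) (hCS := h_CS) (hC2 := by decide +kernel)
    (hbiasS := by decide +kernel) (hK1 := by decide +kernel) (hnh := by decide +kernel)
    (hbdS := by decide +kernel)

theorem vok : VOK V T.W T.L P.M :=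
  mkVOK (by decide +kernel) (by decide +kernel) (by decide +kernel) (by decide +kernel)
    (by decide +kernel) (by decide +kernel) (by decide +kernel) (by decide +kernel)
    (by decide +kernel) (by decide +kernel) (by decide +kernel)

theorem cert : Cert T.γ T.M T.L T.mul T.w T.th T.U T.q T.lam :=
  Tb.mkCert (P := P) (um := 83) (BX := 28670) tok (by decide +kernel) (by decide +kernel)
    (by decide +kernel) h_HI h_gT h_xT h_xB (by decide +kernel) h_xC h_um (by decide +kernel) h_3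

end MPbbea99G.E9
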