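import Pool.Agent.Lib.Pbbea99G.E9.Data

/-!
# MP_bbea99_co: windows over the templates
-/

namespace MPbbea99G.E9

open MPbbea99S MPbbea99T MPbbea99G Finset

theorem o_1983_1986 : allTr oF tr_1983_1986 = true := 
  allTr_mk (by decide +kernel) (allTr_mk (by decide +kernel) (by decide +kernel) (by decide +kernel)) (allTr_mk (by decide +kernel) (by decide +kernel) (by decide +kernel))

theorem o_1372_1402 : allTr oF tr_1372_1402 = true := by decide +kernel

theorem o_1905_1908 : allTr oF tr_1905_1908 = true := by decide +kernel

theorem o_1053_1059 : allTr oF tr_1053_1059 = true := by decide +kernel

theorem o_1863_1866 : allTr oF tr_1863_1866 = true := by decide +kernel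

theorem o_1084_1090 : allTr oF tr_1084_1090 = true := by decide +kernel

theorem o_1676_1679 : allTr oF tr_1676_1679 = true := by decide +kernel

theorem o_1481_1488 : allTr oF tr_1481_1488 = true := by decide +kernel

theorem ok_1972 : oF 0x10000000100080001000c000c0000400040004000400040004000400040004000 = true := by decide +kernel

theorem ok_1964 : oF 0x10000000100070001000400040000400040004000400040004000400040004000 = true := by decide +kernel

theorem ok_1063 : oF 0x700010034001f00013fff3fff4001400040003fff400140014000 = true := by decide +kernel

theorem o_290_297 : allTr oF tr_290_297 = true := by decide +kernel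

theorem ok_1869 : oF 0x1000000000008000200120012000240003fff40003fff40004000400140014000 = true := by decide +kernel

theorem ok_1788 : oF 0x1000000000006000200190019000240003fff40003fff40004000400140014000 = true := by decide +kernel

theorem ok_1931 : oF 0x1000000000009000200230023000240003fff40003fff40004000400140014000 = true := by decide +kernel

theorem ok_1772 : oF 0x10000000000050002002c002c000240003fff40003fff40004000400140014000 = true := by decide +kernel

theorem ok_678 : oF 0x50001003c0024000240003fff40003ffe40004001400240013fff = true := by decide +kernel

theorem ok_1558 : oF 0x90001003e0027000240013fff40013fff3fff4000400140004000 = true := by decide +kernel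

theorem ok_934 : oF 0x600020033004200033fff3ffe3fff3fff40004000400240024001 = true := by decide +kernel

theorem ok_124 : oF 0x2000d00140005400140003fff3ffe3fff4000400140014001 = true := by decide +kernel

theorem ok_841 : oF 0x6000100250023000540013fff3ffe3fff40024000400040023fff = true := by decide +kernel

end MPbbea99G.E9
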