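import Pool.Agent.Lib.Pbbea99G.E9.Data

/-!
# MP_bbea99_co: windows over the templates
-/

namespace MPbbea99G.E9

open MPbbea99S MPbbea99T MPbbea99G Finset

theorem o_1917_1920 : allTr oF tr_1917_1920 = true := by decide +kernel

theorem o_827_841 : allTr oF tr_827_841 = true := by decide +kernel

theorem o_1726_1729 : allTr oF tr_1726_1729 = true := by decide +kernel

theorem o_1777_1780 : allTr oF tr_1777_1780 = true := by decide +kernel

theorem o_1932_1935 : allTr oF tr_1932_1935 = true := by decide +kernel

theorem o_1496_1503 : allTr oF tr_1496_1503 = true := by decide +kernel

theorem o_1465_1472 : allTr oF tr_1465_1472 = true := by decide +kernel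

theorem o_1045_1052 : allTr oF tr_1045_1052 = true := by decide +kernel

theorem ok_1966 : oF 0x10000000100070001000600060000400040004000400040004000400040004000 = true := by decide +kernel

theorem o_1575_1589 : allTr oF tr_1575_1589 = true := by decide +kernel

theorem o_1969_1970 : allTr oF tr_1969_1970 = true := by decide +kernel

theorem ok_1748 : oF 0x10000000000040002001b001b000240003fff40003fff40004000400140014000 = true := by decide +kernel

theorem ok_1729 : oF 0x10000000000030002000a000a000140003fff40003fff40004000400140014000 = true := by decide +kernel

theorem ok_1675 : oF 0x1000900000023001300003fff3fff4000400040014000400140004000 = true := by decide +kernel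

theorem ok_1655 : oF 0x1000800000015000a0000400140003fff4000400040003fff40004001 = true := by decide +kernel

theorem ok_1858 : oF 0x1000000000008000200040004000140003fff40003fff40004000400140014000 = true := by decide +kernel

theorem ok_1052 : oF 0x70001001b002c000240003ffe40013fff40004000400140023fff = true := by decide +kernel

theorem ok_1262 : oF 0x8000100210019000140003fff40013ffe40003fff400240014000 = true := by decide +kernel

theorem ok_297 : oF 0x20001002d0032000d4000400040013fff400240003fff3fff4000 = true := by decide +kernel

theorem ok_1223 : oF 0x8000100020027000640023ffe40013ffe3fff4001400040004001 = true := by decide +kernel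

theorem ok_779 : oF 0x600000019001400013fff400140003fff3fff3fff400240004001 = true := by decide +kernel

end MPbbea99G.E9
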