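import Pool.Agent.Lib.Pbbea99G.E9.Data
import Pool.Agent.Lib.Pbbea99G.Piece

/-!
# MP_bbea99_co: the facts behind the tables
-/

namespace MPbbea99G.E9

open MPbbea99S MPbbea99T MPbbea99G Finset

mutual

theorem t_mlt_p0 : ∀ j, j < 12 → ∀ b, b < T.γ → T.mul (0 + j) b < T.γ := by decide +kernel

theorem t_mlt_p1 : ∀ j, j < 12 → ∀ b, b < T.γ → T.mul (12 + j) b < T.γ := by decide +kernel

theorem t_mlt_p2 : ∀ j, j < 12 → ∀ b, b < T.γ → T.mul (24 + j) b < T.γ := by decide +kernel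

theorem t_mlt_p3 : ∀ j, j < 12 → ∀ b, b < T.γ → T.mul (36 + j) b < T.γ := by decide +kernel

theorem t_mlt_p4 : ∀ j, j < 12 → ∀ b, b < T.γ → T.mul (48 + j) b < T.γ := by decide +kernel

theorem t_mlt_p5 : ∀ j, j < 12 → ∀ b, b < T.γ → T.mul (60 + j) b < T.γ := by decide +kernel

end

theorem t_mlt : ∀ a, a < T.γ → ∀ b, b < T.γ → T.mul a b < T.γ :=
  fun a ha => rngP_cons (p := fun a => ∀ b, b < T.γ → T.mul a b < T.γ) t_mlt_p0 rfl (rngP_cons t_mlt_p1 rfl (rngP_cons t_mlt_p2 rfl (rngP_cons t_mlt_p3 rfl (rngP_cons t_mlt_p4 rfl (rngP_cons t_mlt_p5 rfl (rngP_end (Nat.le_of_eq rfl))))))) a (Nat.zero_le _) ha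

mutual

theorem t_w : ∀ r, r < T.M → T.w r < T.γ := by decide +kernel

theorem t_ac : ∀ κ, κ < T.γ → ∀ x, x < T.n → T.ac κ x < T.n := by decide +kernel

theorem t_v0 : ∀ κ, κ < T.γ → ∀ k, k < T.n → T.vn κ k ≤ 2 * T.v0 := by decide +kernel

theorem t_cx : ∀ f, f < T.L → ∀ k, k < T.n → T.chn f k ≤ 2 * T.cx := by decide +kernel

theorem t_vz : ∀ κ, κ < T.γ → sumN (fun k => T.vn κ k) T.n = T.n * T.v0 := by decide +kernel

theorem t_cz : ∀ f, f < T.L → sumN (fun k => T.chn f k) T.n = T.n * T.cx := by decide +kernel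

theorem t_CH : ∀ ro, ro < 2 → ∀ k, k < T.n → nthL T.CH (T.n * ro + k) =
    pkR T.W (fun f => T.chr ro f k) T.L := by decide +kernel

theorem t_UV : ∀ ro, ro < 2 → ∀ κ, κ < T.γ → nthL T.UV (T.γ * ro + κ) =
    pkR T.W (fun f => T.un f ro κ) T.L := by decide +kernel

theorem t_ON : T.ON = pkR T.W (fun _ => 1) T.L := by decide +kernel

theorem t_sM_p0 : ∀ j, j < 1 → ∀ κ, κ < T.γ →
    sumN (fun u => T.vn (T.mul κ (T.w u)) (0 + j)) T.M + T.lam * T.v0 =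
      T.M * T.v0 + T.lam * T.vn κ (0 + j) := by decide +kernel

theorem t_sM_p1 : ∀ j, j < 1 → ∀ κ, κ < T.γ →
    sumN (fun u => T.vn (T.mul κ (T.w u)) (1 + j)) T.M + T.lam * T.v0 =
      T.M * T.v0 + T.lam * T.vn κ (1 + j) := by decide +kernel

theorem t_sM_p2 : ∀ j, j < 1 → ∀ κ, κ < T.γ →
    sumN (fun u => T.vn (T.mul κ (T.w u)) (2 + j)) T.M + T.lam * T.v0 =
      T.M * T.v0 + T.lam * T.vn κ (2 + j) := by decide +kernel

theorem t_sM_p3 : ∀ j, j < 1 → ∀ κ, κ < T.γ →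
    sumN (fun u => T.vn (T.mul κ (T.w u)) (3 + j)) T.M + T.lam * T.v0 =
      T.M * T.v0 + T.lam * T.vn κ (3 + j) := by decide +kernel

theorem t_sM_p4 : ∀ j, j < 1 → ∀ κ, κ < T.γ →
    sumN (fun u => T.vn (T.mul κ (T.w u)) (4 + j)) T.M + T.lam * T.v0 =
      T.M * T.v0 + T.lam * T.vn κ (4 + j) := by decide +kernel

theorem t_sM_p5 : ∀ j, j < 1 → ∀ κ, κ < T.γ →
    sumN (fun u => T.vn (T.mul κ (T.w u)) (5 + j)) T.M + T.lam * T.v0 =
      T.M * T.v0 + T.lam * T.vn κ (5 + j) := by decide +kernel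

theorem t_sM_p6 : ∀ j, j < 1 → ∀ κ, κ < T.γ →
    sumN (fun u => T.vn (T.mul κ (T.w u)) (6 + j)) T.M + T.lam * T.v0 =
      T.M * T.v0 + T.lam * T.vn κ (6 + j) := by decide +kernel

theorem t_sM_p7 : ∀ j, j < 1 → ∀ κ, κ < T.γ →
    sumN (fun u => T.vn (T.mul κ (T.w u)) (7 + j)) T.M + T.lam * T.v0 =
      T.M * T.v0 + T.lam * T.vn κ (7 + j) := by decide +kernel

theorem t_sM_p8 : ∀ j, j < 1 → ∀ κ, κ < T.γ →
    sumN (fun u => T.vn (T.mul κ (T.w u)) (8 + j)) T.M + T.lam * T.v0 =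
      T.M * T.v0 + T.lam * T.vn κ (8 + j) := by decide +kernel

end

theorem t_sM : ∀ k, k < T.n → ∀ κ, κ < T.γ →
    sumN (fun u => T.vn (T.mul κ (T.w u)) k) T.M + T.lam * T.v0 =
      T.M * T.v0 + T.lam * T.vn κ k :=
  fun k hk => rngP_cons (p := fun k => ∀ κ, κ < T.γ →
    sumN (fun u => T.vn (T.mul κ (T.w u)) k) T.M + T.lam * T.v0 =
      T.M * T.v0 + T.lam * T.vn κ k) t_sM_p0 rfl (rngP_cons t_sM_p1 rfl (rngP_cons t_sM_p2 rfl (rngP_cons t_sM_p3 rfl (rngP_cons t_sM_p4 rfl (rngP_cons t_sM_p5 rfl (rngP_cons t_sM_p6 rfl (rngP_cons t_sM_p7 rfl (rngP_cons t_sM_p8 rfl (rngP_end (Nat.le_of_eq rfl)))))))))) k (Nat.zero_le _) hk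

theorem tok : TOK T where
  hn := by decide +kernel
  hM := by decide +kernel
  hW := by decide +kernel
  hMW := by decide +kernel
  hγ := by decide +kernel
  hmlt := t_mlt
  hw := t_w
  hac := t_ac
  hv0 := t_v0
  hcx := t_cx
  hvz := t_vz
  hcz := t_cz
  hCH := t_CH
  hUV := t_UV
  hON := t_ON
  hsM := t_sM

end MPbbea99G.E9
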